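import Pool.Agent.P.MP_7b3100_nt.DZ.If

/-! Step AP. -/

namespace Pool.Agent.P.MP_7b3100_nt.DZ

open Finset Real Pool.Agent.P.MP_bf60a1_an.RA
open Pool.Agent.P.MP_e94e4b_nt (ee)

namespace APc

theorem dig {W x y : ℕ} : ∀ n : ℕ, (∀ i < n, x / W ^ i % W = y / W ^ i % W) →
    x % W ^ n = y % W ^ n
  | 0, _ => by simp [Nat.mod_one]
  | n + 1, h => by
    rw [Nat.mod_pow_succ, Nat.mod_pow_succ, dig n fun i hi => h i (by omega), h n (by omega)]

end APc

theorem p_AP (hFG : S_FG) (hAPA : S_APA) :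
    S_AP := by
  intro b h δ H hδ
  obtain ⟨L, k, C, hL, hk, hC, hG⟩ := hFG b h (δ / 5) H (by positivity)
  have hb := H.hb
  have hl : 0 < log b := log_pos (by exact_mod_cast hb)
  have hk' : (0 : ℝ) < k := by exact_mod_cast hk
  obtain ⟨n0, h0⟩ := H.lim (δ / 5 * log b / (4 * k)) (by positivity)
  obtain ⟨n1, h1⟩ := exists_nat_ge ((4 * k + 1) * log 2 / (δ / 5 * log b))
  refine ⟨4 * k, L, n0 + n1, 1 + C * log b / (2 * k), by omega, hL,
    le_add_of_nonneg_right (by positivity), fun j hj hLj N hN hS Ω _ P X hX => ?_⟩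
  have hD : ∀ i : Fin (4 * k), InL P (fun ω => X ω / (b ^ j) ^ i.1 % b ^ j) b j := fun i => by
    rw [← pow_mul]
    refine hX.fac ?_
    rw [← Nat.mul_succ, mul_comm (4 * k)]
    exact Nat.mul_le_mul_left j i.2
  choose G g1 g2 g3 using fun i => hG Ω P _ j hLj (hD i)
  have hlt : ∀ ω, 0 < P.p ω → X ω < (b ^ j) ^ (4 * k) := fun ω hω => by
    rw [← pow_mul, mul_comm j]
    exact hX.lt ω hω
  have hW : log (b ^ j : ℕ) = j * log b := by rw [Nat.cast_pow, log_pow]
  have hj0 : (0 : ℝ) ≤ j * log b := by positivity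
  have hp : 0 < b ^ j := by positivity
  have key := hAPA Ω P X (b ^ j) k N G _ hk (lt_of_lt_of_le (by positivity) hS)
    (hN.pow_left j) (le_trans (Nat.mul_le_mul_right _ (by omega)) hS) hlt g1
    (by rw [hW]; nlinarith) g3
  have a1 : P.H X ≤ ∑ i : Fin (4 * k), P.H fun ω => X ω / (b ^ j) ^ i.1 % b ^ j :=
    H_fun_le P univ _ X fun ω ω' a a' e => by
      rw [← Nat.mod_eq_of_lt (hlt ω a), ← Nat.mod_eq_of_lt (hlt ω' a')]
      exact APc.dig _ fun i hi => e ⟨i, hi⟩ (mem_univ _)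
  have a2 := sum_le_sum fun i (_ : i ∈ univ) => g2 i
  have a3 := sum_le_sum fun i (_ : i ∈ univ) => (hD i).H_le.trans (h0 j (by omega))
  simp only [← mul_sum, sum_add_distrib, sum_sub_distrib, sum_const, card_univ, Fintype.card_fin,
    nsmul_eq_mul, Nat.cast_mul, Nat.cast_ofNat] at a2 a3
  have a4 : (4 * k + 1) * log 2 ≤ δ / 5 * (j * log b) := by
    rw [div_le_iff₀ (by positivity)] at h1
    have : (n1 : ℝ) ≤ j := by exact_mod_cast (by omega : n1 ≤ j)
    have := mul_le_mul_of_nonneg_right this (by positivity : 0 ≤ δ / 5 * log b)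
    linarith
  rw [hW] at key
  refine le_trans ?_ key
  set p := ∑ i, P.pr fun ω => X ω / (b ^ j) ^ i.1 % b ^ j ∉ G i
  set T := ∑ i : Fin (4 * k), P.H fun ω => X ω / (b ^ j) ^ i.1 % b ^ j
  have a5 : p / (2 * k) * (j * log b) ≤
      2 * (δ / 5) * (j * log b) + C * log b / (2 * k) * (h * (4 * k * j) - P.H X) := by
    have b1 := mul_le_mul_of_nonneg_left a1 hC
    have b2 : j * p ≤ 4 * k * (j * (δ / 5)) + C * (h * (4 * k * j) - P.H X) := by linarith
    have b3 := mul_le_mul_of_nonneg_right b2 (by positivity : 0 ≤ log b / (2 * k))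
    refine le_trans (le_of_eq (by ring)) (b3.trans (le_of_eq ?_))
    field_simp
    ring
  have a6 : 4 * k * ((h + δ / 5 * log b / (4 * k)) * j) =
      h * (4 * k * j) + δ / 5 * (j * log b) := by
    field_simp
  push_cast
  linarith

end Pool.Agent.P.MP_7b3100_nt.DZ
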