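import Pool.Agent.P.MP_7b3100_nt.DZ.If

/-! Step APA. -/

namespace Pool.Agent.P.MP_7b3100_nt.DZ

open Finset Real Pool.Agent.P.MP_bf60a1_an.RA
open Pool.Agent.P.MP_e94e4b_nt (ee)

namespace APAc

theorem digits_sum (W x : ℕ) : ∀ S : ℕ, ∑ i : Fin S, W ^ i.1 * (x / W ^ i.1 % W) = x % W ^ S
  | 0 => by simp [Nat.mod_one]
  | S + 1 => by
    rw [Fin.sum_univ_castSucc, Nat.mod_pow_succ]
    simp only [Fin.val_castSucc, Fin.val_last]
    rw [digits_sum W x S]

theorem cnt {k : ℕ} (G : Fin (4 * k) → Finset ℕ) (d : Fin (4 * k) → ℕ) :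
    (2 * k : ℝ) * ind (¬ 2 * k ≤ (univ.filter fun i => d i ∈ G i).card) ≤
      ∑ i, ind (d i ∉ G i) := by
  by_cases h : 2 * k ≤ (univ.filter fun i => d i ∈ G i).card
  · rw [ind_neg (not_not.2 h), mul_zero]
    exact sum_nonneg fun _ _ => ind_nonneg _
  · rw [ind_pos h, mul_one]
    have h1 : ∑ i, ind (d i ∉ G i) = ((univ.filter fun i => ¬ d i ∈ G i).card : ℝ) := by
      rw [card_filter, Nat.cast_sum]
      refine sum_congr rfl fun i _ => ?_
      by_cases hi : d i ∈ G i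
      · rw [ind_neg (not_not.2 hi)]; simp [hi]
      · rw [ind_pos hi]; simp [hi]
    have h2 := card_filter_add_card_filter_not (s := (univ : Finset (Fin (4 * k))))
      fun i => d i ∈ G i
    rw [card_univ, Fintype.card_fin] at h2
    rw [h1]
    have h3 : 2 * k ≤ (univ.filter fun i => ¬ d i ∈ G i).card := by omega
    exact_mod_cast h3

end APAc

theorem p_APA (hMAJ : S_MAJ) (hGIB : S_GIB) :
    S_APA := by
  intro Ω _ P X W k N G s hk hN hWN hkW hX hG hs hcv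
  have hη : (0 : ℝ) < 2 ^ (4 * k) * exp (-s) := by positivity
  have h1 := hGIB Ω P (4 * k) (fun i ω => X ω / W ^ i.1 % W)
    (fun d => (∑ i, W ^ i.1 * d i) % N)
    (fun d => 2 * k ≤ (univ.filter fun i => d i ∈ G i).card) _ hη fun x =>
      hMAJ Ω P (4 * k) k W N x (fun i ω => X ω / W ^ i.1 % W) G (fun i => W ^ i.1) (exp (-s))
        hk hN (exp_pos _).le hG hkW (fun i => hWN.pow_left _) hcv
  have hs' : ∀ ω, 0 < P.p ω → ∑ i : Fin (4 * k), W ^ i.1 * (X ω / W ^ i.1 % W) = X ω :=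
    fun ω hω => by rw [APAc.digits_sum, Nat.mod_eq_of_lt (hX ω hω)]
  have h2 : (P.H fun ω => (∑ i : Fin (4 * k), W ^ i.1 * (X ω / W ^ i.1 % W)) % N) ≤
      P.H fun ω => X ω % N :=
    P.H_mono fun ω ω' a b e => by
      have e' : X ω % N = X ω' % N := e
      simp only [hs' ω a, hs' ω' b, e']
  have h3 : P.H X ≤ P.H fun ω (i : Fin (4 * k)) => X ω / W ^ i.1 % W :=
    P.H_mono fun ω ω' a b e => by
      rw [← hs' ω a, ← hs' ω' b]
      exact sum_congr rfl fun i _ => congrArg _ (congrFun e i)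
  have h4 := P.pr_not fun ω => 2 * k ≤
    (univ.filter fun i : Fin (4 * k) => X ω / W ^ i.1 % W ∈ G i).card
  have h5 : (2 * k : ℝ) * (P.pr fun ω => ¬ 2 * k ≤
      (univ.filter fun i : Fin (4 * k) => X ω / W ^ i.1 % W ∈ G i).card) ≤
      ∑ i, P.pr fun ω => X ω / W ^ i.1 % W ∉ G i := by
    unfold FP.pr
    rw [← P.E_mul_left, ← P.E_sum]
    exact P.E_mono fun ω _ => APAc.cnt G fun i => X ω / W ^ i.1 % W
  have h6 := P.pr_nonneg fun ω => ¬ 2 * k ≤
    (univ.filter fun i : Fin (4 * k) => X ω / W ^ i.1 % W ∈ G i).card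
  have h7 : log (2 ^ (4 * k) * exp (-s)) = 4 * k * log 2 - s := by
    rw [log_mul (by positivity) (exp_pos _).ne', log_pow, log_exp]; push_cast; ring
  have h8 : 0 ≤ log (W : ℝ) := log_natCast_nonneg W
  have h9 : 0 < log (2 : ℝ) := log_pos one_lt_two
  have hk' : (0 : ℝ) < 2 * k := by positivity
  rw [h7] at h1
  generalize (P.pr fun ω => ¬ 2 * k ≤
    (univ.filter fun i : Fin (4 * k) => X ω / W ^ i.1 % W ∈ G i).card) = q at h4 h5 h6
  generalize (P.pr fun ω => 2 * k ≤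
    (univ.filter fun i : Fin (4 * k) => X ω / W ^ i.1 % W ∈ G i).card) = p at h1 h4
  generalize (∑ i, P.pr fun ω => X ω / W ^ i.1 % W ∉ G i) = A at h5 ⊢
  have h10 : q * log W ≤ A / (2 * k) * log W :=
    mul_le_mul_of_nonneg_right (by rw [le_div_iff₀ hk']; linarith) h8
  have h11 : q * (s - 4 * k * log 2) ≤ q * log W :=
    mul_le_mul_of_nonneg_left (by nlinarith [mul_pos hk' h9]) h6
  have h12 : p = 1 - q := by linarith
  subst h12
  nlinarith

end Pool.Agent.P.MP_7b3100_nt.DZ
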