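import Pool.Agent.P.MP_7b3100_nt.DZ.If

/-! Step BF. -/

namespace Pool.Agent.P.MP_7b3100_nt.DZ

open Finset Real Pool.Agent.P.MP_bf60a1_an.RA
open Pool.Agent.P.MP_e94e4b_nt (ee)

namespace BFc

theorem sum_pr_le {Ω : Type} [Fintype Ω] (P : FP Ω) (Q : Finset ℕ) (s : ℕ → Ω → Prop) (B : ℝ)
    [∀ ω, DecidablePred fun q => s q ω]
    (h : ∀ ω, 0 < P.p ω → ((Q.filter fun q => s q ω).card : ℝ) ≤ B) :
    ∑ q ∈ Q, P.pr (s q) ≤ B := by
  simp only [FP.pr]
  rw [← FP.E_sum]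
  refine P.E_le fun ω hω => le_trans (le_of_eq ?_) (h ω hω)
  rw [card_filter]
  push_cast
  exact sum_congr rfl fun q _ => by by_cases e : s q ω <;> simp [ind, e]

end BFc

theorem p_BF (hFP : S_FP) (hGT : S_GT) (hCOLL : S_COLL) (hBFQ : S_BFQ) (hBFN : S_BFN) :
    S_BF := by
  classical
  intro b h H
  obtain ⟨c, C, C', y1, hc, hc', hC, hF⟩ := hFP b h H
  obtain ⟨y2, hN⟩ := hBFN b c C C' hc hc' hC
  refine ⟨c / 3, 2 * C, max y1 y2, by positivity, by positivity,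
    fun y hy m hm1 hm2 Ω _ P F c' t Z hL hcop hZ => ?_⟩
  obtain ⟨j, hj0, hj1, hG⟩ := hF y (le_of_max_le_left hy)
  obtain ⟨hby, hy0, n1, n2, n3⟩ := hN y (le_of_max_le_right hy)
  obtain ⟨hjm, n4, n5, n6, n7⟩ := n3 m j hm1 hm2 hj1
  have hm0 : 0 < m := by omega
  have hm : (0 : ℝ) < m := by exact_mod_cast hm0
  have hlam : 0 < (y : ℝ) ^ (-c) := rpow_pos_of_pos (by exact_mod_cast hy0) _
  have hmu : 0 < (y : ℝ) ^ (-(c / 3)) := rpow_pos_of_pos (by exact_mod_cast hy0) _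
  generalize (y : ℝ) ^ (-c) = lam at *
  generalize (y : ℝ) ^ (-(c / 3)) = mu at *
  have key : ∀ i u, ∃ G : Finset ℕ, i ∈ Icc j m →
      j * ((P.cv (fun ω => hi b m j i (F ω)) u).pr fun ω => lo b m j i (F ω) ∉ G) ≤ j * (1 / 100) +
        C * (h * j - (P.cv (fun ω => hi b m j i (F ω)) u).H fun ω => lo b m j i (F ω)) ∧
      (((Qy y).filter (Exc (P.cv (fun ω => hi b m j i (F ω)) u) (fun ω => lo b m j i (F ω)) G
        lam)).card : ℝ) ≤ √y := fun i u => by
    by_cases e : i ∈ Icc j m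
    · have e' := mem_Icc.1 e
      obtain ⟨G, hG'⟩ := hG Ω (P.cv (fun ω => hi b m j i (F ω)) u) (fun ω => lo b m j i (F ω))
        ((hL.fac (i := m - i) (j := j) (by omega)).cv _ _)
      exact ⟨G, fun _ => hG'⟩
    · exact ⟨∅, fun e' => absurd e' e⟩
  choose G hG' using key
  have g1 := hGT Ω P F b m j G h (1 / 100) C (by have := H.hb; omega) hj0 hjm H.pos.le
    (by norm_num) hC hL.lt fun i e u => (hG' i u e).1
  have g2 : ∑ q ∈ Qy y, (P.pr fun ω => Coll b q m (F ω)) ≤ (Qy y).card / 100 :=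
    BFc.sum_pr_le P _ (fun q ω => Coll b q m (F ω)) _ fun ω hω => by
      have := hCOLL b m (F ω) y H.hb hy0 (hL ω hω)
      refine le_of_mul_le_mul_right ?_ n7
      linarith
  have g3 : ∑ q ∈ Qy y, ∑ i ∈ Icc j m, (P.pr fun ω =>
      Exc (P.cv (fun x => hi b m j i (F x)) (hi b m j i (F ω)))
        (fun x => lo b m j i (F x)) (G i (hi b m j i (F ω))) lam q) ≤ m * √y := by
    rw [sum_comm]
    refine (sum_le_card_nsmul _ _ √y fun i e => BFc.sum_pr_le P _ (fun q ω =>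
      Exc (P.cv (fun x => hi b m j i (F x)) (hi b m j i (F ω)))
        (fun x => lo b m j i (F x)) (G i (hi b m j i (F ω))) lam q) _
          fun ω _ => (hG' i _ e).2).trans ?_
    rw [nsmul_eq_mul, Nat.card_Icc]
    gcongr
    omega
  have g4 : ∀ q ∈ Qy y, ind (q * mu ≤ (Z q).card) *
      (P.pr fun ω => q * mu < (few b q m (F ω) c' t (Z q)).card) ≤ _ := fun q hq => by
    refine le_trans ?_ (hBFQ Ω P F b m j q c' t G lam (400 * lam) (Z q) (mem_Qy.1 hq).2.2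
      (coprime_of_mem H.hb hby hq) (hcop q hq) (hZ q) hlam.le (by positivity) hj0 hm0)
    by_cases e : q * mu ≤ (Z q).card
    · rw [ind_pos e, one_mul]
      refine P.pr_mono fun ω _ e' => ?_
      have hq0 : (0 : ℝ) < q := by exact_mod_cast (mem_Qy.1 hq).2.2.pos
      calc 16 * (400 * lam) * (q : ℝ) ^ 2 = 6400 * lam * q ^ 2 := by ring
        _ ≤ mu * mu * q ^ 2 := by gcongr
        _ = q * mu * (q * mu) := by ring
        _ < _ := mul_lt_mul e' e (by positivity) (by positivity)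
    · rw [ind_neg e, zero_mul]
      exact P.pr_nonneg _
  have g5 := sum_le_sum g4
  rw [sum_add_distrib, sum_add_distrib, ← sum_div, sum_add_distrib, ← mul_sum, sum_const, sum_const,
    nsmul_eq_mul, nsmul_eq_mul] at g5
  have hQ : (0 : ℝ) ≤ (Qy y).card := Nat.cast_nonneg _
  generalize ((Qy y).card : ℝ) = N at *
  have g6 : ∀ e3 : ℝ, e3 ≤ m * √y →
      (N * (2 * m * j + m ^ 2 * lam) + 2 * m * e3) / (400 * lam * m ^ 2) ≤ 3 * N / 400 := by
    intro e3 g3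
    rw [div_le_iff₀ (by positivity)]
    have a1 : N * (m * (2 * j)) ≤ N * (m * (lam * m)) := by gcongr
    have a2 : m * e3 ≤ m * (m * √y) := by gcongr
    have a3 : (m : ℝ) ^ 2 * (2 * √y) ≤ m ^ 2 * (lam * N) := by gcongr
    linarith
  have g7 := mul_le_mul_of_nonneg_left
    (g5.trans (add_le_add (add_le_add le_rfl g2) (g6 _ g3))) hm.le
  have g8 := mul_le_mul_of_nonneg_left g1 hQ
  have g9 := mul_le_mul_of_nonneg_left n5 hQ
  have g10 := mul_nonneg hQ hm.le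
  linarith

end Pool.Agent.P.MP_7b3100_nt.DZ
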