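import Pool.Agent.P.MP_7b3100_nt.DZ.If

/-! Step BFA. -/

namespace Pool.Agent.P.MP_7b3100_nt.DZ

open Finset Real Pool.Agent.P.MP_bf60a1_an.RA
open Pool.Agent.P.MP_e94e4b_nt (ee)

theorem p_BFA (hHK : S_HK) :
    S_BFA := by
  classical
  intro b q m f c t Z I τ hq hb hc hZ hI hm hC m0 hτ hv
  have hY : (Z.image fun z => ((c * z + t : ℕ) : ZMod q)).card = Z.card := by
    refine card_image_of_injOn fun z hz z' hz' e => ?_
    have e1 := (ZMod.natCast_eq_natCast_iff _ _ _).1 e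
    exact Nat.ModEq.eq_of_lt_of_lt
      (Nat.ModEq.cancel_left_of_coprime hc.symm (Nat.ModEq.add_right_cancel' t e1))
      (mem_range.1 (hZ hz)) (mem_range.1 (hZ hz'))
  have q0 : (0 : ℝ) < q := by exact_mod_cast hq.pos
  have m1 : (0 : ℝ) < m := by exact_mod_cast m0
  have hm' : (m : ℝ) ≤ 2 * I.card := by exact_mod_cast hm
  rcases Nat.eq_zero_or_pos Z.card with z0 | z0
  · rw [z0, Nat.cast_zero, mul_zero]; positivity
  rw [var, hY, div_le_iff₀ q0] at hv
  obtain ⟨β, hβ⟩ : ∃ β : ℝ, β = Z.card / q := ⟨_, rfl⟩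
  have β0 : 0 < β := by rw [hβ]; positivity
  have hZβ : (Z.card : ℝ) = β * q := by rw [hβ]; field_simp
  rw [← hβ] at hv
  have h1 : ((few b q m f c t Z).card : ℝ) * (m * β / 4) ^ 2 ≤ τ * β * m ^ 2 * q := by
    refine le_trans ?_ ((sum_le_sum_of_subset_of_nonneg (filter_subset
      (fun d => (kil b q m f c (t + d) Z : ℝ) < m * Z.card / (4 * q)) _)
      fun _ _ _ => sq_nonneg _).trans hv)
    rw [← nsmul_eq_mul]
    refine card_nsmul_le_sum _ _ _ fun d hd => ?_
    have a1 := (mem_filter.1 hd).2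
    have a2 : ((hit (sig b q m f) I (Z.image fun z => ((c * z + t : ℕ) : ZMod q)) d : ℕ) : ℝ) ≤
        kil b q m f c (t + d) Z := by exact_mod_cast hHK b q m f c t d Z I hq hb hI hC
    have a3 : (m : ℝ) * Z.card / (4 * q) = m * β / 4 := by rw [hβ]; ring
    rw [← neg_sq (_ - _)]
    refine pow_le_pow_left₀ (by positivity) ?_ 2
    nlinarith
  have h2 : ((few b q m f c t Z).card : ℝ) * β ≤ 16 * τ * q := by
    refine le_of_mul_le_mul_right ?_ (show 0 < β * m ^ 2 / 16 by positivity)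
    linarith
  rw [hZβ]
  nlinarith

end Pool.Agent.P.MP_7b3100_nt.DZ
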