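import Pool.Agent.P.MP_7b3100_nt.DZ.If

/-! Step BFN. -/

namespace Pool.Agent.P.MP_7b3100_nt.DZ

open Finset Real Pool.Agent.P.MP_bf60a1_an.RA
open Pool.Agent.P.MP_e94e4b_nt (ee)

namespace BFNc

theorem big (e K : ℝ) (he : 0 < e) : ∀ᶠ y : ℕ in Filter.atTop, K ≤ (y : ℝ) ^ e :=
  ((tendsto_rpow_atTop he).comp tendsto_natCast_atTop_atTop).eventually_ge_atTop K

theorem lg (K : ℝ) (hK : 0 < K) :
    ∀ᶠ y : ℕ in Filter.atTop, K * log y ≤ (y : ℝ) ^ (1 / 20 : ℝ) := by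
  have h := (isLittleO_log_rpow_atTop (show (0 : ℝ) < 1 / 20 by norm_num)).bound (inv_pos.2 hK)
  filter_upwards [tendsto_natCast_atTop_atTop.eventually h] with y hy
  rw [norm_eq_abs, norm_eq_abs, abs_of_nonneg (show 0 ≤ (y : ℝ) ^ (1 / 20 : ℝ) by positivity),
    ← div_eq_inv_mul, le_div_iff₀ hK] at hy
  nlinarith [le_abs_self (log (y : ℝ))]

end BFNc

theorem p_BFN (hCHB : S_CHB) :
    S_BFN := by
  intro b c C C' hc hc1 hC
  obtain ⟨y1, h1⟩ := hCHB
  have hb : 0 ≤ log (b : ℝ) := log_natCast_nonneg b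
  refine Filter.eventually_atTop.1 ?_
  filter_upwards [Filter.eventually_ge_atTop y1, Filter.eventually_ge_atTop b,
    Filter.eventually_ge_atTop 2, BFNc.big (c / 3) 6400 (by positivity),
    BFNc.big (1 / 20) (100 + 200 * C * log b + 200 * log b) (by norm_num),
    BFNc.lg (1 + |C'|) (by positivity)] with y a1 a2 a3 a4 a5 a6
  obtain ⟨-, -, q1, -⟩ := h1 y a1
  have y2 : (2 : ℝ) ≤ y := by exact_mod_cast a3
  have y0 : (0 : ℝ) < y := by linarith
  have l0 : 0 < log (y : ℝ) := log_pos (by linarith)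
  have e20 : ((y : ℝ) ^ (1 / 20 : ℝ)) ^ 20 = y := by
    rw [one_div]; exact rpow_inv_natCast_pow y0.le (by norm_num : (20 : ℕ) ≠ 0)
  have t0 : 0 < (y : ℝ) ^ (-c) := by positivity
  have t1 : 1 ≤ (y : ℝ) ^ (-c) * (y : ℝ) ^ (1 / 20 : ℝ) := by
    rw [← rpow_add y0]; exact one_le_rpow (by linarith) (by linarith)
  have t2 : (y : ℝ) ^ (c / 3) * (y : ℝ) ^ (-c) = (y : ℝ) ^ (-(c / 3)) * (y : ℝ) ^ (-(c / 3)) := by
    rw [← rpow_add y0, ← rpow_add y0]; congr 1; ring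
  have t3 := mul_le_mul_of_nonneg_right a4 t0.le
  generalize (y : ℝ) ^ (1 / 20 : ℝ) = s at a5 a6 e20 t1
  have c1 : 0 ≤ C * log (b : ℝ) := mul_nonneg hC hb
  have s1 : 100 ≤ s := by linarith
  have s0 : 0 < s := by linarith
  have s2 : 1 ≤ s := by linarith
  have c2 : 0 ≤ |C'| * log (y : ℝ) := by positivity
  have l1 : log (y : ℝ) ≤ s := by linarith
  have hQ : (0 : ℝ) ≤ (Qy y).card := by positivity
  refine ⟨a2, by omega, t2 ▸ t3, ?_, fun m j m1 m2 hj => ?_⟩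
  · have r1 : √(y : ℝ) = s ^ 10 := by
      rw [← e20, show s ^ 20 = (s ^ 10) ^ 2 by ring, sqrt_sq (by positivity)]
    have r2 : s ^ 20 ≤ 2 * ((Qy y).card * s) := by
      have := mul_le_mul_of_nonneg_left l1 hQ
      linarith
    have r3 : 4 * s ^ 12 ≤ s ^ 20 := by
      have : s ≤ s ^ 8 := le_self_pow₀ s2 (by norm_num)
      have h12 : 0 < s ^ 12 := by positivity
      nlinarith
    have r4 := mul_le_mul_of_nonneg_right t1 (show 0 ≤ (Qy y).card * s by positivity)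
    rw [r1]
    refine le_of_mul_le_mul_right ?_ (show 0 < s ^ 2 by positivity)
    nlinarith
  · have m3 : s ^ 4 ≤ m := by
      refine le_of_pow_le_pow_left₀ (n := 5) (by norm_num) (by positivity) ?_
      rw [← pow_mul, e20]; exact_mod_cast m1
    have m4 : (m : ℝ) ≤ s ^ 5 := by
      refine le_of_pow_le_pow_left₀ (n := 4) (by norm_num) (by positivity) ?_
      rw [← pow_mul, e20]; exact_mod_cast m2
    have j1 : (j : ℝ) ≤ s := by
      have := mul_le_mul_of_nonneg_right (le_abs_self C') l0.le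
      linarith
    have j0 : (0 : ℝ) ≤ j := by positivity
    have p2 : s ^ 2 ≤ s ^ 4 := pow_le_pow_right₀ s2 (by norm_num)
    have p3 : 2 * s ^ 2 ≤ s ^ 4 := by nlinarith [sq_nonneg s, mul_pos s0 s0]
    refine ⟨?_, ?_, ?_, ?_, l0⟩
    · have : (j : ℝ) ≤ m := by nlinarith
      exact_mod_cast this
    · have r := mul_le_mul_of_nonneg_right t1 (show (0 : ℝ) ≤ m by positivity)
      refine le_of_mul_le_mul_right ?_ s0
      nlinarith
    · have r : (100 + 200 * (C * log (b : ℝ))) * j ≤ s * s :=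
        mul_le_mul (by linarith) j1 j0 s0.le
      nlinarith
    · have r1 : (m : ℝ) ^ 3 ≤ (s ^ 5) ^ 3 := pow_le_pow_left₀ (by positivity) m4 3
      have r2 : s ≤ s ^ 5 := le_self_pow₀ s2 (by norm_num)
      have r3 : (m : ℝ) ^ 3 * (200 * log (b : ℝ)) ≤ (s ^ 5) ^ 3 * s ^ 5 :=
        mul_le_mul r1 (by linarith) (by positivity) (by positivity)
      have r4 : (s ^ 5) ^ 3 * s ^ 5 = s ^ 20 := by ring
      linarith

end Pool.Agent.P.MP_7b3100_nt.DZ
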