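import Pool.Agent.P.MP_7b3100_nt.DZ.If

/-! Step BFQ. -/

namespace Pool.Agent.P.MP_7b3100_nt.DZ

open Finset Real Pool.Agent.P.MP_bf60a1_an.RA
open Pool.Agent.P.MP_e94e4b_nt (ee)

theorem p_BFQ (hEV : S_EV) (hBFA : S_BFA) :
    S_BFQ := by
  intro Ω _ P F b m j q c t G lam τ Z hq hb hc hZ hlam hτ hj hm
  set R : ℝ := 2 * m * j + m ^ 2 * lam + 2 * m * ∑ i ∈ Icc j m,
    P.pr fun ω => Exc (P.cv (fun x => hi b m j i (F x)) (hi b m j i (F ω)))
      (fun x => lo b m j i (F x)) (G i (hi b m j i (F ω))) lam q with hR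
  have hR0 : 0 ≤ R := by
    have : 0 ≤ ∑ i ∈ Icc j m,
        P.pr fun ω => Exc (P.cv (fun x => hi b m j i (F x)) (hi b m j i (F ω)))
          (fun x => lo b m j i (F x)) (G i (hi b m j i (F ω))) lam q :=
      sum_nonneg fun i _ => P.pr_nonneg _
    positivity
  have hq0 : (0 : ℝ) < q := by exact_mod_cast hq.pos
  have hm0 : (0 : ℝ) < m := by exact_mod_cast hm
  rcases Z.eq_empty_or_nonempty with rfl | hZ0
  · rw [P.pr_eq_zero fun ω _ => by simp only [card_empty, Nat.cast_zero, mul_zero, not_lt]; positivity]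
    exact add_nonneg (add_nonneg (P.pr_nonneg _) (P.pr_nonneg _)) (by positivity)
  have hZ1 : (0 : ℝ) < Z.card := by exact_mod_cast hZ0.card_pos
  set Y := Z.image fun z => ((c * z + t : ℕ) : ZMod q) with hY
  have hYZ : (Y.card : ℝ) ≤ Z.card := by exact_mod_cast card_image_le
  have h1 := hEV Ω P F b m j q G lam Y hq hb hlam hj
  have h2 := P.markov (f := fun ω => var (sig b q m (F ω)) (gd b m j G (F ω)) Y)
    (c := τ * (Z.card / q) * m ^ 2)
    (fun ω _ => div_nonneg (sum_nonneg fun _ _ => sq_nonneg _) hq0.le) (by positivity)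
  have h3 : (P.E fun ω => var (sig b q m (F ω)) (gd b m j G (F ω)) Y) /
      (τ * (Z.card / q) * m ^ 2) ≤ R / (τ * m ^ 2) := by
    rw [div_le_iff₀ (by positivity)]
    refine h1.trans ?_
    have e : R / (τ * m ^ 2) * (τ * (Z.card / q) * m ^ 2) = Z.card / q * R := by field_simp
    rw [e]
    gcongr
  refine le_trans (P.pr_mono (t := fun ω => (2 * (gd b m j G (F ω)).card < m ∨
    Coll b q m (F ω)) ∨ τ * (Z.card / q) * m ^ 2 ≤
      var (sig b q m (F ω)) (gd b m j G (F ω)) Y) fun ω _ h => ?_)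
    ((P.pr_or_le _ _).trans (add_le_add (P.pr_or_le _ _) (h2.trans h3)))
  by_contra h4
  push Not at h4
  refine h.not_ge (hBFA b q m (F ω) c t Z (gd b m j G (F ω)) τ hq hb hc hZ (fun i hi => ?_)
    h4.1.1 h4.1.2 hm hτ.le h4.2.le)
  have := mem_Icc.1 (mem_filter.1 hi).1
  exact mem_Icc.2 ⟨by omega, this.2⟩

end Pool.Agent.P.MP_7b3100_nt.DZ
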