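import Pool.Agent.P.MP_7b3100_nt.DZ.If

/-! Step BIN. -/

namespace Pool.Agent.P.MP_7b3100_nt.DZ

open Finset Real Pool.Agent.P.MP_bf60a1_an.RA
open Pool.Agent.P.MP_e94e4b_nt (ee)

namespace BINc

theorem geo (n : ℕ) : ((6 : ℝ) / 5) ^ n * (3 / 4) ^ n ≤ 9 / √((n : ℝ) + 1) := by
  have h0 : (0 : ℝ) ≤ n := n.cast_nonneg
  have h1 : (1 : ℝ) + n * (1 / 9) ≤ (1 + 1 / 9) ^ n := one_add_mul_le_pow (by norm_num) n
  have h2 : √((n : ℝ) + 1) ≤ n + 1 := by
    rw [sqrt_le_left (by positivity)]; nlinarith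
  have h3 : ((6 : ℝ) / 5) ^ n * (3 / 4) ^ n * (1 + 1 / 9) ^ n = 1 := by
    rw [← mul_pow, ← mul_pow]; norm_num
  have h4 : (0 : ℝ) ≤ ((6 : ℝ) / 5) ^ n * (3 / 4) ^ n := by positivity
  rw [le_div_iff₀ (by positivity)]
  nlinarith [mul_le_mul_of_nonneg_left h1 h4, mul_le_mul_of_nonneg_left h2 h4]

theorem pt (n N : ℕ) (x : ℝ) (hx : (1 / 2 : ℝ) ^ N ≤ x) :
    1 / √((N : ℝ) + 1) ≤ 3 / √((n : ℝ) + 1) + (6 / 5) ^ n * x := by
  have hx0 : 0 ≤ x := le_trans (by positivity) hx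
  have hN : (0 : ℝ) ≤ N := N.cast_nonneg
  rcases le_or_gt n (8 * N) with c | c
  · have hc : (n : ℝ) ≤ 8 * N := by exact_mod_cast c
    refine le_add_of_le_of_nonneg ?_ (by positivity)
    rw [div_le_div_iff₀ (by positivity) (by positivity), one_mul,
      show (3 : ℝ) = √9 by rw [show (9 : ℝ) = 3 ^ 2 by norm_num, sqrt_sq (by norm_num)],
      ← sqrt_mul (by norm_num)]
    exact sqrt_le_sqrt (by linarith)
  · refine le_add_of_nonneg_of_le (by positivity) ?_
    have h1 : 1 / √((N : ℝ) + 1) ≤ 1 := by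
      rw [div_le_one (by positivity)]; exact one_le_sqrt.2 (by linarith)
    have h2 : ((6 : ℝ) / 5) ^ (8 * N) ≤ (6 / 5) ^ n := pow_le_pow_right₀ (by norm_num) c.le
    have h3 : (1 : ℝ) ≤ ((6 : ℝ) / 5) ^ (8 * N) * (1 / 2) ^ N := by
      rw [pow_mul, ← mul_pow]; exact one_le_pow₀ (by norm_num)
    exact h1.trans (h3.trans (mul_le_mul h2 hx (by positivity) (by positivity)))

end BINc

open BINc in
theorem p_BIN :
    S_BIN := by
  classical
  refine ⟨12, by norm_num, fun Ω _ k P s I hI => ?_⟩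
  set f : Fin k → Ω → ℝ := fun i x => if i ∈ I then 1 - ind (s i x) / 2 else 1 with hf
  have h1 : ((pis P).E fun ω => ∏ i, f i (ω i)) ≤ (3 / 4) ^ I.card := by
    rw [E_pis_prod]
    have : ∏ i, (if i ∈ I then (3 / 4 : ℝ) else 1) = (3 / 4) ^ I.card := by
      rw [prod_ite_mem, univ_inter, prod_const]
    rw [← this]
    refine prod_le_prod (fun i _ => (P i).E_nonneg fun x _ => ?_) fun i _ => ?_
    · simp only [hf]; split_ifs
      · linarith [ind_le_one (s i x)]
      · norm_num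
    · by_cases hi : i ∈ I
      · simp only [hf, hi, if_true]
        rw [FP.E_sub, FP.E_const, FP.E_div]
        have := hI i hi
        rw [FP.pr] at this
        linarith
      · simp only [hf, hi, if_false]; rw [FP.E_const]
  refine le_trans ((pis P).E_mono (g := fun ω => 3 / √((I.card : ℝ) + 1) +
    (6 / 5) ^ I.card * ∏ i, f i (ω i)) fun ω _ => pt _ _ _ ?_) ?_
  · rw [← prod_const, prod_filter]
    refine prod_le_prod (fun i _ => by split_ifs <;> norm_num) fun i _ => ?_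
    simp only [hf]
    by_cases h : s i (ω i)
    · rw [if_pos h, ind_pos h]; split_ifs <;> norm_num
    · rw [if_neg h, ind_neg h]; split_ifs <;> norm_num
  · rw [FP.E_add, FP.E_const, FP.E_mul_left]
    have h2 := (mul_le_mul_of_nonneg_left h1
      (show (0 : ℝ) ≤ (6 / 5) ^ I.card by positivity)).trans (geo I.card)
    rw [show (12 : ℝ) = 3 + 9 by norm_num, add_div]
    linarith

end Pool.Agent.P.MP_7b3100_nt.DZ
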