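import Pool.Agent.P.MP_7b3100_nt.DZ.If

/-! Step CB. -/

namespace Pool.Agent.P.MP_7b3100_nt.DZ

open Finset Real Pool.Agent.P.MP_bf60a1_an.RA
open Pool.Agent.P.MP_e94e4b_nt (ee)

namespace CBc

theorem cb (m : ℕ) : m.centralBinom ^ 2 * (2 * m + 1) ≤ 16 ^ m := by
  induction m with
  | zero => simp
  | succ m ih =>
    have h := Nat.succ_mul_centralBinom_succ m
    refine Nat.le_of_mul_le_mul_left (c := (m + 1) ^ 2) ?_ (by positivity)
    calc (m + 1) ^ 2 * ((m + 1).centralBinom ^ 2 * (2 * (m + 1) + 1))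
        = ((m + 1) * (m + 1).centralBinom) ^ 2 * (2 * m + 3) := by ring
      _ = 4 * ((2 * m + 1) * (2 * m + 3)) * (m.centralBinom ^ 2 * (2 * m + 1)) := by
        rw [h]; ring
      _ ≤ 4 * (4 * (m + 1) ^ 2) * 16 ^ m :=
        Nat.mul_le_mul (Nat.mul_le_mul_left _ (by nlinarith)) ih
      _ = (m + 1) ^ 2 * 16 ^ (m + 1) := by ring

theorem sq (n : ℕ) : n.choose (n / 2) ^ 2 * (n + 1) ≤ (2 ^ n) ^ 2 := by
  obtain ⟨m, rfl | rfl⟩ := Nat.even_or_odd' n
  · have e : (2 ^ (2 * m)) ^ 2 = 16 ^ m := by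
      rw [← pow_mul, show 16 = 2 ^ 4 from rfl, ← pow_mul]; congr 1; ring
    rw [e, show 2 * m / 2 = m by omega]
    exact cb m
  · have e : 4 * (2 ^ (2 * m + 1)) ^ 2 = 16 ^ (m + 1) := by
      rw [← pow_mul, show 16 = 2 ^ 4 from rfl, ← pow_mul, show 4 * (m + 1) = 2 + (2 * m + 1) * 2 by
        ring, pow_add]
      rfl
    have h := cb (m + 1)
    have e2 : (m + 1).centralBinom = 2 * (2 * m + 1).choose m := by
      rw [Nat.centralBinom_eq_two_mul_choose, show 2 * (m + 1) = 2 * m + 1 + 1 by ring,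
        Nat.choose_succ_succ', Nat.choose_symm_half]
      ring
    rw [e2, ← e] at h
    rw [show (2 * m + 1) / 2 = m by omega]
    nlinarith [sq_nonneg ((2 * m + 1).choose m)]

end CBc

theorem p_CB :
    S_CB := by
  intro n
  have h0 : (0 : ℝ) < n + 1 := by positivity
  rw [le_div_iff₀ (Real.sqrt_pos.2 h0)]
  refine (sq_le_sq₀ (by positivity) (by positivity)).1 ?_
  rw [mul_pow, Real.sq_sqrt h0.le]
  exact_mod_cast CBc.sq n

end Pool.Agent.P.MP_7b3100_nt.DZ
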