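import Pool.Agent.P.MP_7b3100_nt.DZ.If

/-! Step CHAIN. -/

namespace Pool.Agent.P.MP_7b3100_nt.DZ

open Finset Real Pool.Agent.P.MP_bf60a1_an.RA
open Pool.Agent.P.MP_e94e4b_nt (ee)

namespace CHAINc

theorem key {b J H : ℕ} {Q : Finset ℕ} {a : ℝ}
    (hs : ∀ (Ω : Type) [Fintype Ω] (P : FP Ω) (Y : Ω → ℕ × ℕ) (R K Z : Ω → ℕ), InL P R b J →
      InL P K b H → P.Det Y Z → (∀ ω, 0 < P.p ω → ∀ q ∈ Q, Surv b q H (K ω) (Z ω + R ω)) →
      P.Hc (fun ω => (R ω, K ω)) Y ≤ a)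
    {Ω : Type} [Fintype Ω] (P : FP Ω) (Z0 : Ω → ℕ) (M : ℕ) : ∀ W : Ω → ℕ,
    InL P W b ((J + H) * M) → (∀ ω, 0 < P.p ω → ∀ q ∈ Q, Surv b q ((J + H) * M) (W ω) (Z0 ω)) →
    P.Hc W Z0 ≤ M * a := by
  induction M with
  | zero =>
    intro W hW _
    refine (P.Hc_nonpos fun ω ω' h1 h2 _ => ?_).trans (by simp)
    have e1 := hW.lt ω h1
    have e2 := hW.lt ω' h2
    simp only [mul_zero, pow_zero] at e1 e2
    omega
  | succ M ih =>
    intro W hW hS
    rw [mul_add_one] at hW hS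
    have h1 := ih (fun ω => W ω / b ^ (J + H)) hW.div fun ω hω q hq => (hS ω hω q hq).div
    have h2 := P.Hc_le_add W (fun ω => W ω / b ^ (J + H)) Z0
    have h3 := hs Ω P (fun ω => (W ω / b ^ (J + H), Z0 ω))
      (fun ω => W ω % b ^ (J + H) / b ^ H) (fun ω => W ω % b ^ (J + H) % b ^ H)
      (fun ω => b ^ J * (b ^ ((J + H) * M) * Z0 ω + W ω / b ^ (J + H))) hW.mod.div hW.mod.mod
      (fun ω ω' _ _ e => by
        simp only [Prod.mk.injEq] at e
        simp only [e.1, e.2])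
      fun ω hω q hq => (hS ω hω q hq).mod.mod
    have h4 : P.Hc W (fun ω => (W ω / b ^ (J + H), Z0 ω)) ≤
        P.Hc (fun ω => (W ω % b ^ (J + H) / b ^ H, W ω % b ^ (J + H) % b ^ H))
          fun ω => (W ω / b ^ (J + H), Z0 ω) := by
      refine P.Hc_mono_left fun ω ω' _ _ e => ?_
      simp only [Prod.mk.injEq] at e
      rw [← Nat.div_add_mod (W ω) (b ^ (J + H)), ← Nat.div_add_mod (W ω') (b ^ (J + H)),
        ← Nat.div_add_mod (W ω % b ^ (J + H)) (b ^ H),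
        ← Nat.div_add_mod (W ω' % b ^ (J + H)) (b ^ H), e.1.1, e.1.2, e.2.1]
    push_cast
    linarith

end CHAINc

theorem p_CHAIN (hZEX : S_ZEX) :
    S_CHAIN := by
  intro b J H M Q a hb hQ hs
  have hne := lang_nonempty hb ((J + H) * M)
  choose Z0 hZ hZ' using fun w : Lang b ((J + H) * M) => hZEX b _ w.1 Q hQ w.2
  have h1 := CHAINc.key hs (unifOn _ hne) Z0 M (fun w => w.1) (fun w _ => w.2)
    fun w _ => hZ' w
  have h2 := (unifOn _ hne).H_le_add (fun w => w.1) Z0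
  have h3 := H_le_of_lt (unifOn _ hne) (X := Z0) fun w _ => hZ w
  rw [H_unifOn] at h2
  rw [Nat.cast_prod, log_prod fun q hq => by exact_mod_cast (hQ q hq).1.ne_zero] at h3
  unfold lp
  linarith

end Pool.Agent.P.MP_7b3100_nt.DZ
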