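import Pool.Agent.P.MP_7b3100_nt.DZ.If

/-! Step CHB. -/

namespace Pool.Agent.P.MP_7b3100_nt.DZ

open Finset Real Pool.Agent.P.MP_bf60a1_an.RA
open Pool.Agent.P.MP_e94e4b_nt (ee)

namespace CHBc

lemma sum_eq (y : ℕ) :
    ∑ q ∈ Qy y, log q = Chebyshev.theta ((4 * y : ℕ) : ℝ) - Chebyshev.theta (y : ℝ) := by
  unfold Chebyshev.theta Qy
  rw [Nat.floor_natCast, Nat.floor_natCast, sum_filter, sum_filter, sum_filter,
    ← sum_Ioc_consecutive _ (Nat.zero_le y) (by omega : y ≤ 4 * y)]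
  ring

lemma err {x : ℝ} (hx : 10 ^ 8 ≤ x) : log (x + 1) + 2 * √x * log x ≤ 0.095 * x := by
  have h0 : 0 < x := by linarith
  obtain ⟨t, ht, rfl⟩ : ∃ t : ℝ, 100 ≤ t ∧ x = t ^ 4 := by
    refine ⟨√(√x), Real.le_sqrt_of_sq_le (Real.le_sqrt_of_sq_le (by linarith)), ?_⟩
    rw [show (4 : ℕ) = 2 * 2 from rfl, pow_mul, sq_sqrt (sqrt_nonneg _), sq_sqrt h0.le]
  have t0 : 0 < t := by linarith
  have h1 : log (t ^ 4) ≤ 4 * t := by
    rw [log_pow]
    have := log_le_sub_one_of_pos t0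
    push_cast
    linarith
  have h2 : log (t ^ 4 + 1) ≤ log (t ^ 4) + 1 := by
    have a : log (t ^ 4 + 1) ≤ log (2 * t ^ 4) := log_le_log (by positivity) (by linarith)
    rw [log_mul (by norm_num) h0.ne'] at a
    have := log_two_lt_d9
    linarith
  have h3 : √(t ^ 4) = t ^ 2 := by
    rw [show t ^ 4 = (t ^ 2) ^ 2 by ring, sqrt_sq (by positivity)]
  rw [h3]
  have h4 : 2 * t ^ 2 * log (t ^ 4) ≤ 2 * t ^ 2 * (4 * t) := by gcongr
  have h5 : 100 * t ^ 3 ≤ t ^ 4 := by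
    rw [show t ^ 4 = t * t ^ 3 by ring]; gcongr
  have h6 : 100 * t ≤ t ^ 3 := by
    have : 100 ≤ t ^ 2 := by nlinarith
    rw [show t ^ 3 = t ^ 2 * t by ring]; gcongr
  nlinarith

end CHBc

theorem p_CHB :
    S_CHB := by
  refine ⟨10 ^ 8, fun y hy => ?_⟩
  have hy' : (10 : ℝ) ^ 8 ≤ y := by exact_mod_cast hy
  have l4 : log 4 = 2 * log 2 := by
    rw [show (4 : ℝ) = 2 ^ 2 by norm_num, log_pow]; norm_num
  have a1 := log_two_gt_d9
  have a2 := log_two_lt_d9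
  have b1 := Chebyshev.theta_ge (4 * y)
  have b2 := Chebyshev.theta_le_log4_mul_x (x := y) (by positivity)
  have b3 := Chebyshev.theta_le_log4_mul_x (x := ((4 * y : ℕ) : ℝ)) (by positivity)
  have b4 := Chebyshev.theta_nonneg (y : ℝ)
  have b5 := CHBc.err (x := ((4 * y : ℕ) : ℝ)) (by push_cast; linarith)
  have e := CHBc.sum_eq y
  have c : ((4 * y : ℕ) : ℝ) = 4 * y := by push_cast; ring
  have lo : (y : ℝ) ≤ ∑ q ∈ Qy y, log q := by
    rw [e]
    rw [l4] at b2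
    generalize Chebyshev.theta ((4 * y : ℕ) : ℝ) = A at *
    rw [c] at b1 b5
    nlinarith
  have up : ∑ q ∈ Qy y, log q ≤ 6 * y := by
    rw [e]
    rw [l4] at b3
    generalize Chebyshev.theta ((4 * y : ℕ) : ℝ) = A at *
    rw [c] at b3
    nlinarith
  have y0 : (0 : ℝ) < y := by linarith
  refine ⟨lo, up, lo.trans ?_, le_trans ?_ up⟩
  · rw [mul_left_comm, ← nsmul_eq_mul]
    refine sum_le_card_nsmul _ _ _ fun q hq => ?_
    have h := mem_Ioc.1 (mem_filter.1 hq).1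
    have h1 : (y : ℝ) < q := by exact_mod_cast h.1
    have h2 : (q : ℝ) ≤ 4 * y := by exact_mod_cast h.2
    have : log (q : ℝ) ≤ log ((y : ℝ) ^ 2) := log_le_log (by linarith) (by nlinarith)
    rw [log_pow] at this
    exact_mod_cast this
  · rw [← nsmul_eq_mul]
    refine card_nsmul_le_sum _ _ _ fun q hq => ?_
    have h := mem_Ioc.1 (mem_filter.1 hq).1
    exact log_le_log y0 (by exact_mod_cast h.1.le)

end Pool.Agent.P.MP_7b3100_nt.DZ
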