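import Pool.Agent.P.MP_7b3100_nt.DZ.If

/-! Step CHK. -/

namespace Pool.Agent.P.MP_7b3100_nt.DZ

open Finset Real Pool.Agent.P.MP_bf60a1_an.RA
open Pool.Agent.P.MP_e94e4b_nt (ee)

namespace CHKc

theorem one_term (s : Prop) (m N : ℕ) (h : s → m < N) (g : ℕ → ℂ) :
    ∑ x ∈ range N, ((ind (s ∧ m = x) : ℝ) : ℂ) * g x = (ind s : ℝ) * g m := by
  by_cases hs : s
  · rw [sum_eq_single m]
    · rw [ind_pos ⟨hs, rfl⟩, ind_pos hs]
    · intro b _ hb; rw [ind_neg fun e => hb e.2.symm]; simp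
    · intro e; exact absurd (mem_range.2 (h hs)) e
  · rw [ind_neg hs]
    simp only [ind_neg fun e : s ∧ _ => hs e.1]
    simp

theorem sum_le (s : Prop) (m N : ℕ) : ∑ x ∈ range N, ind (s ∧ m = x) ≤ 1 := by
  refine (sum_le_sum fun x _ => ind_mono fun e : s ∧ m = x => e.2).trans ?_
  by_cases h : m ∈ range N
  · simpa using (sum_ind_eq (range N) (fun _ => 1) h).le
  · rw [sum_eq_zero fun x hx => ind_neg fun (e : m = x) => h (e ▸ hx)]
    exact zero_le_one

end CHKc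

theorem p_CHK :
    S_CHK := by
  intro Ω _ P X G k W N hk hG hN
  have hlt : ∀ ω : Fin k → Ω, (∀ i, X (ω i) ∈ G) → ∑ i, X (ω i) < N := fun ω h => by
    have : Nonempty (Fin k) := ⟨⟨0, hk⟩⟩
    refine lt_of_lt_of_le (sum_lt_sum_of_nonempty univ_nonempty fun i _ => hG _ (h i)) ?_
    simpa using hN
  refine ⟨fun θ => ?_, ?_⟩
  · classical
    have e1 : ch P X G θ ^ k = ∏ _i : Fin k, ch P X G θ := by simp
    rw [e1, ch, prod_univ_sum, Fintype.piFinset_univ]
    simp only [cv, FP.pr, FP.E, Complex.ofReal_sum, sum_mul]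
    rw [sum_comm]
    refine sum_congr rfl fun ω _ => ?_
    simp only [Complex.ofReal_mul, mul_assoc, ← mul_sum]
    rw [CHKc.one_term _ _ _ (hlt ω) fun x => ee (x * θ), ind_all, prod_mul_distrib,
      prod_mul_distrib, ← Pool.Agent.P.MP_e94e4b_nt.ee_sum, ← sum_mul]
    simp [FP.pi]
  · simp only [cv, FP.pr]
    rw [← FP.E_sum]
    exact FP.E_le _ fun ω _ => CHKc.sum_le _ _ _

end Pool.Agent.P.MP_7b3100_nt.DZ
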