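import Pool.Agent.P.MP_7b3100_nt.DZ.If

/-! Step CM. -/

namespace Pool.Agent.P.MP_7b3100_nt.DZ

open Finset Real Pool.Agent.P.MP_bf60a1_an.RA
open Pool.Agent.P.MP_e94e4b_nt (ee)

namespace CMc

variable {Ω : Type} [Fintype Ω] (P : FP Ω) (X : Ω → ℕ) {W : ℕ}

theorem split (_hW : 0 < W) {ω : Ω} (hω : 0 < P.p ω) :
    cm P X W ω = ((X ω / W : ℕ) : ℝ) * W +
      (P.cv (fun x => X x / W) (X ω / W)).E fun x => ((X x % W : ℕ) : ℝ) := by
  unfold cm
  rw [← (P.cv (fun x => X x / W) (X ω / W)).E_const (((X ω / W : ℕ) : ℝ) * W), ← FP.E_add]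
  refine FP.E_congr _ fun x hx => ?_
  have h : X x / W = X ω / W := P.cv_eq (V := fun x => X x / W) hω hx
  rw [← h]
  have h2 : X x / W * W + X x % W = X x := Nat.div_add_mod' _ _
  exact_mod_cast h2.symm

theorem lo (hW : 0 < W) {ω : Ω} (hω : 0 < P.p ω) : ((X ω / W : ℕ) : ℝ) * W ≤ cm P X W ω := by
  rw [split P X hW hω]
  have := (P.cv (fun x => X x / W) (X ω / W)).E_nonneg (f := fun x => ((X x % W : ℕ) : ℝ))
    fun _ _ => Nat.cast_nonneg _
  linarith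

theorem up (hW : 0 < W) {ω : Ω} (hω : 0 < P.p ω) : cm P X W ω < ((X ω / W : ℕ) + 1) * W := by
  rw [split P X hW hω]
  have := (P.cv (fun x => X x / W) (X ω / W)).E_le (f := fun x => ((X x % W : ℕ) : ℝ))
    (c := (W : ℝ) - 1) fun x _ => by
      have h : X x % W + 1 ≤ W := Nat.mod_lt _ hW
      have h' : ((X x % W : ℕ) : ℝ) + 1 ≤ W := by exact_mod_cast h
      linarith
  linarith

theorem gap (hW : 0 < W) {D : ℕ} (hD : 0 < D) {ω ω' : Ω} (hω : 0 < P.p ω) (hω' : 0 < P.p ω')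
    (h : X ω / W / D + 2 ≤ X ω' / W / D) : (W : ℝ) * D < cm P X W ω' - cm P X W ω := by
  have h1 := up P X hW hω
  have h2 := lo P X hW hω'
  have h3 : X ω / W + 1 ≤ (X ω / W / D + 1) * D := by
    have := Nat.lt_div_mul_add (a := X ω / W) hD
    rw [add_mul, one_mul]; omega
  have h4 : (X ω / W / D + 2) * D ≤ X ω' / W :=
    le_trans (Nat.mul_le_mul_right _ h) (Nat.div_mul_le_self _ _)
  have h5 : X ω / W + 1 + D ≤ X ω' / W := by nlinarith
  have h6 : ((X ω / W : ℕ) : ℝ) + 1 + D ≤ (X ω' / W : ℕ) := by exact_mod_cast h5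
  have hW' : (0 : ℝ) < W := by exact_mod_cast hW
  nlinarith

end CMc

theorem p_CM :
    S_CM := by
  intro Ω _ P X W D hW hD
  refine ⟨P.tower (fun x => X x / W) fun _ x => (X x : ℝ), fun ω hω =>
    ⟨CMc.lo P X hW hω, CMc.up P X hW hω, CMc.split P X hW hω⟩, fun h => ?_⟩
  refine le_trans h (FP.pr_mono _ fun z hz hs => ?_)
  obtain ⟨h1, h2⟩ := FP.prod_pos _ hz
  rcases hs with hs | hs
  · rw [abs_sub_comm]
    exact lt_of_lt_of_le (CMc.gap P X hW hD h1 h2 hs) (le_abs_self _)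
  · exact lt_of_lt_of_le (CMc.gap P X hW hD h2 h1 hs) (le_abs_self _)

end Pool.Agent.P.MP_7b3100_nt.DZ
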