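import Pool.Agent.P.MP_7b3100_nt.DZ.If

/-! Step CNT. -/

namespace Pool.Agent.P.MP_7b3100_nt.DZ

open Finset Real Pool.Agent.P.MP_bf60a1_an.RA
open Pool.Agent.P.MP_e94e4b_nt (ee)

theorem CNTc.inj (hEMB : S_EMB) {b l t : ℕ} (hb : 2 ≤ b) (h : l < b ^ t) :
    (PW b (t + 1 + l)).card ≤ b ^ (t + 1) * (Lang b l).card := by
  classical
  rw [← card_range (b ^ (t + 1)), ← card_product]
  refine card_le_card_of_injOn (fun w => (w / b ^ l, w % b ^ l)) (fun w hw => ?_) fun w _ w' _ e => ?_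
  · obtain ⟨h1, x, hx⟩ := mem_filter.1 (mem_coe.1 hw)
    have h2 : w / b ^ l < b ^ (t + 1) :=
      Nat.div_lt_of_lt_mul (by rw [← pow_add, add_comm]; exact mem_range.1 h1)
    refine mem_coe.2 (mem_product.2 ⟨mem_range.2 h2, hEMB b l _
      ((b : ℤ) ^ (t + 1) * x + (w / b ^ l : ℕ)) hb (Nat.mod_lt _ (by positivity)) ?_
        fun i i1 i2 => ?_⟩)
    · have h3 := (hx 1 le_rfl (by omega)).two_le
      rw [show t + 1 + l - 1 = l + t by omega, pow_add, ← Nat.div_div_eq_div_mul, pow_one] at h3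
      have h4 : ((w / b ^ l : ℕ) : ℤ) =
          b ^ t * (w / b ^ l / b ^ t : ℕ) + (w / b ^ l % b ^ t : ℕ) := by
        exact_mod_cast (Nat.div_add_mod _ _).symm
      have h5 : ((w / b ^ l % b ^ t : ℕ) : ℤ) < b ^ t := by
        exact_mod_cast Nat.mod_lt _ (by positivity)
      have h6 : (l : ℤ) < b ^ t := mod_cast h
      have h7 : (0 : ℤ) ≤ (w / b ^ l % b ^ t : ℕ) := Int.natCast_nonneg _
      rw [h4, pow_succ, mul_assoc, ← add_assoc, ← mul_add]
      generalize (b : ℤ) * x + (w / b ^ l / b ^ t : ℕ) = y at h3 ⊢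
      generalize ((w / b ^ l % b ^ t : ℕ) : ℤ) = u at *
      generalize (b : ℤ) ^ t = B at *
      rcases (show 2 ≤ y ∨ y ≤ -2 by omega) with c | c
      · have : B * 2 ≤ B * y := mul_le_mul_of_nonneg_left c (by omega)
        omega
      · have : B * y ≤ B * -2 := mul_le_mul_of_nonneg_left c (by omega)
        omega
    · have h3 := hx (t + 1 + i) (by omega) (by omega)
      have h4 := congrArg (Nat.cast : ℕ → ℤ) (cut_eq b 0 w (n := t + 1) i2)
      simp only [mul_zero, zero_add, Nat.cast_add, Nat.cast_mul, Nat.cast_pow] at h4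
      rwa [← h4, ← add_assoc, pow_add, mul_comm ((b : ℤ) ^ (t + 1)), mul_assoc, ← mul_add] at h3
  · simp only [Prod.mk.injEq] at e
    rw [← Nat.div_add_mod w (b ^ l), ← Nat.div_add_mod w' (b ^ l), e.1, e.2]

theorem p_CNT (hEMB : S_EMB) :
    S_CNT := by
  intro b hb h ε hε
  obtain ⟨C, hC⟩ : ∃ C : ℝ, ∀ n : ℕ, lp b n ≤ ε / 3 * n + C := by
    obtain ⟨n0, h0⟩ := h (ε / 3) (by positivity)
    have hl : 0 ≤ log b := log_natCast_nonneg b
    refine ⟨n0 * log b, fun n => ?_⟩
    rcases le_or_gt n0 n with c | c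
    · exact (h0 n c).trans (le_add_of_nonneg_right (by positivity))
    · refine (lp_le hb n).trans (le_add_of_nonneg_of_le (by positivity) ?_)
      gcongr
  have b1 : (1 : ℝ) < b := mod_cast hb
  obtain ⟨l0, h0⟩ := Filter.eventually_atTop.1
    (((isLittleO_log_id_atTop.bound (show 0 < ε / 3 by positivity)).and
      (Filter.eventually_ge_atTop ((C + 2 * log b) / (ε / 3)))).natCast_atTop)
  refine ⟨max l0 5, fun l hl => ?_⟩
  obtain ⟨h1, h2⟩ := h0 l ((le_max_left _ _).trans hl)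
  have l5 : 5 ≤ l := (le_max_right _ _).trans hl
  have l0' : (0 : ℝ) < l := mod_cast (by omega : 0 < l)
  have h3 : b ^ Nat.log b l ≤ l := Nat.pow_log_le_self b (by omega)
  have h4 : Nat.log b l + 2 ≤ l := by
    by_contra hn
    obtain ⟨k, rfl⟩ := Nat.exists_eq_add_of_le' l5
    have a : 2 ^ (k + 4) ≤ b ^ Nat.log b (k + 5) :=
      (Nat.pow_le_pow_right two_pos (by omega)).trans (Nat.pow_le_pow_left hb _)
    have := k.lt_two_pow_self
    rw [pow_add] at a
    omega
  obtain ⟨r, hr⟩ := Nat.exists_eq_add_of_le h4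
  have h5 := CNTc.inj hEMB hb (l := r) (t := Nat.log b l + 1)
    (lt_of_le_of_lt (by omega) (Nat.lt_pow_succ_log_self hb l))
  rw [show Nat.log b l + 1 + 1 + r = l by omega] at h5
  have h6 : ((Lang b r).card : ℝ) = exp (lp b r) :=
    (exp_log (mod_cast (lang_nonempty hb r).card_pos)).symm
  have h7 : ((PW b l).card : ℝ) ≤ l * b ^ 2 * (Lang b r).card := by
    exact_mod_cast h5.trans (Nat.mul_le_mul_right _ (by
      rw [add_assoc, pow_add]; exact Nat.mul_le_mul_right _ h3))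
  rw [h6, ← exp_log l0', ← exp_log (show (0 : ℝ) < b ^ 2 by positivity), ← exp_add, ← exp_add,
    log_pow] at h7
  refine h7.trans (exp_le_exp.2 ?_)
  have h8 := hC r
  have h9 : (r : ℝ) ≤ l := mod_cast (by omega : r ≤ l)
  rw [id, norm_of_nonneg l0'.le] at h1
  rw [div_le_iff₀ (by positivity)] at h2
  have := (le_abs_self _).trans h1
  push_cast
  nlinarith

end Pool.Agent.P.MP_7b3100_nt.DZ
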