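import Pool.Agent.P.MP_7b3100_nt.DZ.If

/-! Step COLL. -/

namespace Pool.Agent.P.MP_7b3100_nt.DZ

open Finset Real Pool.Agent.P.MP_bf60a1_an.RA
open Pool.Agent.P.MP_e94e4b_nt (ee)

namespace COLLc

theorem few_primes {b m y v : ℕ} (hy : 0 < y) (h0 : 0 < v) (hv : v ≤ b ^ m) :
    (((Qy y).filter fun q => q ∣ v).card : ℝ) * log y ≤ m * log b := by
  have h1 : ∏ q ∈ (Qy y).filter fun q => q ∣ v, q ∣ v :=
    Finset.prod_primes_dvd v (fun q hq => (mem_Qy.1 (mem_filter.1 hq).1).2.2.prime)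
      fun q hq => (mem_filter.1 hq).2
  have h2 := pow_card_le_prod ((Qy y).filter fun q => q ∣ v) (fun q => q) y
    fun q hq => (mem_Qy.1 (mem_filter.1 hq).1).1.le
  have h3 := h2.trans ((Nat.le_of_dvd h0 h1).trans hv)
  rw [← log_pow, ← log_pow]
  exact log_le_log (by positivity) (by exact_mod_cast h3)

end COLLc

theorem p_COLL :
    S_COLL := by
  classical
  intro b m f y hb hy hf
  have hl : 0 ≤ log y := log_natCast_nonneg y
  have hlb : 0 ≤ log b := log_natCast_nonneg b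
  let T := (range m ×ˢ Icc 1 m).filter fun p : ℕ × ℕ => p.1 + p.2 ≤ m
  have hsub : ((Qy y).filter fun q => Coll b q m f) ⊆
      T.biUnion fun p => (Qy y).filter fun q => q ∣ f / b ^ p.1 % b ^ p.2 := by
    intro q hq
    obtain ⟨h1, i, j, h2, h3, h4⟩ := mem_filter.1 hq
    exact mem_biUnion.2 ⟨(i, j), mem_filter.2 ⟨mem_product.2 ⟨mem_range.2 (by omega),
      mem_Icc.2 ⟨h2, by omega⟩⟩, h3⟩, mem_filter.2 ⟨h1, h4⟩⟩
  have h1 := (card_le_card hsub).trans card_biUnion_le
  have hT : T.card ≤ m * m := (card_filter_le _ _).trans (by simp)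
  calc _ ≤ ((∑ p ∈ T, ((Qy y).filter fun q => q ∣ f / b ^ p.1 % b ^ p.2).card : ℕ) : ℝ) * log y :=
        mul_le_mul_of_nonneg_right (by exact_mod_cast h1) hl
    _ = ∑ p ∈ T, (((Qy y).filter fun q => q ∣ f / b ^ p.1 % b ^ p.2).card : ℝ) * log y := by
        rw [Nat.cast_sum, sum_mul]
    _ ≤ T.card • (m * log b) := by
        refine sum_le_card_nsmul _ _ _ fun p hp => ?_
        obtain ⟨h2, h3⟩ := mem_filter.1 hp
        have h4 := (mem_Icc.1 (mem_product.1 h2).2).1
        have h5 := lang_fac hf h3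
        exact COLLc.few_primes hy (lang_pos h5 h4)
          ((lang_lt h5).le.trans (Nat.pow_le_pow_right (by omega) (by omega)))
    _ ≤ m ^ 3 * log b := by
        rw [nsmul_eq_mul]
        have h2 : (T.card : ℝ) ≤ m * m := by exact_mod_cast hT
        calc (T.card : ℝ) * (m * log b) ≤ m * m * (m * log b) := by gcongr
          _ = _ := by ring

end Pool.Agent.P.MP_7b3100_nt.DZ
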