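import Pool.Agent.P.MP_7b3100_nt.DZ.If

/-! Step CRT. -/

namespace Pool.Agent.P.MP_7b3100_nt.DZ

open Finset Real Pool.Agent.P.MP_bf60a1_an.RA
open Pool.Agent.P.MP_e94e4b_nt (ee)

theorem p_CRT :
    S_CRT := by
  intro Ω _ P D F R hR
  refine Hc_fun_le P R (fun q ω => D ω % q) _ F fun ω ω' _ _ _ h => ?_
  clear * - hR h
  induction R using Finset.induction_on with
  | empty => simp [Nat.mod_one]
  | insert a s ha ih =>
    rw [prod_insert ha]
    refine (Nat.modEq_and_modEq_iff_modEq_mul (Nat.Coprime.prod_right fun q hq => ?_)).1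
      ⟨h a (mem_insert_self _ _),
        ih (fun q hq => hR q (mem_insert_of_mem hq)) fun q hq => h q (mem_insert_of_mem hq)⟩
    exact (Nat.coprime_primes (hR a (mem_insert_self _ _)) (hR q (mem_insert_of_mem hq))).2
      fun e => ha (e ▸ hq)

end Pool.Agent.P.MP_7b3100_nt.DZ
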