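import Pool.Agent.P.MP_7b3100_nt.DZ.If

/-! Step DET. -/

namespace Pool.Agent.P.MP_7b3100_nt.DZ

open Finset Real Pool.Agent.P.MP_bf60a1_an.RA
open Pool.Agent.P.MP_e94e4b_nt (ee)

namespace DETc

theorem decay (z k : ℕ → ℝ) (s : ℕ → Prop) (a Q : ℝ) (n : ℕ) (h0 : z 0 ≤ Q)
    (hz : ∀ e, 0 ≤ z e) (hk : ∀ e, 0 ≤ k e) (hs : ∀ e < n, z (e + 1) + k e = z e)
    (hf : ∀ e, ¬ s e → a * z e ≤ k e) :
    ∀ e ≤ n, z e ≤ Q * exp (-(a * (e - ∑ i ∈ range e, ind (s i)))) := by
  intro e
  induction e with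
  | zero => intro _; simpa using h0
  | succ e ih =>
    intro he
    have h1 := ih (by omega)
    have h2 := hs e (by omega)
    rw [sum_range_succ]
    by_cases c : s e
    · rw [ind_pos c]
      have e1 : ((e + 1 : ℕ) : ℝ) - (∑ i ∈ range e, ind (s i) + 1) =
          e - ∑ i ∈ range e, ind (s i) := by push_cast; ring
      rw [e1]; linarith [hk e]
    · rw [ind_neg c]
      have e1 : -(a * (((e + 1 : ℕ) : ℝ) - (∑ i ∈ range e, ind (s i) + 0))) =
          -(a * (e - ∑ i ∈ range e, ind (s i))) + -a := by push_cast; ring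
      rw [e1, exp_add, ← mul_assoc]
      have h3 := hf e c
      have h4 : -a + 1 ≤ exp (-a) := add_one_le_exp _
      have h5 := mul_le_mul_of_nonneg_left h4 (hz e)
      have h6 := mul_le_mul_of_nonneg_right h1 (exp_pos (-a)).le
      linarith

theorem anti (z k : ℕ → ℝ) (n : ℕ) (hk : ∀ e, 0 ≤ k e) (hs : ∀ e < n, z (e + 1) + k e = z e) :
    ∀ d e, e + d = n → z n ≤ z e := by
  intro d
  induction d with
  | zero => intro e h; rw [← h, add_zero]
  | succ d ih =>
    intro e h
    have := ih (e + 1) (by omega)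
    linarith [hs e (by omega), hk e]

theorem step (b q l n w e : ℕ) (he : e < n) :
    (sv b q (l * (e + 1)) (w / b ^ (l * (n - (e + 1))))).card +
      kil b q l (w / b ^ (l * (n - (e + 1))) % b ^ l) (b ^ (l * e)) (w / b ^ (l * (n - e)))
        (sv b q (l * e) (w / b ^ (l * (n - e)))) =
      (sv b q (l * e) (w / b ^ (l * (n - e)))).card := by
  classical
  have e1 : w / b ^ (l * (n - (e + 1))) / b ^ l = w / b ^ (l * (n - e)) := by
    rw [Nat.div_div_eq_div_mul, ← pow_add, ← Nat.mul_succ, show (n - (e + 1)).succ = n - e by omega]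
  have e2 : sv b q (l * (e + 1)) (w / b ^ (l * (n - (e + 1)))) =
      (sv b q (l * e) (w / b ^ (l * (n - e)))).filter fun z =>
        Surv b q l (w / b ^ (l * (n - (e + 1))) % b ^ l)
          (b ^ (l * e) * z + w / b ^ (l * (n - e))) := by
    ext z
    simp only [sv, mem_filter, Nat.mul_succ, surv_add, e1, and_assoc]
  rw [e2, kil]
  exact card_filter_add_card_filter_not _

end DETc

theorem p_DET :
    S_DET := by
  intro b q l m n w s hq h
  have hq' : (0 : ℝ) < q := by exact_mod_cast hq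
  set z : ℕ → ℝ := fun e => ((sv b q (l * e) (w / b ^ (l * (n - e)))).card : ℝ) with hz
  set k : ℕ → ℝ := fun e => (kil b q l (w / b ^ (l * (n - (e + 1))) % b ^ l) (b ^ (l * e))
    (w / b ^ (l * (n - e))) (sv b q (l * e) (w / b ^ (l * (n - e)))) : ℝ) with hk
  have hs : ∀ e < n, z (e + 1) + k e = z e := fun e he => by
    simp only [hz, hk]; exact_mod_cast DETc.step b q l n w e he
  have hk0 : ∀ e, 0 ≤ k e := fun e => Nat.cast_nonneg _
  have hn : q * exp (-s) ≤ z n := by simpa [hz] using h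
  have h0 : z 0 ≤ q := by
    have : (sv b q (l * 0) (w / b ^ (l * (n - 0)))).card ≤ q := by
      classical
      exact (card_filter_le _ _).trans (card_range q).le
    simp only [hz]; exact_mod_cast this
  have h1 := DETc.decay z k (fun e => k e < m * z e / (4 * q)) (m / (4 * q)) q n h0
    (fun e => Nat.cast_nonneg _) hk0 hs (fun e c => by
      have := not_lt.1 c
      rwa [div_mul_eq_mul_div]) n le_rfl
  have h2 := exp_le_exp.1 (le_of_mul_le_mul_left (hn.trans h1) hq')
  have h3 : ∑ e ∈ range n, ind (q * exp (-s) ≤ z e) * ind (k e < m * z e / (4 * q)) =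
      ∑ e ∈ range n, ind (k e < m * z e / (4 * q)) := by
    refine sum_congr rfl fun e he => ?_
    have := mem_range.1 he
    rw [ind_pos (hn.trans (DETc.anti z k n hk0 hs (n - e) e (by omega))), one_mul]
  change m * (n - ∑ e ∈ range n, ind (q * exp (-s) ≤ z e) * ind (k e < m * z e / (4 * q))) ≤ _
  rw [h3]
  rw [neg_le_neg_iff, div_mul_eq_mul_div, div_le_iff₀ (by positivity)] at h2
  linarith

end Pool.Agent.P.MP_7b3100_nt.DZ
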