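import Pool.Agent.P.MP_7b3100_nt.DZ.If

/-! Step DIM. -/

namespace Pool.Agent.P.MP_7b3100_nt.DZ

open Finset Real Pool.Agent.P.MP_bf60a1_an.RA
open Pool.Agent.P.MP_e94e4b_nt (ee)

namespace DIMc

theorem fl {b : ℕ} (hb : 2 ≤ b) (a : ℝ) (n k : ℕ) :
    ⌊(b : ℝ) ^ n * a⌋ = ⌊(b : ℝ) ^ (n + k) * a⌋ / (b : ℤ) ^ k := by
  have h0 : (b : ℝ) ^ k ≠ 0 := by positivity
  have := Int.floor_div_natCast ((b : ℝ) ^ (n + k) * a) (b ^ k)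
  push_cast at this
  rw [← this]
  congr 1
  rw [pow_add]
  field_simp

/-- the pieces -/
def E (b n0 : ℕ) (x0 : ℤ) : Set ℝ :=
  {a | ⌊(b : ℝ) ^ n0 * a⌋ = x0 ∧ ∀ n, n0 < n → (⌊(b : ℝ) ^ n * a⌋).natAbs.Prime}

theorem word {b n0 l : ℕ} {x0 : ℤ} (hb : 2 ≤ b) {a : ℝ} (ha : a ∈ E b n0 x0) :
    ∃ w ∈ PW b l, ⌊(b : ℝ) ^ (n0 + l) * a⌋ = (b : ℤ) ^ l * x0 + w := by
  classical
  obtain ⟨h1, h2⟩ := ha
  have hp : ∀ k : ℕ, (0 : ℤ) < (b : ℤ) ^ k := fun k => by positivity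
  set y := ⌊(b : ℝ) ^ (n0 + l) * a⌋ with hy
  obtain ⟨w, hw⟩ := Int.eq_ofNat_of_zero_le (Int.emod_nonneg y (hp l).ne')
  have e : y = (b : ℤ) ^ l * x0 + w := by
    rw [← hw, ← h1, fl hb a n0 l, ← hy, Int.mul_ediv_add_emod]
  refine ⟨w, ?_, e⟩
  rw [PW, mem_filter, mem_range]
  refine ⟨?_, x0, fun i i1 i2 => ?_⟩
  · have := Int.emod_lt_of_pos y (hp l)
    rw [hw] at this
    exact_mod_cast this
  · obtain ⟨k, rfl⟩ := Nat.exists_eq_add_of_le i2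
    have h3 := h2 (n0 + i) (by omega)
    rw [fl hb a (n0 + i) k, add_assoc, ← hy, e, pow_add, mul_comm ((b : ℤ) ^ i), mul_assoc,
      add_comm, Int.add_mul_ediv_left _ _ (hp k).ne', add_comm] at h3
    rw [Nat.add_sub_cancel_left]
    push_cast
    exact h3

theorem dimE (hDIMA : S_DIMA) {b : ℕ} (hb : 2 ≤ b)
    (h : ∀ ε : ℝ, 0 < ε → ∃ l0 : ℕ, ∀ l ≥ l0, ((PW b l).card : ℝ) ≤ exp (ε * l)) (n0 : ℕ)
    (x0 : ℤ) : dimH (E b n0 x0) = 0 := by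
  classical
  refine hDIMA b _ hb fun ε hε => ?_
  obtain ⟨l0, hl0⟩ := h ε hε
  refine ⟨n0 + l0, fun l hl => ?_⟩
  obtain ⟨l', rfl⟩ := Nat.exists_eq_add_of_le (show n0 ≤ l by omega)
  refine ⟨(PW b l').image fun w : ℕ => (((b : ℤ) ^ l' * x0 + w : ℤ) : ℝ) / (b : ℝ) ^ (n0 + l'),
    ?_, fun a ha => ?_⟩
  · refine le_trans (Nat.cast_le.2 card_image_le) ((hl0 l' (by omega)).trans ?_)
    gcongr
    omega
  · obtain ⟨w, hw, e⟩ := word (l := l') hb ha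
    have hp : (0 : ℝ) < (b : ℝ) ^ (n0 + l') := by positivity
    refine ⟨_, mem_image_of_mem _ hw, ?_, ?_⟩
    · rw [← e, div_le_iff₀ hp, mul_comm a]
      exact Int.floor_le _
    · rw [← e, inv_eq_one_div, ← add_div, le_div_iff₀ hp, mul_comm a]
      exact (Int.lt_floor_add_one _).le

theorem cover {b : ℕ} (hb : 2 ≤ b) {a : ℝ} (h0 : a ≠ 0)
    (h : {n : ℕ | Comp ⌊(b : ℝ) ^ n * a⌋}.Finite) : ∃ n0 x0, a ∈ E b n0 x0 := by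
  obtain ⟨N, hN⟩ := h.bddAbove
  have hb1 : (1 : ℝ) < b := by exact_mod_cast hb
  have ha : 0 < |a| := abs_pos.2 h0
  obtain ⟨M, hM⟩ := pow_unbounded_of_one_lt (2 / |a|) hb1
  refine ⟨N + M, _, rfl, fun n hn => ?_⟩
  by_contra hc
  have h1 : 2 < |(b : ℝ) ^ n * a| := by
    rw [abs_mul, abs_of_pos (by positivity : (0 : ℝ) < (b : ℝ) ^ n), ← div_lt_iff₀ ha]
    exact hM.trans_le (pow_le_pow_right₀ hb1.le (by omega))
  have h2 : 2 ≤ (⌊(b : ℝ) ^ n * a⌋).natAbs := by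
    rcases lt_abs.1 h1 with h | h
    · have : (2 : ℤ) ≤ ⌊(b : ℝ) ^ n * a⌋ := Int.le_floor.2 (by exact_mod_cast h.le)
      omega
    · have : ⌊(b : ℝ) ^ n * a⌋ < -2 := Int.floor_lt.2 (by push_cast; linarith)
      omega
  have := hN (show n ∈ {n : ℕ | Comp ⌊(b : ℝ) ^ n * a⌋} from ⟨h2, hc⟩)
  omega

end DIMc

theorem p_DIM (hDIMA : S_DIMA) :
    S_DIM := by
  intro b hb h
  have hs : {α : ℝ | {n : ℕ | Comp ⌊(b : ℝ) ^ n * α⌋}.Finite} ⊆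
      {0} ∪ ⋃ p : ℕ × ℤ, DIMc.E b p.1 p.2 := fun a ha => by
    by_cases h0 : a = 0
    · exact Or.inl h0
    · obtain ⟨n0, x0, h1⟩ := DIMc.cover hb h0 ha
      exact Or.inr (Set.mem_iUnion.2 ⟨(n0, x0), h1⟩)
  refine le_antisymm ((dimH_mono hs).trans ?_) bot_le
  rw [dimH_union, dimH_iUnion, dimH_singleton]
  simp [DIMc.dimE hDIMA hb h]

end Pool.Agent.P.MP_7b3100_nt.DZ
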