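import Pool.Agent.P.MP_7b3100_nt.DZ.If

/-! Step DIMA. -/

namespace Pool.Agent.P.MP_7b3100_nt.DZ

open Finset Real Pool.Agent.P.MP_bf60a1_an.RA
open Pool.Agent.P.MP_e94e4b_nt (ee)

namespace DIMAc

lemma bound {b : ℕ} (hb : 2 ≤ b) {s : ℝ} (l : ℕ) {c : ℝ}
    (hc : c ≤ exp (s * log b * l)) : c * (((b : ℝ) ^ l)⁻¹) ^ s ≤ 1 := by
  have hb0 : (0 : ℝ) < b := by exact_mod_cast (by omega : 0 < b)
  have hp : (0 : ℝ) < ((b : ℝ) ^ l)⁻¹ := by positivity
  have e : (((b : ℝ) ^ l)⁻¹) ^ s = exp (-(s * log b * l)) := by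
    rw [Real.rpow_def_of_pos hp, Real.log_inv, Real.log_pow]; congr 1; ring
  rw [e]
  calc c * exp (-(s * log b * l)) ≤ exp (s * log b * l) * exp (-(s * log b * l)) :=
        mul_le_mul_of_nonneg_right hc (exp_pos _).le
    _ = 1 := by rw [← Real.exp_add]; simp

end DIMAc

theorem p_DIMA :
    S_DIMA := by
  intro b E hb h
  have hb1 : (1 : ℝ) < b := by exact_mod_cast (by omega : 1 < b)
  refine le_antisymm ?_ zero_le
  refine ENNReal.le_of_forall_pos_le_add fun s hs _ => ?_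
  rw [zero_add]
  refine dimH_le_of_hausdorffMeasure_ne_top ?_
  have hs' : (0 : ℝ) < s := hs
  obtain ⟨l0, hl0⟩ := h ((s : ℝ) * log b) (mul_pos hs' (Real.log_pos hb1))
  have h2 : ∀ l : ℕ, ∃ F : Finset ℝ, l0 ≤ l → ((F.card : ℝ) ≤ exp ((s : ℝ) * log b * l) ∧
      ∀ α ∈ E, ∃ a ∈ F, a ≤ α ∧ α ≤ a + ((b : ℝ) ^ l)⁻¹) := by
    intro l
    by_cases hl : l0 ≤ l
    · obtain ⟨F, hF⟩ := hl0 l hl
      exact ⟨F, fun _ => hF⟩
    · exact ⟨∅, fun h' => absurd h' hl⟩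
  choose F hF using h2
  have hr : Filter.Tendsto (fun l : ℕ => ENNReal.ofReal (((b : ℝ) ^ l)⁻¹)) Filter.atTop
      (nhds 0) := by
    rw [← ENNReal.ofReal_zero]
    exact ENNReal.tendsto_ofReal (tendsto_pow_atTop_atTop_of_one_lt hb1).inv_tendsto_atTop
  have key := MeasureTheory.Measure.hausdorffMeasure_le_liminf_sum (ι := fun l : ℕ => F l)
    (s : ℝ) E (fun l : ℕ => ENNReal.ofReal (((b : ℝ) ^ l)⁻¹)) hr
    (fun l a => Set.Icc (a : ℝ) (a + ((b : ℝ) ^ l)⁻¹))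
    (Filter.Eventually.of_forall fun l a => by rw [Real.ediam_Icc]; simp)
    (by
      filter_upwards [Filter.eventually_ge_atTop l0] with l hl α hα
      obtain ⟨a, ha, h1, h2⟩ := (hF l hl).2 α hα
      exact Set.mem_iUnion.2 ⟨⟨a, ha⟩, h1, h2⟩)
  refine ne_top_of_le_ne_top ENNReal.one_ne_top (key.trans ?_)
  refine Filter.liminf_le_of_frequently_le' (Filter.Eventually.frequently ?_)
  filter_upwards [Filter.eventually_ge_atTop l0] with l hl
  have hp : (0 : ℝ) ≤ ((b : ℝ) ^ l)⁻¹ := by positivity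
  simp only [Real.ediam_Icc, add_sub_cancel_left, sum_const, card_univ, Fintype.card_coe,
    nsmul_eq_mul]
  rw [ENNReal.ofReal_rpow_of_nonneg hp hs'.le, ← ENNReal.ofReal_natCast,
    ← ENNReal.ofReal_mul (Nat.cast_nonneg _)]
  exact ENNReal.ofReal_le_one.2 (DIMAc.bound hb l (hF l hl).1)

end Pool.Agent.P.MP_7b3100_nt.DZ
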