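import Pool.Agent.P.MP_7b3100_nt.DZ.If

/-! Step EMB. -/

namespace Pool.Agent.P.MP_7b3100_nt.DZ

open Finset Real Pool.Agent.P.MP_bf60a1_an.RA
open Pool.Agent.P.MP_e94e4b_nt (ee)

namespace EMBc

theorem big {B v : ℕ} (x : ℤ) (hv : v < B) : x.natAbs ≤ ((B : ℤ) * x + v).natAbs := by
  have h1 : (v : ℤ) + 1 ≤ B := by exact_mod_cast hv
  have h2 : (0 : ℤ) ≤ v := Int.natCast_nonneg v
  rcases le_or_gt 0 x with h | h
  · have : x ≤ B * x + v := by nlinarith
    omega
  · have : B * x + v ≤ x := by nlinarith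
    omega

theorem div_lt {b l w i : ℕ} (hw : w < b ^ l) (hi : i ≤ l) : w / b ^ (l - i) < b ^ i :=
  Nat.div_lt_of_lt_mul (by rwa [← pow_add, Nat.sub_add_cancel hi])

end EMBc

open EMBc in
theorem p_EMB :
    S_EMB := by
  intro b l w x hb hw hx hp
  have hbig : ∀ i ≤ l, l < ((b : ℤ) ^ i * x + (w / b ^ (l - i) : ℕ)).natAbs := fun i hi =>
    hx.trans_le (by simpa only [Nat.cast_pow] using big x (div_lt hw hi))
  refine mem_Lang.2 ⟨hw, fun i hi h0 => ?_, fun q hq hbq => ?_⟩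
  · obtain ⟨j, rfl⟩ := Nat.exists_eq_add_of_lt hi
    have h1 := hp (j + 1) (by omega) (by omega)
    have h2 := hbig j (by omega)
    rw [show i + j + 1 - (j + 1) = i by omega] at h1
    rw [show i + j + 1 - j = i + 1 by omega] at h2
    have h3 : w / b ^ i = b * (w / b ^ (i + 1)) := by
      rw [pow_succ, ← Nat.div_div_eq_div_mul, Nat.mul_div_cancel' (Nat.dvd_of_mod_eq_zero h0)]
    rw [h3, Nat.cast_mul, pow_succ', mul_assoc, ← mul_add, Int.natAbs_mul, Int.natAbs_natCast]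
      at h1
    exact Nat.not_prime_mul (by omega) (by omega) h1
  · rcases le_or_gt q l with h | h
    · have hq0 : (q : ℤ) ≠ 0 := by exact_mod_cast hq.ne_zero
      refine ⟨(x % q).toNat, fun i h1 h2 hd => ?_⟩
      have h3 : (q : ℤ) ∣ (b : ℤ) ^ i * x + (w / b ^ (l - i) : ℕ) := by
        have h4 := Int.natCast_dvd_natCast.2 hd
        rw [Nat.cast_add, Nat.cast_mul, Nat.cast_pow,
          Int.toNat_of_nonneg (Int.emod_nonneg x hq0)] at h4
        exact (((Int.mod_modEq x q).mul_left _).add_right _).dvd_iff.1 h4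
      have h5 := (Nat.prime_dvd_prime_iff_eq hq (hp i h1 h2)).1 (Int.natCast_dvd.1 h3)
      have := hbig i h2
      omega
    · have : Fact q.Prime := ⟨hq⟩
      have hc : b.Coprime q :=
        (hq.coprime_iff_not_dvd.2 (Nat.not_dvd_of_pos_of_lt (by omega) hbq)).symm
      obtain ⟨z, -, hz⟩ := exists_mem_notMem_of_card_lt_card
        (s := (Icc 1 l).image (sig b q l w)) (t := univ)
        (card_image_le.trans_lt (by simpa using h))
      refine ⟨z.val, fun i h1 h2 hd => hz (mem_image.2 ⟨i, mem_Icc.2 ⟨h1, h2⟩, ?_⟩)⟩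
      rw [(sig_iff hq hc l w i z.val).1 hd, ZMod.natCast_zmod_val]

end Pool.Agent.P.MP_7b3100_nt.DZ
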