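import Pool.Agent.P.MP_7b3100_nt.DZ.If

/-! Step EP. -/

namespace Pool.Agent.P.MP_7b3100_nt.DZ

open Finset Real Pool.Agent.P.MP_bf60a1_an.RA
open Pool.Agent.P.MP_e94e4b_nt (ee)

namespace EPc

theorem split (hKIL : S_KIL) {Ω : Type} [Fintype Ω] (P : FP Ω) (X : Ω → ℕ) (b n m c t : ℕ)
    {q : ℕ} (hq : 0 < q) (Z : Finset ℕ) (r : ℝ) :
    (P.pr fun ω => (kil b q (n + m) (X ω) c t Z : ℝ) < m * Z.card / (4 * q)) ≤
      (P.pr fun ω => r < (few b q m (X ω % b ^ m) (b ^ n * c) (b ^ n * t) Z).card) +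
      P.pr fun ω => X ω / b ^ m % q ∈
        if ((few b q m (X ω % b ^ m) (b ^ n * c) (b ^ n * t) Z).card : ℝ) ≤ r then
          few b q m (X ω % b ^ m) (b ^ n * c) (b ^ n * t) Z else ∅ := by
  refine le_trans (P.pr_mono fun ω _ h => ?_) (P.pr_or_le _ _)
  rcases lt_or_ge r (few b q m (X ω % b ^ m) (b ^ n * c) (b ^ n * t) Z).card with h1 | h1
  · exact Or.inl h1
  · refine Or.inr ?_
    rw [if_pos h1, few, mem_filter, mem_range]
    refine ⟨Nat.mod_lt _ hq, lt_of_le_of_lt ?_ h⟩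
    exact_mod_cast hKIL b q n m (X ω) c t Z

end EPc

theorem p_EP (hBF : S_BF) (hEPA : S_EPA) (hKIL : S_KIL) (hMEX : S_MEX) :
    S_EP := by
  intro b h H
  obtain ⟨c0, C1, y1, hc0, hC1, h1⟩ := hBF b h H
  obtain ⟨S, L, y2, C2, hS, hL, hC2, h2⟩ := hEPA b h c0 H hc0
  have hS' : (0 : ℝ) < S := by exact_mod_cast hS
  obtain ⟨ε, hε, hε'⟩ : ∃ ε : ℝ, 0 < ε ∧ (C1 + C2) * ε ≤ 3 / 50 := by
    refine ⟨3 / 50 / (C1 + C2 + 1), by positivity, ?_⟩
    rw [← mul_div_assoc, div_le_iff₀ (by positivity)]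
    linarith
  obtain ⟨n1, hn1⟩ := H.lim (ε / S) (by positivity)
  obtain ⟨n2, hn2⟩ := H.lim ε hε
  obtain ⟨y3, h3⟩ := hMEX L (S + 1 + n1 + n2) hL
  refine ⟨c0, C1 + C2, S + 1, y1 + y2 + y3 + b, hc0, by positivity, by omega, fun y hy => ?_⟩
  obtain ⟨m, hLm, hm, hy1, hy2, hy3⟩ := h3 y (by omega)
  refine ⟨m, by omega, (Nat.mul_le_mul_right _ (by omega)).trans hy3, ?_⟩
  intro Ω _ P X c t Z hX hc hZ
  rw [add_mul S 1 m, one_mul] at hX ⊢
  have hc' : ∀ q ∈ Qy y, (b ^ (S * m) * c).Coprime q := fun q hq =>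
    Nat.Coprime.mul_left ((coprime_of_mem H.hb (by omega) hq).pow_left _) (hc q hq)
  have e1 := h1 y (by omega) m hy1 hy2 Ω P (fun ω => X ω % b ^ m) _ (b ^ (S * m) * t) Z hX.mod hc' hZ
  have e2 := h2 y (by omega) m hLm hy1 hy2 Ω P (fun ω => X ω / b ^ m) (fun ω => X ω % b ^ m)
    (fun q f => if ((few b q m f (b ^ (S * m) * c) (b ^ (S * m) * t) (Z q)).card : ℝ) ≤
      q * (y : ℝ) ^ (-c0) then few b q m f (b ^ (S * m) * c) (b ^ (S * m) * t) (Z q) else ∅)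
    hX.div fun q _ f => by
      split_ifs with h4
      · exact h4
      · rw [card_empty, Nat.cast_zero]
        positivity
  have l1 : lp b (S * m) ≤ h * (S * m : ℕ) + ε * m := by
    refine (hn1 _ (le_trans (by omega) (Nat.le_mul_of_pos_left m hS))).trans (le_of_eq ?_)
    push_cast
    field_simp
  have l2 := hn2 m (by omega)
  have d1 : h * m - (P.H fun ω => X ω % b ^ m) ≤ h * (S * m + m : ℕ) - P.H X + ε * m := by
    have a1 := H_cut P X (b ^ m)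
    have a2 := P.Hc_le_H (fun ω => X ω % b ^ m) fun ω => X ω / b ^ m
    have a3 := hX.div.H_le
    rw [Nat.cast_add]
    linarith
  have d2 : h * (S * m : ℕ) - (P.Hc (fun ω => X ω / b ^ m) fun ω => X ω % b ^ m) ≤
      h * (S * m + m : ℕ) - P.H X + ε * m := by
    have a1 := H_cut' P X (b ^ m)
    have a3 := hX.mod.H_le
    rw [Nat.cast_add]
    linarith
  have hm0 : (0 : ℝ) ≤ m := Nat.cast_nonneg _
  have hN : (0 : ℝ) ≤ (Qy y).card := Nat.cast_nonneg _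
  refine le_trans ?_ ((add_le_add e1 e2).trans ?_)
  · rw [← mul_add, ← sum_add_distrib]
    refine mul_le_mul_of_nonneg_left (sum_le_sum fun q hq => ?_) hm0
    have a1 := EPc.split hKIL P X b (S * m) m c t (mem_Qy.1 hq).2.2.pos (Z q)
      (q * (y : ℝ) ^ (-c0))
    refine (mul_le_mul_of_nonneg_left a1 (ind_nonneg _)).trans ?_
    rw [mul_add]
    exact add_le_add_right (mul_le_of_le_one_left (P.pr_nonneg _) (ind_le_one _)) _
  · rw [← mul_add]
    refine mul_le_mul_of_nonneg_left ?_ hN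
    have a1 := mul_le_mul_of_nonneg_left d1 hC1
    have a2 := mul_le_mul_of_nonneg_left d2 hC2
    have a3 := mul_le_mul_of_nonneg_right hε' hm0
    nlinarith

end Pool.Agent.P.MP_7b3100_nt.DZ
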