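import Pool.Agent.P.MP_7b3100_nt.DZ.If

/-! Step EPA. -/

namespace Pool.Agent.P.MP_7b3100_nt.DZ

open Finset Real Pool.Agent.P.MP_bf60a1_an.RA
open Pool.Agent.P.MP_e94e4b_nt (ee)

theorem p_EPA (hEPE : S_EPE) (hSS : S_SS) :
    S_EPA := by
  intro b h c0 H hc
  obtain ⟨S, L, y0, C, hS, hL, hC, h1⟩ := hEPE b h (c0 / 25) H (by positivity)
  refine ⟨S, L, max y0 2, C / c0, hS, hL, by positivity, fun y hy m hm h5 h4 Ω _ P D F A hD hA => ?_⟩
  have y2 : (2 : ℝ) ≤ y := mod_cast (le_max_right _ _).trans hy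
  have hl : 0 < log y := log_pos (by linarith)
  have h2 := h1 y ((le_max_left _ _).trans hy) m hm h5 h4 Ω P D F hD
  have h3 := sum_le_sum fun q (hq : q ∈ Qy y) => hSS Ω P (fun ω => D ω % q) F (A q) q (c0 * log y)
    (fun ω _ => Nat.mod_lt _ (mem_Qy.1 hq).2.2.pos) fun f => by
      have := hA q hq f
      rwa [rpow_def_of_pos (by linarith), mul_neg, mul_comm (log _)] at this
  rw [← sum_mul] at h3
  refine le_of_mul_le_mul_right ?_ (mul_pos hc hl)
  rw [mul_assoc]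
  refine ((mul_le_mul_of_nonneg_left h3 m.cast_nonneg).trans h2).trans (le_of_eq ?_)
  field_simp

end Pool.Agent.P.MP_7b3100_nt.DZ
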