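import Pool.Agent.P.MP_7b3100_nt.DZ.If

/-! Step EPE. -/

namespace Pool.Agent.P.MP_7b3100_nt.DZ

open Finset Real Pool.Agent.P.MP_bf60a1_an.RA
open Pool.Agent.P.MP_e94e4b_nt (ee)

theorem p_EPE (hAP : S_AP) (hRSUB : S_RSUB) (hCRT : S_CRT) (hEPN : S_EPN) :
    S_EPE := by
  intro b h δ H hδ
  obtain ⟨S, L, j0, C, hS, hL, hC, hap⟩ := hAP b h (δ / 2) H (by positivity)
  obtain ⟨y0, hy0⟩ := hEPN b S j0 (δ / 2) H.hb hS (by positivity)
  have hb2 := H.hb
  have hlb : 0 < log (b : ℝ) := log_pos (by exact_mod_cast hb2)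
  refine ⟨S, L, y0, C / log b, hS, hL, by positivity, fun y hy m hLm h5 h4 Ω _ P D F hD => ?_⟩
  obtain ⟨hby, hm⟩ := hy0 y hy
  obtain ⟨hj, r, hr0, hrQ, hyr, hlog⟩ := hm m h5 h4
  have hy1 : (1 : ℝ) ≤ y := by exact_mod_cast (show 1 ≤ y by omega)
  have hly : 0 ≤ log (y : ℝ) := log_nonneg hy1
  set φ : ℕ → ℝ := fun q => log 2 + log q - P.Hc (fun ω => D ω % q) F with hφ
  set df : ℝ := h * (S * m : ℕ) - P.Hc D F with hdf
  have hφ0 : 0 ≤ ∑ q ∈ Qy y, φ q := sum_nonneg fun q hq => by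
    have h1 := P.Hc_le_H (fun ω => D ω % q) F
    have h2 := H_le_of_lt P (X := fun ω => D ω % q) (N := q)
      fun ω _ => Nat.mod_lt _ (mem_Qy.1 hq).2.2.pos
    have h3 : 0 ≤ log (2 : ℝ) := log_nonneg (by norm_num)
    simp only [hφ]
    linarith
  have hB : ∀ R ⊆ Qy y, R.card = r → ∑ q ∈ R, φ q ≤ δ * (m * log b) + C * df := by
    intro R hR hc
    have hN : S * b ^ m ≤ ∏ q ∈ R, q := by
      refine hyr.trans ?_
      rw [← hc]
      exact pow_card_le_prod _ _ _ fun q hq => (mem_Qy.1 (hR hq)).1.le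
    have hcop : b.Coprime (∏ q ∈ R, q) :=
      Nat.Coprime.prod_right fun q hq => coprime_of_mem hb2 hby (hR hq)
    have h1 : (1 - δ / 2) * (m * log b) - C * df ≤ P.Hc (fun ω => D ω % ∏ q ∈ R, q) F := by
      have h2 := P.E_mono (f := fun ω => (1 - δ / 2) * (m * log b) -
          C * (h * (S * m : ℕ) - (P.cv F (F ω)).H D))
        (g := fun ω => (P.cv F (F ω)).H fun x => D x % ∏ q ∈ R, q) fun ω _ =>
          hap m hj hLm _ hcop hN Ω (P.cv F (F ω)) D (hD.cv F (F ω))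
      rwa [FP.E_sub, FP.E_const, FP.E_mul_left, FP.E_sub, FP.E_const, FP.E_H_cv,
        FP.E_H_cv] at h2
    have h3 := hCRT Ω P D F R fun q hq => (mem_Qy.1 (hR hq)).2.2
    have h4 : ∑ q ∈ R, (log 2 + log (q : ℝ)) ≤ r * (log (4 * y) + log 2) := by
      rw [← hc, ← nsmul_eq_mul]
      refine sum_le_card_nsmul _ _ _ fun q hq => ?_
      have h5 := mem_Qy.1 (hR hq)
      have : log (q : ℝ) ≤ log (4 * y) :=
        log_le_log (by exact_mod_cast h5.2.2.pos) (by exact_mod_cast h5.2.1)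
      linarith
    simp only [hφ]
    rw [sum_sub_distrib]
    linarith
  have h6 := hRSUB (Qy y) φ r _ hr0 hrQ hB
  have h7 : m * log (b : ℝ) ≤ r * log (y : ℝ) := by
    rw [← log_pow, ← log_pow]
    refine log_le_log (by positivity) ?_
    exact_mod_cast (Nat.le_mul_of_pos_left _ hS).trans hyr
  refine le_of_mul_le_mul_right ?_ hlb
  have h8 : (Qy y).card * log y * (δ * m + C / log b * df) * log b =
      log y * ((Qy y).card * (δ * (m * log b) + C * df)) := by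
    field_simp
  rw [h8]
  calc m * (∑ q ∈ Qy y, φ q) * log b = m * log b * ∑ q ∈ Qy y, φ q := by ring
    _ ≤ r * log y * ∑ q ∈ Qy y, φ q := mul_le_mul_of_nonneg_right h7 hφ0
    _ = log y * (r * ∑ q ∈ Qy y, φ q) := by ring
    _ ≤ _ := mul_le_mul_of_nonneg_left h6 hly

end Pool.Agent.P.MP_7b3100_nt.DZ
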