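import Pool.Agent.P.MP_7b3100_nt.DZ.If

/-! Step EPN. -/

namespace Pool.Agent.P.MP_7b3100_nt.DZ

open Finset Real Pool.Agent.P.MP_bf60a1_an.RA
open Pool.Agent.P.MP_e94e4b_nt (ee)

namespace EPNc

open Filter

theorem ev1 (s η : ℝ) (hη : 0 < η) : ∃ m0 : ℕ, ∀ m ≥ m0, 5 * log (m : ℕ) + s ≤ η * m / 2 := by
  have h1 := (tendsto_natCast_atTop_atTop (R := ℝ)).eventually
    (isLittleO_log_id_atTop.def (show 0 < η / 20 by positivity))
  have h2 := (tendsto_natCast_atTop_atTop (R := ℝ)).eventually_ge_atTop (4 * s / η)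
  obtain ⟨m0, h⟩ := eventually_atTop.1 (h1.and h2)
  refine ⟨m0, fun m hm => ?_⟩
  obtain ⟨a, c⟩ := h m hm
  rw [id, Real.norm_of_nonneg (log_natCast_nonneg m), Real.norm_of_nonneg (Nat.cast_nonneg m)] at a
  rw [div_le_iff₀ hη] at c
  linarith

theorem ev2 (c : ℝ) : ∃ y0 : ℕ, ∀ y ≥ y0, c ≤ log (y : ℕ) :=
  eventually_atTop.1 ((tendsto_log_atTop.comp tendsto_natCast_atTop_atTop).eventually_ge_atTop c)

end EPNc

open EPNc in
theorem p_EPN (hCHB : S_CHB) :
    S_EPN := by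
  intro b S j0 δ hb hS hδ
  obtain ⟨y1, h1⟩ := hCHB
  obtain ⟨η, hη, hη1, hηδ⟩ : ∃ η : ℝ, 0 < η ∧ η ≤ 1 ∧ 3 * η ≤ δ :=
    ⟨min 1 (δ / 3), by positivity, min_le_left _ _, by linarith [min_le_right 1 (δ / 3)]⟩
  obtain ⟨m0, hm0⟩ := ev1 (log S) η hη
  obtain ⟨y2, hy2⟩ := ev2 (3 / η)
  refine ⟨y1 + y2 + b + (m0 + j0 + 4 * b) ^ 5, fun y hy => ⟨by omega, fun m hm5 hm4 => ?_⟩⟩
  have hm : m0 + j0 + 4 * b ≤ m :=
    (Nat.pow_le_pow_iff_left (by norm_num : 5 ≠ 0)).1 (le_trans (by omega) hm5)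
  have hy1 : 1 < y := by omega
  have hN : 1 < S * b ^ m := lt_of_lt_of_le (Nat.one_lt_pow (by omega) hb)
    (Nat.le_mul_of_pos_left _ hS)
  have hr := Nat.clog_pos hy1 hN
  have hlt := Nat.pow_pred_clog_lt_self hy1 hN
  have hle := Nat.le_pow_clog hy1 (S * b ^ m)
  obtain ⟨r, e⟩ := Nat.exists_eq_add_of_le' hr
  rw [e] at hlt hle
  have hy0 : (1 : ℝ) < y := by exact_mod_cast hy1
  have hL : 0 < log y := log_pos hy0
  have hb0 : (2 : ℝ) ≤ b := by exact_mod_cast hb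
  have hS0 : (0 : ℝ) < S := by exact_mod_cast hS
  have a1 : r * log y ≤ log S + m * log b := by
    rw [← log_pow, ← log_pow, ← log_mul hS0.ne' (by positivity)]
    exact log_le_log (by positivity) (by exact_mod_cast hlt.le)
  have a2 : log y ≤ 5 * log m := by
    have := log_le_log (by linarith) (show (y : ℝ) ≤ (m : ℝ) ^ 5 by exact_mod_cast hm5)
    rwa [log_pow] at this
  have a3 := hm0 m (by omega)
  have hl2 := log_two_gt_d9
  have hl2' := log_two_lt_d9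
  have a4 : 1 / 2 ≤ log b := by linarith [log_le_log two_pos hb0]
  have hm1 : (4 * b : ℝ) ≤ m := by exact_mod_cast (by omega : 4 * b ≤ m)
  have a5 : η * m / 2 ≤ η * (m * log b) := by
    have : (m : ℝ) * (1 / 2) ≤ m * log b := mul_le_mul_of_nonneg_left a4 (by linarith)
    nlinarith
  have hM : 0 ≤ m * log b := mul_nonneg (by linarith) (by linarith)
  have a6 : ((r + 1 : ℕ) : ℝ) * log y ≤ (1 + η) * (m * log b) := by push_cast; linarith
  refine ⟨by omega, r + 1, r.succ_pos, ?_, hle, ?_⟩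
  · have c1 := (h1 y (by omega)).2.2.1
    have c2 : log b ≤ b := by linarith [log_le_sub_one_of_pos (show (0 : ℝ) < b by linarith)]
    have c3 : (m : ℝ) ^ 2 ≤ y := by
      exact_mod_cast le_trans (Nat.pow_le_pow_right (by omega) (by norm_num)) hm4
    have c4 : ((r + 1 : ℕ) : ℝ) * log y ≤ (Qy y).card * log y := by nlinarith
    exact_mod_cast le_of_mul_le_mul_right c4 hL
  · have c1 := hy2 y (by omega)
    rw [div_le_iff₀ hη] at c1
    have c2 : log (4 * y) + log 2 ≤ (1 + η) * log y := by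
      rw [log_mul (by norm_num) (by linarith), show (4 : ℝ) = 2 ^ 2 by norm_num, log_pow]
      push_cast; linarith
    calc ((r + 1 : ℕ) : ℝ) * (log (4 * y) + log 2) ≤ (r + 1 : ℕ) * ((1 + η) * log y) := by gcongr
      _ = (1 + η) * ((r + 1 : ℕ) * log y) := by ring
      _ ≤ (1 + η) * ((1 + η) * (m * log b)) := by gcongr
      _ = (1 + η) * (1 + η) * (m * log b) := by ring
      _ ≤ (1 + δ) * (m * log b) := mul_le_mul_of_nonneg_right (by nlinarith) hM

end Pool.Agent.P.MP_7b3100_nt.DZ
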