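import Pool.Agent.P.MP_7b3100_nt.DZ.If

/-! Step EV. -/

namespace Pool.Agent.P.MP_7b3100_nt.DZ

open Finset Real Pool.Agent.P.MP_bf60a1_an.RA
open Pool.Agent.P.MP_e94e4b_nt (ee)

namespace EVc

theorem sum_sub {I S : Finset ℕ} (h : I ⊆ S) (f : ℕ → ℝ) :
    ∑ i ∈ I, f i = ∑ i ∈ S, ind (i ∈ I) * f i := by
  rw [← sum_subset h fun i _ hi => by rw [ind_neg hi, zero_mul]]
  exact sum_congr rfl fun i hi => by rw [ind_pos hi, one_mul]

theorem near (S : Finset ℕ) (i j : ℕ) : ∑ i' ∈ S, ind (i' < i + j ∧ i < i' + j) ≤ 2 * j := by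
  have h1 : ∑ i' ∈ S, ind (i' < i + j ∧ i < i' + j) =
      ((S.filter fun i' => i' < i + j ∧ i < i' + j).card : ℝ) := by
    rw [card_filter]
    push_cast
    refine sum_congr rfl fun i' _ => ?_
    split_ifs with h
    exacts [ind_pos h, ind_neg h]
  have h2 : (S.filter fun i' => i' < i + j ∧ i < i' + j).card ≤ 2 * j :=
    (card_le_card (t := Ico (i - j) (i + j)) fun i' hi => by
      have := (mem_filter.1 hi).2
      rw [mem_Ico]; omega).trans (by rw [Nat.card_Ico]; omega)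
  rw [h1]
  exact_mod_cast h2

theorem total (S : Finset ℕ) (m j : ℕ) (lam : ℝ) (e : ℕ → ℝ) (hS : S.card ≤ m) (hl : 0 ≤ lam)
    (he : ∀ i, 0 ≤ e i) :
    ∑ i ∈ S, ∑ i' ∈ S, (ind (i' < i + j ∧ i < i' + j) + lam + e i + e i') ≤
      2 * m * j + m ^ 2 * lam + 2 * m * ∑ i ∈ S, e i := by
  have h1 : (S.card : ℝ) ≤ m := by exact_mod_cast hS
  have h2 : 0 ≤ ∑ i ∈ S, e i := sum_nonneg fun i _ => he i
  have h3 : ∑ i ∈ S, ∑ i' ∈ S, ind (i' < i + j ∧ i < i' + j) ≤ S.card * (2 * j) := by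
    simpa using sum_le_card_nsmul S _ _ fun i _ => near S i j
  have h4 : (S.card : ℝ) * (S.card * lam) ≤ m * (m * lam) := by gcongr
  have h5 : (S.card : ℝ) * (2 * j) ≤ m * (2 * j) := by gcongr
  have h6 : (S.card : ℝ) * ∑ i ∈ S, e i ≤ m * ∑ i ∈ S, e i := by gcongr
  simp only [sum_add_distrib, sum_const, nsmul_eq_mul, ← mul_sum]
  linarith

end EVc

theorem p_EV (hRHO : S_RHO) (hEVA : S_EVA) :
    S_EV := by
  intro Ω _ P F b m j q G lam Y hq hb hl hj
  obtain ⟨r1, r2, r3⟩ := hRHO q Y hq.pos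
  set e : ℕ → ℝ := fun i => P.pr fun ω => Exc (P.cv (fun x => hi b m j i (F x)) (hi b m j i (F ω)))
    (fun x => lo b m j i (F x)) (G i (hi b m j i (F ω))) lam q with he
  have he0 : ∀ i, 0 ≤ e i := fun i => P.pr_nonneg _
  have hβ : (0 : ℝ) ≤ Y.card / q := by positivity
  have h1 : (P.E fun ω => var (sig b q m (F ω)) (gd b m j G (F ω)) Y) =
      ∑ i ∈ Icc j m, ∑ i' ∈ Icc j m, P.E fun ω => ind (i ∈ gd b m j G (F ω)) *
        ind (i' ∈ gd b m j G (F ω)) * rho Y (sig b q m (F ω) i - sig b q m (F ω) i') := by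
    simp only [← FP.E_sum]
    refine P.E_congr fun ω _ => ?_
    have hs : gd b m j G (F ω) ⊆ Icc j m := filter_subset _ _
    rw [r3, EVc.sum_sub hs]
    refine sum_congr rfl fun i _ => ?_
    rw [EVc.sum_sub hs, mul_sum]
    exact sum_congr rfl fun i' _ => (mul_assoc _ _ _).symm
  rw [h1]
  refine le_trans ?_ (mul_le_mul_of_nonneg_left
    (EVc.total (Icc j m) m j lam e (by rw [Nat.card_Icc]; omega) hl he0) hβ)
  simp only [mul_sum]
  refine sum_le_sum fun i hi => sum_le_sum fun i' hi' => ?_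
  have a1 := he0 i
  have a2 := he0 i'
  have a3 := ind_nonneg (i' < i + j ∧ i < i' + j)
  by_cases c1 : i + j ≤ i'
  · exact (hEVA Ω P F b m j q i i' G lam Y hq hb hl (mem_Icc.1 hi).1 c1 (mem_Icc.1 hi').2).trans
      (mul_le_mul_of_nonneg_left (by change lam + e i' ≤ _; linarith) hβ)
  by_cases c2 : i' + j ≤ i
  · refine le_trans (le_of_eq (P.E_congr fun ω _ => ?_))
      ((hEVA Ω P F b m j q i' i G lam Y hq hb hl (mem_Icc.1 hi').1 c2 (mem_Icc.1 hi).2).trans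
        (mul_le_mul_of_nonneg_left (by change lam + e i ≤ _; linarith) hβ))
    rw [← r2, neg_sub, mul_comm (ind _) (ind _)]
  · refine P.E_le fun ω _ => ?_
    rw [ind_pos (by omega : i' < i + j ∧ i < i' + j), ← ind_and]
    have b1 := abs_le.1 (r1 (sig b q m (F ω) i - sig b q m (F ω) i'))
    have b2 := ind_nonneg (i ∈ gd b m j G (F ω) ∧ i' ∈ gd b m j G (F ω))
    have b3 := ind_le_one (i ∈ gd b m j G (F ω) ∧ i' ∈ gd b m j G (F ω))
    have b4 : 0 ≤ Y.card / q * (lam + e i + e i') := by positivity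
    nlinarith

end Pool.Agent.P.MP_7b3100_nt.DZ
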