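import Pool.Agent.P.MP_7b3100_nt.DZ.If

/-! Step EVA. -/

namespace Pool.Agent.P.MP_7b3100_nt.DZ

open Finset Real Pool.Agent.P.MP_bf60a1_an.RA
open Pool.Agent.P.MP_e94e4b_nt (ee)

namespace EVAc

theorem div_eq {b m j i i' : ℕ} (h1 : i + j ≤ i') (h2 : i' ≤ m) (f : ℕ) :
    f / b ^ (m - i) = hi b m j i' f / b ^ (i' - j - i) := by
  rw [hi, Nat.div_div_eq_div_mul, Nat.div_div_eq_div_mul, ← pow_add, ← pow_add]
  congr 2
  omega

theorem cut (b m j i f : ℕ) : f / b ^ (m - i) = b ^ j * hi b m j i f + lo b m j i f :=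
  (Nat.div_add_mod _ _).symm

theorem mem_gd {b m j i f : ℕ} {G : ℕ → ℕ → Finset ℕ} (h1 : j ≤ i) (h2 : i ≤ m) :
    i ∈ gd b m j G f ↔ lo b m j i f ∈ G i (hi b m j i f) := by
  simp [gd, h1, h2]

end EVAc

theorem p_EVA (hRHO : S_RHO) (hVF : S_VF) :
    S_EVA := by
  intro Ω _ P F b m j q i i' G lam Y hq hb hl h1 h2 h3
  have : Fact q.Prime := ⟨hq⟩
  have h0 : (b : ZMod q) ≠ 0 := fun e =>
    (hq.coprime_iff_not_dvd.1 hb.symm) ((ZMod.natCast_eq_zero_iff _ _).1 e)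
  set V : Ω → ℕ := fun x => hi b m j i' (F x) with hV
  set L : Ω → ℕ := fun x => lo b m j i' (F x) with hL
  let g : ℕ → ℝ := fun u => ind (u / b ^ (i' - j - i) % b ^ j ∈ G i (u / b ^ (i' - j - i) / b ^ j))
  let c : ZMod q := (b : ZMod q)⁻¹ ^ i'
  let t : ℕ → ZMod q := fun u =>
    -((u / b ^ (i' - j - i) : ℕ) : ZMod q) * (b : ZMod q)⁻¹ ^ i + (b : ZMod q) ^ j * u * c
  have hc : c ≠ 0 := pow_ne_zero _ (inv_ne_zero h0)
  let Fn : ℕ → Ω → ℝ := fun u ω => g u * (ind (L ω ∈ G i' u) * rho Y (t u + c * L ω))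
  have e : ∀ ω, ind (i ∈ gd b m j G (F ω)) * ind (i' ∈ gd b m j G (F ω)) *
      rho Y (sig b q m (F ω) i - sig b q m (F ω) i') = Fn (V ω) ω := fun ω => by
    have a1 : ind (i ∈ gd b m j G (F ω)) = g (V ω) := by
      refine ind_congr ((EVAc.mem_gd h1 (by omega)).trans ?_)
      rw [lo, hi, EVAc.div_eq h2 h3]
    have a2 : ind (i' ∈ gd b m j G (F ω)) = ind (L ω ∈ G i' (V ω)) :=
      ind_congr (EVAc.mem_gd (by omega) h3)
    have a3 : sig b q m (F ω) i - sig b q m (F ω) i' = t (V ω) + c * L ω := by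
      rw [sig, sig, EVAc.div_eq h2 h3, EVAc.cut b m j i' (F ω)]
      simp only [t, c, hV, hL]
      push_cast
      ring
    rw [a1, a2, a3, mul_assoc]
  have hY : (0 : ℝ) ≤ Y.card / q := by positivity
  simp only [e]
  rw [← P.tower V Fn]
  refine (P.E_mono (g := fun ω => Y.card / q *
    (lam + ind (Exc (P.cv V (V ω)) L (G i' (V ω)) lam q))) fun ω _ => ?_).trans_eq
      (by rw [FP.E_mul_left, FP.E_add, FP.E_const]; rfl)
  simp only [Fn]
  rw [FP.E_mul_left]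
  have g0 : 0 ≤ g (V ω) := ind_nonneg _
  have g1 : g (V ω) ≤ 1 := ind_le_one _
  have key : ∀ x y : ℝ, 0 ≤ y → x ≤ y → g (V ω) * x ≤ y := fun x y hy h =>
    (mul_le_mul_of_nonneg_left h g0).trans (mul_le_of_le_one_left hy g1)
  by_cases hE : Exc (P.cv V (V ω)) L (G i' (V ω)) lam q
  · rw [ind_pos hE]
    refine key _ _ (by positivity) (FP.E_le _ fun x _ => ?_)
    have r := (le_abs_self _).trans ((hRHO q Y hq.pos).1 (t (V ω) + c * L x))
    have := (mul_le_mul_of_nonneg_left r (ind_nonneg (L x ∈ G i' (V ω)))).trans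
      (mul_le_of_le_one_left hY (ind_le_one _))
    nlinarith [mul_nonneg hY hl]
  · rw [ind_neg hE, add_zero]
    refine key _ _ (by positivity) ?_
    rw [mul_comm]
    exact (le_abs_self _).trans (hVF Ω _ L _ lam q Y _ c hq hc hE)

end Pool.Agent.P.MP_7b3100_nt.DZ
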