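import Pool.Agent.P.MP_7b3100_nt.DZ.If

/-! Step FG. -/

namespace Pool.Agent.P.MP_7b3100_nt.DZ

open Finset Real Pool.Agent.P.MP_bf60a1_an.RA
open Pool.Agent.P.MP_e94e4b_nt (ee)

namespace FGc

theorem uu_le {a d ρ ξ : ℝ} (h : ρ ≤ 1) : uu a d ρ ξ ≤ 1 := by
  unfold uu
  split_ifs
  · exact le_rfl
  · exact h
  · exact zero_le_one

theorem arith {d h n g T p u H ε lg : ℝ} (hd : 0 < d) (hh : 0 < h) (hn : 0 ≤ n) (hg : 0 ≤ g)
    (hu : 0 ≤ u) (hε : ε = d ^ 2 * h / (16 * (n + 1))) (h1 : d * T / 4 * p ≤ u)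
    (h2 : h * g / 4 ≤ lg) (h3 : lg * u + H ≤ T * ((h + ε) * (g + n * g))) :
    (g + n * g) * T * p ≤ (g + n * g) * T * d +
      16 * (n + 1) / (d * h) * (h * ((g + n * g) * T) - H) := by
  have hn1 : 0 < n + 1 := by linarith
  have hC : 0 ≤ 16 * (n + 1) / (d * h) := by positivity
  have h4 : h * g / 4 * u ≤ (h * ((g + n * g) * T) - H) + ε * ((g + n * g) * T) := by
    have := mul_le_mul_of_nonneg_right h2 hu
    nlinarith
  have h5 := mul_le_mul_of_nonneg_left h4 hC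
  have h6 : 16 * (n + 1) / (d * h) * ε = d := by rw [hε]; field_simp
  have h7 : 16 * (n + 1) / (d * h) * (h * g / 4 * u) = 4 * (n + 1) * g / d * u := by
    field_simp; ring
  have h8 : (g + n * g) * T * p = 4 * (n + 1) * g / d * (d * T / 4 * p) := by
    field_simp; ring
  have h9 := mul_le_mul_of_nonneg_left h1 (show 0 ≤ 4 * (n + 1) * g / d by positivity)
  rw [h7, mul_add (16 * (n + 1) / (d * h)), ← mul_assoc _ ε, h6] at h5
  linarith

end FGc

theorem p_FG (hFLAT : S_FLAT) (hGOOD : S_GOOD) (hFGP : S_FGP) :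
    S_FG := by
  classical
  intro b h δ H hδ
  have hb := H.hb
  have hh := H.pos
  set d := min δ 1 with hd
  have hd0 : 0 < d := lt_min hδ one_pos
  have hdδ : d ≤ δ := min_le_left _ _
  obtain ⟨C0, hC0, hF⟩ := hFLAT
  obtain ⟨n, hn, hP⟩ := hFGP b C0 d hb hC0 hd0 (min_le_right _ _)
  obtain ⟨n0, hn0⟩ := H.lim (d ^ 2 * h / (16 * (n + 1))) (by positivity)
  obtain ⟨g1, hg1⟩ := exists_nat_ge (4 * log 6 / h)
  set g := n0 + g1 + 1 with hg
  have hg0 : 0 < g := by omega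
  have hg6 : 4 * log 6 ≤ h * g := by
    rw [div_le_iff₀ hh] at hg1
    have : (g1 : ℝ) ≤ g := by exact_mod_cast (by omega : g1 ≤ g)
    nlinarith
  obtain ⟨A, ρ, hA, hρ0, hρ1, h1, h2, h3⟩ := hP g hg0
  set B := b ^ (g + n * g) with hB
  have hB0 : 0 < B := by positivity
  have hk : (0 : ℝ) < (B ^ 2 : ℕ) := by positivity
  set θ : ℝ := ρ ^ (2 / ((B ^ 2 : ℕ) : ℝ)) with hθ
  have hθ0 : 0 < θ := rpow_pos_of_pos hρ0 _
  have hθ1 : θ ≤ 1 := rpow_le_one hρ0.le hρ1 (by positivity)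
  have hθρ : ∀ m : ℕ, B ^ 2 ≤ 2 * m → θ ^ m ≤ ρ := fun m hm => by
    rw [hθ, ← rpow_mul_natCast hρ0.le]
    refine (rpow_le_rpow_of_exponent_ge hρ0 hρ1 ?_).trans (rpow_one ρ).le
    rw [div_mul_eq_mul_div, le_div_iff₀ hk, one_mul]
    exact_mod_cast hm
  refine ⟨g + n * g, B ^ 2, 16 * (n + 1) / (d * h), by omega, by positivity, by positivity, ?_⟩
  rintro Ω _ P X j ⟨T, rfl⟩ hX
  have hlt : ∀ ω, 0 < P.p ω → X ω < B ^ T := fun ω hω => by
    rw [hB, ← pow_mul]; exact hX.lt ω hω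
  let G := (range (b ^ ((g + n * g) * T))).filter
    fun x => (nb B (b ^ (n * g)) T P X x : ℝ) ≤ d * T / 4
  refine ⟨G, fun x hx => mem_range.1 (mem_filter.1 hx).1, ?_, fun x => ?_⟩
  · have a1 : d * T / 4 * (P.pr fun ω => X ω ∉ G) ≤
        P.E fun ω => nb B (b ^ (n * g)) T P X (X ω) := by
      rw [FP.pr, ← FP.E_mul_left]
      refine P.E_mono fun ω hω => ?_
      by_cases c : X ω ∈ G
      · rw [ind_neg (not_not.2 c), mul_zero]; positivity
      · rw [ind_pos c, mul_one]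
        exact le_of_not_ge fun c' => c (mem_filter.2 ⟨mem_range.2 (hX.lt ω hω), c'⟩)
    have a2 : h * g / 4 ≤ lp b g / 2 - log 6 := by linarith [H.le g]
    have a3 := hGOOD Ω b g (n * g) T P X hX
    have a4 := hn0 g (by omega)
    have a5 := hn0 (n * g) (le_trans (by omega) (Nat.le_mul_of_pos_left g hn))
    have a6 := FGc.arith (T := T) (H := P.H X) hd0 hh (Nat.cast_nonneg n) (Nat.cast_nonneg g)
      (P.E_nonneg fun _ _ => Nat.cast_nonneg _) rfl a1 a2 (a3.trans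
        (mul_le_mul_of_nonneg_left (by push_cast at a5; linarith) (Nat.cast_nonneg T)))
    push_cast
    have a7 : ((g : ℝ) + n * g) * T * d ≤ (g + n * g) * T * δ :=
      mul_le_mul_of_nonneg_left hdδ (by positivity)
    linarith
  · have b1 := hF Ω B (b ^ (n * g)) (b ^ g) A ρ θ (by rw [hB, pow_add, mul_comm]) hB0 hA h1 h2 hρ1
      hθ0.le hθ1 hθρ T (fun _ => P) (fun _ => X) x (fun _ => hlt)
    have b2 : ρ ^ (d * T / 2) * cv P X G (B ^ 2) x ≤ (2 * ρ) ^ T := by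
      refine le_trans ?_ (b1.trans (mul_le_of_le_one_right (by positivity) (FGc.uu_le hρ1)))
      rw [cv, pi_eq_pis, FP.pr, ← FP.E_mul_left]
      refine FP.E_mono _ fun ω _ => ?_
      by_cases c : (∀ i, X (ω i) ∈ G) ∧ ∑ i, X (ω i) = x
      · rw [ind_pos c, ind_pos (by exact_mod_cast c.2), mul_one, one_mul]
        have e : ρ ^ (d * T / 2) = ∏ _i : Fin (B ^ 2), θ ^ (d * T / 4) := by
          rw [prod_const, card_univ, Fintype.card_fin, hθ, ← rpow_mul hρ0.le,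
            ← rpow_mul_natCast hρ0.le]
          congr 1
          field_simp
          norm_num
        rw [e]
        refine prod_le_prod (fun _ _ => by positivity) fun i _ => ?_
        rw [← rpow_natCast]
        exact rpow_le_rpow_of_exponent_ge hθ0 hθ1 (mem_filter.1 (c.1 i)).2
      · rw [ind_neg c, mul_zero]
        exact mul_nonneg (ind_nonneg _) (prod_nonneg fun _ _ => by positivity)
    rw [← le_div_iff₀' (rpow_pos_of_pos hρ0 _)] at b2
    refine b2.trans ?_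
    rw [← exp_log (show 0 < 2 * ρ by positivity), ← exp_nat_mul, rpow_def_of_pos hρ0, ← exp_sub,
      log_mul two_ne_zero hρ0.ne', exp_le_exp]
    have b3 := mul_le_mul_of_nonneg_left h3 (Nat.cast_nonneg T)
    have b4 : 0 ≤ (((g + n * g) * T : ℕ) : ℝ) * log b :=
      mul_nonneg (Nat.cast_nonneg _) (log_natCast_nonneg b)
    have b5 := mul_le_mul_of_nonneg_right hdδ b4
    push_cast at b3 b5 ⊢
    linarith

end Pool.Agent.P.MP_7b3100_nt.DZ
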