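import Pool.Agent.P.MP_7b3100_nt.DZ.If

/-! Step FGP. -/

namespace Pool.Agent.P.MP_7b3100_nt.DZ

open Finset Real Pool.Agent.P.MP_bf60a1_an.RA
open Pool.Agent.P.MP_e94e4b_nt (ee)

theorem p_FGP :
    S_FGP := by
  intro b C δ hb hC hδ hδ1
  obtain ⟨n, hn⟩ := exists_nat_gt (768 * C / δ ^ 2 + 8 / δ)
  have h0 : 0 < 768 * C / δ ^ 2 := by positivity
  have h8 : 0 < 8 / δ := by positivity
  have hn0 : (0 : ℝ) < n := by linarith
  refine ⟨n, by exact_mod_cast hn0, fun g hg => ?_⟩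
  have hb0 : (2 : ℝ) ≤ b := by exact_mod_cast hb
  have hl : 1 / 2 ≤ log (b : ℝ) :=
    le_trans (by have := log_two_gt_d9; linarith) (log_le_log two_pos hb0)
  have hg1 : (1 : ℝ) ≤ g := by exact_mod_cast hg
  have hpow : ∀ k : ℕ, ((b ^ k : ℕ) : ℝ) = exp (k * log b) := fun k => by
    rw [exp_nat_mul, exp_log (by linarith)]
    push_cast
    rfl
  obtain ⟨u, hu⟩ : ∃ u : ℝ, u = g * log b := ⟨_, rfl⟩
  obtain ⟨x, hx⟩ : ∃ x : ℝ, x = ((g + n * g : ℕ) : ℝ) * log b := ⟨_, rfl⟩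
  have hu1 : 1 / 2 ≤ u := by rw [hu]; nlinarith
  have hxu : x = (n + 1) * u := by rw [hx, hu]; push_cast; ring
  have h1 : 8 ≤ δ * (n + 1) := by
    have : 8 / δ ≤ n + 1 := by linarith
    rw [div_le_iff₀ hδ] at this
    linarith
  have h2 : 768 * C ≤ δ ^ 2 * (n + 1) := by
    have : 768 * C / δ ^ 2 ≤ n + 1 := by linarith
    rw [div_le_iff₀ (by positivity)] at this
    linarith
  have h3 : 8 * u ≤ δ * x := by rw [hxu]; nlinarith
  have h4 : 384 * C ≤ δ ^ 2 * x := by rw [hxu]; nlinarith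
  have hx0 : 0 < x := by rw [hxu]; positivity
  have h5 : 4 ≤ x := by nlinarith
  have hs := sq_sqrt hx0.le
  have hs0 := sqrt_nonneg x
  refine ⟨1 + 2 * √x, exp (-((1 - δ / 4) * x)), by linarith, exp_pos _,
    exp_le_one_iff.2 (by nlinarith), ?_, ?_, ?_⟩
  · rw [hpow, hpow, ← hu, ← hx, ← exp_add]
    have h6 : 1 + 2 * √x ≤ 3 * x := by nlinarith [sq_nonneg (√x - 1)]
    have h7 := quadratic_le_exp_of_nonneg (x := δ * x / 8) (by positivity)
    have h9 : C * (1 + 2 * √x) ≤ exp (δ * x / 8) := by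
      have : C * (1 + 2 * √x) ≤ C * (3 * x) := mul_le_mul_of_nonneg_left h6 hC.le
      have h10 : 384 * C * x ≤ δ ^ 2 * x * x := mul_le_mul_of_nonneg_right h4 hx0.le
      have h11 : 0 ≤ δ * x := by positivity
      nlinarith
    calc C * (1 + 2 * √x) * exp u ≤ exp (δ * x / 8) * exp u :=
          mul_le_mul_of_nonneg_right h9 (exp_pos _).le
      _ ≤ _ := by
          rw [← exp_add]
          exact exp_le_exp.2 (by linarith)
  · rw [← exp_nat_mul]
    refine exp_le_exp.2 ?_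
    have : 0 ≤ δ * x := by positivity
    push_cast
    nlinarith
  · rw [log_exp, ← hx]
    have h6 := log_two_lt_d9
    have h7 : 0 ≤ δ * (δ * x) := by positivity
    nlinarith

end Pool.Agent.P.MP_7b3100_nt.DZ
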