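import Pool.Agent.P.MP_7b3100_nt.DZ.If

/-! Step FLAT. -/

namespace Pool.Agent.P.MP_7b3100_nt.DZ

open Finset Real Pool.Agent.P.MP_bf60a1_an.RA
open Pool.Agent.P.MP_e94e4b_nt (ee)

namespace FLATc

theorem uu_nonneg {a d ρ : ℝ} (h : 0 ≤ ρ) (ξ : ℝ) : 0 ≤ uu a d ρ ξ := by
  unfold uu; split_ifs <;> first | exact h | norm_num

theorem close {Ω : Type} [Fintype Ω] (P : FP Ω) (X : Ω → ℕ) (M : ℕ)
    (h : ∀ ω, 0 < P.p ω → X ω < M) {ω : Ω} (hω : 0 < P.p ω) :
    |(X ω : ℝ) - P.E fun ω => X ω| ≤ M := by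
  have h1 : 0 ≤ P.E fun ω => (X ω : ℝ) := P.E_nonneg fun _ _ => Nat.cast_nonneg _
  have h2 : (P.E fun ω => (X ω : ℝ)) ≤ M := P.E_le fun ω hω => mod_cast (h ω hω).le
  have h3 : (X ω : ℝ) ≤ M := mod_cast (h ω hω).le
  have h4 : (0 : ℝ) ≤ X ω := Nat.cast_nonneg _
  rw [abs_le]; constructor <;> linarith

open Classical in
theorem prod_br {ι : Type} [Fintype ι] (s : ι → Prop) (θ : ℝ) :
    ∏ i, θ ^ (if s i then 0 else 1) = θ ^ (Fintype.card ι - (univ.filter s).card) := by
  rw [prod_pow_eq_pow_sum, ← card_univ, ← card_filter_add_card_filter_not s,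
    Nat.add_sub_cancel_left, card_filter]
  congr 1
  exact sum_congr rfl fun i _ => by by_cases h : s i <;> simp [h]

end FLATc

open FLATc Classical in
theorem p_FLAT (hFST : S_FST) (hCM : S_CM) :
    S_FLAT := by
  obtain ⟨C, hC, hF⟩ := hFST
  refine ⟨C, hC, fun Ω _ B D N A ρ θ hB hB0 hA hρ hexp hρ1 hθ0 hθ1 hθ T => ?_⟩
  have hD : 0 < D := Nat.pos_of_mul_pos_right (hB ▸ hB0 : 0 < D * N)
  have hBr : (0 : ℝ) < B := mod_cast hB0
  have hρ0 : 0 ≤ ρ := by
    have : 0 ≤ C * A * N := by positivity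
    exact nonneg_of_mul_nonneg_left (this.trans hρ) hBr
  induction T with
  | zero =>
    intro P X x hX
    have h0 : ∀ i ω, 0 < (P i).p ω → X i ω = 0 := fun i ω h => by simpa using hX i ω h
    have hE : ∀ i, ((P i).E fun ω => (X i ω : ℝ)) = 0 := fun i =>
      ((P i).E_congr fun ω h => by rw [h0 i ω h, Nat.cast_zero]).trans ((P i).E_const 0)
    refine (pis P).E_le fun ω hω => ?_
    simp only [nb, pow_zero, prod_const_one, mul_one, one_mul, hE, sum_const_zero, sub_zero]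
    by_cases hx : ∑ i, (X i (ω i) : ℝ) = x
    · rw [ind_pos hx, ← hx, sum_eq_zero fun i _ => by rw [h0 i _ (pis_pos hω i), Nat.cast_zero],
        uu, if_pos (by rw [abs_zero]; positivity)]
    · rw [ind_neg hx]; exact uu_nonneg hρ0 _
  | succ T ih =>
    intro P X x hX
    by_cases hfar : (B : ℝ) ^ 2 * B ^ (T + 1) < |x - ∑ i, (P i).E fun ω => (X i ω : ℝ)|
    · refine ((pis P).E_le fun ω hω => ?_).trans
        (mul_nonneg (by positivity) (uu_nonneg hρ0 _))
      rw [ind_neg, zero_mul]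
      intro hx
      rw [← hx, ← sum_sub_distrib] at hfar
      refine hfar.not_ge ((abs_sum_le_sum_abs _ _).trans ((sum_le_sum fun i _ =>
        close (P i) (X i) _ (hX i) (pis_pos hω i)).trans ?_))
      simp
    have hW : 0 < B ^ T := by positivity
    have hWr : (0 : ℝ) < (B : ℝ) ^ T := by positivity
    have hcm := fun i => hCM Ω (P i) (X i) (B ^ T) D hW hD
    have key := hF Ω B D N A ρ θ ((B : ℝ) ^ T) x P (fun i => cm (P i) (X i) (B ^ T))
      (univ.filter fun i => Br (P i) fun ω => X i ω / B ^ T / D) hB hB0 hWr hA hρ hexp hρ1 hθ0 hθ1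
      hθ (fun i ω hω => ?_) (fun i hi => by
        have := (hcm i).2.2 (mem_filter.1 hi).2
        rwa [Nat.cast_pow] at this)
    swap
    · obtain ⟨h1, h2, -⟩ := (hcm i).2.1 ω hω
      refine ⟨le_trans (by positivity) h1, h2.le.trans ?_⟩
      have : X i ω / B ^ T + 1 ≤ B :=
        Nat.div_lt_of_lt_mul (by rw [← pow_succ]; exact hX i ω hω)
      rw [Nat.cast_pow]
      exact mul_le_mul_of_nonneg_right (mod_cast this) hWr.le
    simp only [fun i => (hcm i).1] at key
    have tw := pis_tower P (fun i ω => X i ω / B ^ T) fun y ω =>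
      ind (∑ i, (X i (ω i) : ℝ) = x) *
        ∏ i, θ ^ ((if Br (P i) fun ω => X i ω / B ^ T / D then 0 else 1) +
          nb B D T ((P i).cv (fun ω => X i ω / B ^ T) (y i)) (fun ω => X i ω % B ^ T)
            (X i (ω i) % B ^ T))
    simp only [nb]
    rw [← tw]
    have hb := prod_br (fun i => Br (P i) fun ω => X i ω / B ^ T / D) θ
    rw [Fintype.card_fin] at hb
    refine ((pis P).E_mono (g := fun ω => ((2 * ρ) ^ T *
      θ ^ (B ^ 2 - (univ.filter fun i => Br (P i) fun ω => X i ω / B ^ T / D).card)) *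
      uu (A * B * B ^ T) (B ^ 2 * B ^ T) ρ (x - ∑ i, cm (P i) (X i) (B ^ T) (ω i)))
      fun ω hω => ?_).trans ?_
    · have h1 := ih (fun i => (P i).cv (fun ω => X i ω / B ^ T) (X i (ω i) / B ^ T))
        (fun i ω => X i ω % B ^ T) (x - ∑ i, ((X i (ω i) / B ^ T : ℕ) : ℝ) * (B ^ T : ℕ))
        fun i ω _ => Nat.mod_lt _ hW
      have h2 : x - ∑ i, cm (P i) (X i) (B ^ T) (ω i) =
          x - ∑ i, ((X i (ω i) / B ^ T : ℕ) : ℝ) * (B ^ T : ℕ) -
            ∑ i, ((P i).cv (fun ω => X i ω / B ^ T) (X i (ω i) / B ^ T)).E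
              fun ω => ((X i ω % B ^ T : ℕ) : ℝ) := by
        rw [sub_sub, ← sum_add_distrib]
        congr 1
        exact sum_congr rfl fun i _ => ((hcm i).2.1 _ (pis_pos hω i)).2.2
      rw [h2, mul_comm ((2 * ρ) ^ T), mul_assoc, ← hb]
      refine le_trans (le_of_eq ?_) (mul_le_mul_of_nonneg_left h1
        (prod_nonneg fun i _ => pow_nonneg hθ0 _))
      rw [← FP.E_mul_left]
      refine FP.E_congr _ fun ω' hω' => ?_
      simp only [pow_add, prod_mul_distrib]
      rw [mul_left_comm]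
      congr 2
      have h3 : ∑ i, (X i (ω' i) : ℝ) = ∑ i, ((X i (ω i) / B ^ T : ℕ) : ℝ) * (B ^ T : ℕ) +
          ∑ i, ((X i (ω' i) % B ^ T : ℕ) : ℝ) := by
        rw [← sum_add_distrib]
        refine sum_congr rfl fun i _ => ?_
        have := (P i).cv_eq (pis_pos hω i) (pis_pos hω' i)
        rw [← this]
        exact_mod_cast (Nat.div_add_mod' _ _).symm
      rw [h3]
      exact ind_congr eq_sub_iff_add_eq'.symm
    · rw [FP.E_mul_left, mul_assoc, pow_succ (2 * ρ), mul_assoc ((2 * ρ) ^ T)]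
      refine mul_le_mul_of_nonneg_left (key.trans (le_of_eq ?_)) (by positivity)
      rw [uu, if_pos (not_lt.1 hfar), pow_succ' (B : ℝ) T]

end Pool.Agent.P.MP_7b3100_nt.DZ
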