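import Pool.Agent.P.MP_7b3100_nt.DZ.If

/-! Step FP. -/

namespace Pool.Agent.P.MP_7b3100_nt.DZ

open Finset Real Pool.Agent.P.MP_bf60a1_an.RA
open Pool.Agent.P.MP_e94e4b_nt (ee)

theorem p_FP (hFG : S_FG) (hFPA : S_FPA) :
    S_FP := by
  intro b h H
  obtain ⟨L, k, C, hL, hk, hC, hG⟩ := hFG b h (1 / 100) H (by norm_num)
  have hb := H.hb
  have hb' : (2 : ℝ) ≤ b := by exact_mod_cast hb
  have hk' : (1 : ℝ) ≤ k := by exact_mod_cast hk
  have hlb : log 2 ≤ log b := log_le_log (by norm_num) hb'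
  have hl2 : 0 < log 2 := log_pos (by norm_num)
  have hLb : 0 ≤ L * log b := mul_nonneg (Nat.cast_nonneg _) (hl2.le.trans hlb)
  set A : ℝ := 3 * (k + 16) * exp (L * log b / 100) with hA
  have hA0 : 0 ≤ A := by positivity
  refine ⟨1 / (20 * k), C, (L * log b + 2) / log 2, ⌈exp (3 * A + 1)⌉₊, by positivity,
    one_div_le_one_div_of_le (by norm_num) (by linarith), hC, fun y hy => ?_⟩
  have hy1 : exp (3 * A + 1) ≤ y := Nat.ceil_le.1 hy
  have hy0 : (0 : ℝ) < y := (exp_pos _).trans_le hy1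
  have hu : 3 * A + 1 ≤ log y := (le_log_iff_exp_le hy0).2 hy1
  have hy2 : 1 < y := by
    have : (1 : ℝ) < y := (one_lt_exp_iff.2 (by linarith)).trans_le hy1
    exact_mod_cast this
  have hB : 1 < b ^ L := Nat.one_lt_pow hL.ne' hb
  have hy3 : 1 < y ^ 2 := Nat.one_lt_pow two_ne_zero hy2
  set t := Nat.clog (b ^ L) (y ^ 2) with ht
  have ht0 : 0 < t := Nat.clog_pos hB hy3
  have h1 : y ^ 2 ≤ b ^ (L * t) := by
    rw [pow_mul]
    exact Nat.le_pow_clog hB _
  have h2 : b ^ (L * t) ≤ b ^ L * y ^ 2 := by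
    have h3 := Nat.pow_pred_clog_lt_self hB hy3
    rw [← ht] at h3
    obtain ⟨s, hs⟩ := Nat.exists_eq_succ_of_ne_zero ht0.ne'
    rw [hs, Nat.pred_succ] at h3
    rw [pow_mul, hs, pow_succ, mul_comm]
    exact Nat.mul_le_mul_left _ h3.le
  have h4 : ((L * t : ℕ) : ℝ) * log b ≤ L * log b + 2 * log y := by
    have h5 : ((b : ℝ)) ^ (L * t) ≤ (b : ℝ) ^ L * (y : ℝ) ^ 2 := by exact_mod_cast h2
    have h6 := log_le_log (by positivity) h5
    rwa [log_mul (by positivity) (by positivity), log_pow, log_pow, log_pow, Nat.cast_ofNat] at h6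
  refine ⟨L * t, Nat.mul_pos hL ht0, ?_, fun Ω _ P X hX => ?_⟩
  · rw [div_mul_eq_mul_div, le_div_iff₀ hl2]
    have h5 : ((L * t : ℕ) : ℝ) * log 2 ≤ ((L * t : ℕ) : ℝ) * log b :=
      mul_le_mul_of_nonneg_left hlb (Nat.cast_nonneg _)
    nlinarith [mul_le_mul_of_nonneg_left (show (1 : ℝ) ≤ log y by linarith) hLb]
  obtain ⟨G, hG1, hG2, hG3⟩ := hG Ω P X (L * t) (dvd_mul_right _ _) hX
  refine ⟨G, hG2, ?_⟩
  have h5 := hFPA Ω P X G k (b ^ (L * t)) y _ ((y : ℝ) ^ (-(1 / (20 * (k : ℝ))))) hk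
    (by positivity) hG1 hG3
  set J : ℝ := ((L * t : ℕ) : ℝ) * log b with hJ
  have h6 : ((y : ℝ) ^ (-(1 / (20 * (k : ℝ))))) ^ (2 * k) = exp (-(log y / 10)) := by
    rw [rpow_def_of_pos hy0, ← exp_nat_mul]
    congr 1
    push_cast
    field_simp
    ring
  have h7 : ((b ^ (L * t) : ℕ) : ℝ) = exp J := by
    rw [hJ, exp_nat_mul, exp_log (by linarith), Nat.cast_pow]
  have h8 : (y : ℝ) ^ 2 ≤ exp J := by
    rw [← h7]
    exact_mod_cast h1
  rw [h6, h7] at h5
  have h9 : 3 * (k * exp J + 16 * (y : ℝ) ^ 2) * exp (-((1 - 1 / 100) * J)) ≤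
      A * exp (log y / 50) := by
    calc _ ≤ 3 * (k * exp J + 16 * exp J) * exp (-((1 - 1 / 100) * J)) := by gcongr
      _ = 3 * (k + 16) * exp (J / 100) := by
        rw [show J / 100 = J + -((1 - 1 / 100) * J) by ring, exp_add]
        ring
      _ ≤ 3 * (k + 16) * exp (L * log b / 100 + log y / 50) := by
        gcongr
        linarith
      _ = _ := by rw [exp_add, hA]; ring
  have h10 : A ≤ exp (19 / 50 * log y) := by
    have := add_one_le_exp (19 / 50 * log y)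
    linarith
  refine le_of_mul_le_mul_right (h5.trans (h9.trans ?_)) (exp_pos _)
  rw [sqrt_eq_rpow, rpow_def_of_pos hy0, ← exp_add,
    show log y * (1 / 2) + -(log y / 10) = 19 / 50 * log y + log y / 50 by ring, exp_add]
  gcongr

end Pool.Agent.P.MP_7b3100_nt.DZ
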