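import Pool.Agent.P.MP_7b3100_nt.DZ.If

/-! Step FPA. -/

namespace Pool.Agent.P.MP_7b3100_nt.DZ

open Finset Real Pool.Agent.P.MP_bf60a1_an.RA
open Pool.Agent.P.MP_e94e4b_nt (ee)

theorem p_FPA (hCHK : S_CHK) (hLSQ : S_LSQ) :
    S_FPA := by
  classical
  intro Ω _ P X G k W y η lam hk hlam hG hη
  obtain ⟨h1, h2⟩ := hCHK Ω P X G k W (k * W) hk hG le_rfl
  have hc0 : ∀ x, 0 ≤ cv P X G k x := fun x => FP.pr_nonneg _ _
  have hη0 : 0 ≤ η := (hc0 0).trans (hη 0)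
  have hex : ∀ q ∈ (Qy y).filter (Exc P X G lam),
      ∃ a : ℕ, 0 < a ∧ a < q ∧ lam < ‖ch P X G ((a : ℝ) / q)‖ := fun q hq => (mem_filter.1 hq).2
  choose! a ha using hex
  have h3 := hLSQ y (k * W) _ a (fun x => (cv P X G k x : ℂ)) (filter_subset _ _)
    fun q hq => ⟨(ha q hq).1, (ha q hq).2.1⟩
  have h4 : ∑ x ∈ range (k * W), ‖(cv P X G k x : ℂ)‖ ^ 2 ≤ η := by
    calc _ ≤ ∑ x ∈ range (k * W), η * cv P X G k x := by
          refine sum_le_sum fun x _ => ?_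
          rw [Complex.norm_real, Real.norm_of_nonneg (hc0 x), sq]
          exact mul_le_mul_of_nonneg_right (hη x) (hc0 x)
      _ ≤ η := by rw [← mul_sum]; exact mul_le_of_le_one_right hη0 h2
  calc _ = ∑ q ∈ (Qy y).filter (Exc P X G lam), lam ^ (2 * k) := by
        rw [sum_const, nsmul_eq_mul]
    _ ≤ _ := by
        refine sum_le_sum fun q hq => ?_
        show _ ≤ ‖∑ x ∈ range (k * W), (cv P X G k x : ℂ) * ee (x * ((a q : ℝ) / q))‖ ^ 2
        rw [← h1, norm_pow, ← pow_mul, mul_comm k 2]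
        exact pow_le_pow_left₀ hlam (ha q hq).2.2.le _
    _ ≤ _ := h3
    _ ≤ _ := by
        push_cast
        exact mul_le_mul_of_nonneg_left h4 (by positivity)

end Pool.Agent.P.MP_7b3100_nt.DZ
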