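import Pool.Agent.P.MP_7b3100_nt.DZ.If

/-! Step FST. -/

namespace Pool.Agent.P.MP_7b3100_nt.DZ

open Finset Real Pool.Agent.P.MP_bf60a1_an.RA
open Pool.Agent.P.MP_e94e4b_nt (ee)

namespace FSTc

theorem uu_le_one {a d ρ : ℝ} (ξ : ℝ) (h : ρ ≤ 1) : uu a d ρ ξ ≤ 1 := by
  unfold uu; split_ifs <;> linarith

theorem uu_nonneg {a d ρ : ℝ} (ξ : ℝ) (h : 0 ≤ ρ) : 0 ≤ uu a d ρ ξ := by
  unfold uu; split_ifs <;> linarith

theorem uu_le_near {a d ρ : ℝ} (ξ : ℝ) (h : 0 ≤ ρ) : uu a d ρ ξ ≤ ind (|ξ| ≤ a) + ρ := by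
  unfold uu
  split_ifs with h1 h2
  · rw [ind_pos h1]; linarith
  · rw [ind_neg h1]; linarith
  · rw [ind_neg h1]; linarith

theorem uu_le_far {a d ρ : ℝ} (ξ : ℝ) (h : ρ ≤ 1) (had : a ≤ d) : uu a d ρ ξ ≤ ind (|ξ| ≤ d) := by
  unfold uu
  split_ifs with h1 h2
  · rw [ind_pos (h1.trans had)]
  · rw [ind_pos h2]; exact h
  · exact ind_nonneg _

end FSTc

open FSTc in
theorem p_FST (hONE : S_ONE) (hHOEF : S_HOEF) :
    S_FST := by
  obtain ⟨C1, hC1, hO⟩ := hONE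
  refine ⟨max 1 (6 * C1), lt_max_of_lt_left one_pos, ?_⟩
  intro Ω _ B D N A ρ θ W x P v I hB hB0 hW hA hC he hρ1 hθ0 hθ1 hθ hv hI
  have hN : 1 ≤ N := Nat.pos_of_ne_zero fun e => by simp [e] at hB; omega
  have hD : 1 ≤ D := Nat.pos_of_ne_zero fun e => by simp [e] at hB; omega
  have hN' : (1 : ℝ) ≤ N := mod_cast hN
  have hD' : (0 : ℝ) < D := mod_cast hD
  have hB' : (0 : ℝ) < B := mod_cast hB0
  have hBD : (B : ℝ) = D * N := mod_cast hB
  have hAN : 1 ≤ A * N := one_le_mul_of_one_le_of_one_le hA hN'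
  have hC0 : A * N ≤ ρ * B := by
    refine le_trans ?_ hC
    rw [mul_assoc]
    exact le_mul_of_one_le_left (by linarith) (le_max_left _ _)
  have hC6 : 6 * C1 * (A * N) ≤ ρ * B := by
    refine le_trans ?_ hC
    rw [mul_assoc (max _ _)]
    exact mul_le_mul_of_nonneg_right (le_max_right _ _) (by linarith)
  have hρ0 : 0 < ρ := (mul_pos_iff_of_pos_right hB').1 (by linarith)
  have hAB : A ≤ B := by nlinarith
  have hE0 : 0 ≤ (pis P).E fun ω => uu (A * B * W) (B ^ 2 * W) ρ (x - ∑ i, v i (ω i)) :=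
    FP.E_nonneg _ fun ω _ => uu_nonneg _ hρ0.le
  have hp1 : θ ^ (B ^ 2 - I.card) ≤ 1 := pow_le_one₀ hθ0 hθ1
  split_ifs with hx
  · rw [mul_one]
    by_cases hc : B ^ 2 ≤ 2 * (B ^ 2 - I.card)
    · have h1 := (pis P).E_le (c := 1)
        (f := fun ω => uu (A * B * W) (B ^ 2 * W) ρ (x - ∑ i, v i (ω i))) fun ω _ => uu_le_one _ hρ1
      have h2 := hθ _ hc
      have h3 : 0 ≤ θ ^ (B ^ 2 - I.card) := pow_nonneg hθ0 _
      nlinarith
    · refine (mul_le_of_le_one_left hE0 hp1).trans ?_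
      have h1 := hO Ω (B ^ 2) P v I (A * B * W) (W * D) x (by positivity) (by positivity) hI
      have h2 : (B : ℝ) ^ 2 ≤ 2 * I.card := by
        have : B ^ 2 ≤ 2 * I.card := by omega
        exact_mod_cast this
      have h3 : (B : ℝ) / 2 ≤ √(I.card + 1) := le_sqrt_of_sq_le (by nlinarith)
      have h4 : 2 * (A * B * W) / (W * D) = 2 * (A * N) := by rw [hBD]; field_simp
      have h5 : (2 * (A * B * W) / (W * D) + 1) * C1 / √(I.card + 1) ≤ ρ := by
        rw [h4, div_le_iff₀ (by positivity)]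
        have := mul_le_mul_of_nonneg_left h3 hρ0.le
        nlinarith
      refine ((pis P).E_mono fun ω _ => uu_le_near _ hρ0.le).trans ?_
      rw [FP.E_add, FP.E_const]
      have := h1.trans h5
      unfold FP.pr at this
      linarith
  · refine (mul_le_of_le_one_left hE0 hp1).trans ?_
    have h1 := hHOEF Ω (B ^ 2) P v (B * W) ((A - 1) * (B ^ 2 * W)) (by positivity)
      (mul_nonneg (by linarith) (by positivity)) hv
    have h2 : ((A - 1) * (B ^ 2 * W)) ^ 2 / (2 * ((B ^ 2 : ℕ) : ℝ) * (B * W) ^ 2) =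
        (A - 1) ^ 2 / 2 := by push_cast; field_simp
    rw [h2] at h1
    have had : A * B * W ≤ B ^ 2 * W := by
      have : A * B ≤ B ^ 2 := by nlinarith
      exact mul_le_mul_of_nonneg_right this hW.le
    refine ((pis P).E_mono fun ω _ => uu_le_far _ hρ1 had).trans ?_
    refine le_trans ((pis P).pr_mono (t := fun ω => (A - 1) * (B ^ 2 * W) ≤
      |∑ i, v i (ω i) - ∑ i, (P i).E (v i)|) fun ω _ h => ?_) (h1.trans (by nlinarith))
    have h3 := abs_sub_le x (∑ i, v i (ω i)) (∑ i, (P i).E (v i))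
    have h4 := not_le.1 hx
    nlinarith

end Pool.Agent.P.MP_7b3100_nt.DZ
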