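import Pool.Agent.P.MP_7b3100_nt.DZ.If

/-! Step GIB. -/

namespace Pool.Agent.P.MP_7b3100_nt.DZ

open Finset Real Pool.Agent.P.MP_bf60a1_an.RA
open Pool.Agent.P.MP_e94e4b_nt (ee)

namespace GIBc

theorem mass {Ω Ω' α : Type} [Fintype Ω] [Fintype Ω'] (P : FP Ω) (P' : FP Ω') (T : Ω → ℕ)
    (W : Ω' → α) (f : α → ℕ) (g : α → Prop) [DecidablePred g] {η : ℝ} (hη : 0 < η)
    (h : ∀ x, (P'.pr fun ω => g (W ω) ∧ f (W ω) = x) ≤ η) :
    (P'.E fun ω => if g (W ω) then (P.pr fun x => T x = f (W ω)) / η else 1) ≤ 2 := by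
  have h1 : ∑ a ∈ univ.image T, (P.pr fun x => T x = a) = 1 := by
    have := E_eq_sum P T (univ.image T) (fun ω _ => mem_image_of_mem _ (mem_univ ω)) fun _ => 1
    simpa [FP.E_const] using this.symm
  have h0 : ∀ (ω : Ω') (a : ℕ),
      0 ≤ (P.pr fun x => T x = a) / η * ind (g (W ω) ∧ f (W ω) = a) := fun ω a =>
    mul_nonneg (div_nonneg (P.pr_nonneg _) hη.le) (ind_nonneg _)
  calc (P'.E fun ω => if g (W ω) then (P.pr fun x => T x = f (W ω)) / η else 1)
      ≤ P'.E fun ω => 1 + ∑ a ∈ univ.image T,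
          (P.pr fun x => T x = a) / η * ind (g (W ω) ∧ f (W ω) = a) := by
        refine P'.E_mono fun ω _ => ?_
        have h2 := sum_nonneg fun a (_ : a ∈ univ.image T) => h0 ω a
        split_ifs with hg
        · by_cases hm : f (W ω) ∈ univ.image T
          · have := single_le_sum (fun a (_ : a ∈ univ.image T) => h0 ω a) hm
            rw [ind_pos ⟨hg, rfl⟩, mul_one] at this
            linarith
          · rw [P.pr_eq_zero (s := fun x => T x = f (W ω)) fun x _ e =>
              hm (mem_image.2 ⟨x, mem_univ x, e⟩), zero_div]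
            linarith
        · linarith
    _ ≤ 1 + ∑ a ∈ univ.image T, (P.pr fun x => T x = a) := by
        rw [FP.E_add, FP.E_const, FP.E_sum]
        refine add_le_add_right (sum_le_sum fun a _ => ?_) _
        rw [FP.E_mul_left]
        calc _ ≤ (P.pr fun x => T x = a) / η * η :=
              mul_le_mul_of_nonneg_left (h a) (div_nonneg (P.pr_nonneg _) hη.le)
          _ = _ := div_mul_cancel₀ _ hη.ne'
    _ = 2 := by rw [h1]; norm_num

end GIBc

theorem p_GIB :
    S_GIB := by
  classical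
  intro Ω _ P S D f g η hη h
  set φ : (Fin S → ℕ) → ℝ := fun d =>
    if g d then (P.pr fun x => f (fun i => D i x) = f d) / η else 1 with hφ
  have hφ0 : ∀ d, 0 ≤ φ d := fun d => by
    simp only [hφ]
    split_ifs
    · exact div_nonneg (P.pr_nonneg _) hη.le
    · exact zero_le_one
  have hc : ∀ ω, 0 < P.p ω → 0 < P.cl (fun x => f fun i => D i x) ω := fun ω hω => P.cl_pos _ hω
  have hφ1 : ∀ ω, 0 < P.p ω → 0 < φ fun i => D i ω := fun ω hω => by
    simp only [hφ]
    split_ifs
    · exact div_pos (hc ω hω) hη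
    · exact one_pos
  have hp : ∀ ω, 0 < P.p ω → 0 < ∏ i, P.cl (D i) ω := fun ω hω =>
    prod_pos fun i _ => P.cl_pos _ hω
  have h1 := P.gibbs (fun ω i => D i ω) (S := 2)
    (g := fun ω => (∏ i, P.cl (D i) ω) * φ fun i => D i ω)
    (fun ω hω => mul_pos (hp ω hω) (hφ1 ω hω)) (by
      have h2 := P.E_cross (P.pi S) (fun ω i => D i ω) (fun ω i => D i (ω i))
        (f := fun ω => φ fun i => D i (ω i)) fun _ _ => hφ0 _
      refine le_trans (le_of_eq (P.E_congr fun ω _ => ?_))
        (h2.trans (GIBc.mass P (P.pi S) _ (fun ω i => D i (ω i)) f g hη h))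
      congr 1
      have h3 : ((P.pi S).pr fun ω' => (fun i => D i (ω' i)) = fun i => D i ω) =
          ∏ i, P.cl (D i) ω := by
        simp only [funext_iff]
        exact pr_pis (fun _ => P) fun i x => D i x = D i ω
      rw [← h3, FP.pr, ← FP.E_mul_right]
      refine FP.E_congr _ fun ω' _ => ?_
      by_cases e : (fun i => D i (ω' i)) = fun i => D i ω
      · rw [e]
      · rw [ind_neg e, zero_mul, zero_mul])
  have h4 : -(∑ i, P.H (D i)) - (P.pr fun ω => g fun i => D i ω) * log η -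
      (P.H fun ω => f fun i => D i ω) ≤
      P.E fun ω => log ((∏ i, P.cl (D i) ω) * φ fun i => D i ω) := by
    simp only [FP.H, FP.pr]
    rw [← FP.E_sum, ← FP.E_neg, ← FP.E_mul_right, ← FP.E_sub, ← FP.E_sub]
    refine P.E_mono fun ω hω => ?_
    rw [log_mul (hp ω hω).ne' (hφ1 ω hω).ne', log_prod fun i _ => (P.cl_pos _ hω).ne',
      sum_neg_distrib, neg_neg]
    have h5 := log_nonpos (hc ω hω).le (P.cl_le_one _ ω)
    simp only [hφ]
    split_ifs with hg
    · rw [ind_pos hg]
      have := log_div (hc ω hω).ne' hη.ne'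
      unfold FP.cl at this h5 ⊢
      linarith
    · rw [ind_neg hg, log_one]
      linarith
  linarith

end Pool.Agent.P.MP_7b3100_nt.DZ
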