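import Pool.Agent.P.MP_7b3100_nt.DZ.If

/-! Step GOOD. -/

namespace Pool.Agent.P.MP_7b3100_nt.DZ

open Finset Real Pool.Agent.P.MP_bf60a1_an.RA
open Pool.Agent.P.MP_e94e4b_nt (ee)

namespace GOODc

open Classical in
theorem head (hNBE : S_NBE) {Ω : Type} [Fintype Ω] {b g l : ℕ} {P : FP Ω} {Y : Ω → ℕ}
    (h : InL P Y b (g + l)) :
    (lp b g / 2 - log 6) * ((if Br P fun ω => Y ω / b ^ l then 0 else 1 : ℕ) : ℝ) + P.H Y ≤
      lp b g + lp b l := by
  have h1 : P.Hc (fun ω => Y ω % b ^ l) (fun ω => Y ω / b ^ l) ≤ lp b l := by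
    rw [← P.E_H_cv]
    exact P.E_le fun ω _ => (h.mod.cv _ _).H_le
  rw [H_cut P Y (b ^ l)]
  split_ifs with hb
  · have := h.div.H_le
    simp only [Nat.cast_zero, mul_zero]
    linarith
  · have : (P.H fun ω => Y ω / b ^ l) ≤ log 6 + lp b g / 2 := hNBE Ω P _ _ h.div hb
    simp only [Nat.cast_one, mul_one]
    linarith

end GOODc

open GOODc in
theorem p_GOOD (hNBE : S_NBE) :
    S_GOOD := by
  intro Ω _ b g l T
  induction T with
  | zero =>
    intro P X h
    have := H_le_of_lt P (N := 1) fun ω hω => by simpa using h.lt ω hω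
    simpa [nb, FP.E_const] using this
  | succ T ih =>
    intro P X h
    rw [show (g + l) * (T + 1) = (g + l) + (g + l) * T by ring] at h
    have h1 := h.div
    have h2 := h.mod
    rw [pow_mul] at h1 h2
    have h3 := head hNBE h1
    have h4 := P.tower (fun ω => X ω / (b ^ (g + l)) ^ T) fun v ω =>
      (nb (b ^ (g + l)) (b ^ l) T (P.cv (fun ω => X ω / (b ^ (g + l)) ^ T) v)
        (fun ω => X ω % (b ^ (g + l)) ^ T) (X ω % (b ^ (g + l)) ^ T) : ℝ)
    have h5 := P.E_le fun ω (_ : 0 < P.p ω) =>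
      ih _ _ (h2.cv (fun ω => X ω / (b ^ (g + l)) ^ T) (X ω / (b ^ (g + l)) ^ T))
    rw [FP.E_add, FP.E_mul_left, h4, FP.E_H_cv] at h5
    simp only [nb, Nat.cast_add, FP.E_add, FP.E_const]
    rw [H_cut P X ((b ^ (g + l)) ^ T)]
    push_cast at h3 ⊢
    linarith

end Pool.Agent.P.MP_7b3100_nt.DZ
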