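import Pool.Agent.P.MP_7b3100_nt.DZ.If

/-! Step GT. -/

namespace Pool.Agent.P.MP_7b3100_nt.DZ

open Finset Real Pool.Agent.P.MP_bf60a1_an.RA
open Pool.Agent.P.MP_e94e4b_nt (ee)

namespace GTc

theorem point (b m j : ℕ) (G : ℕ → ℕ → Finset ℕ) (f : ℕ) (hj : j ≤ m) :
    m * ind (2 * (gd b m j G f).card < m) ≤
      2 * j + 2 * ∑ i ∈ Icc j m, ind (lo b m j i f ∉ G i (hi b m j i f)) := by
  have h0 : 0 ≤ ∑ i ∈ Icc j m, ind (lo b m j i f ∉ G i (hi b m j i f)) :=
    sum_nonneg fun _ _ => ind_nonneg _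
  by_cases h : 2 * (gd b m j G f).card < m
  · have h1 : ((gd b m j G f).card : ℝ) =
        ∑ i ∈ Icc j m, ind (lo b m j i f ∈ G i (hi b m j i f)) := by
      rw [gd, card_filter, Nat.cast_sum]
      refine sum_congr rfl fun i _ => ?_
      split_ifs with h2
      · rw [ind_pos h2, Nat.cast_one]
      · rw [ind_neg h2, Nat.cast_zero]
    have h2 : ∑ i ∈ Icc j m, ind (lo b m j i f ∉ G i (hi b m j i f)) =
        (m + 1 - j : ℝ) - (gd b m j G f).card := by
      simp only [ind_not, sum_sub_distrib, h1]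
      rw [sum_const, Nat.card_Icc, nsmul_eq_mul, mul_one, Nat.cast_sub (by omega)]
      simp
    have h3 : (2 * (gd b m j G f).card : ℝ) < m := by exact_mod_cast h
    rw [ind_pos h, h2]
    linarith
  · rw [ind_neg h, mul_zero]
    positivity

end GTc

theorem p_GT (hTEL : S_TEL) :
    S_GT := by
  intro Ω _ P F b m j G h η C hb hj hjm hh hη hC hF hG
  have hT := hTEL Ω P F b m j hb hjm hF
  have hj' : (0 : ℝ) < j := by exact_mod_cast hj
  have h1 : m * (P.pr fun ω => 2 * (gd b m j G (F ω)).card < m) ≤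
      2 * j + 2 * ∑ i ∈ Icc j m, P.pr fun ω => lo b m j i (F ω) ∉ G i (hi b m j i (F ω)) := by
    have := P.E_mono fun ω _ => GTc.point b m j G (F ω) hjm
    rwa [FP.E_mul_left, FP.E_add, FP.E_const, FP.E_mul_left, FP.E_sum] at this
  have h2 : ∀ i ∈ Icc j m, j * (P.pr fun ω => lo b m j i (F ω) ∉ G i (hi b m j i (F ω))) ≤
      j * η + C * (h * j) - C * P.Hc (fun ω => lo b m j i (F ω)) fun ω => hi b m j i (F ω) := by
    intro i hi'
    have := P.E_mono fun ω _ => hG i hi' (hi b m j i (F ω))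
    rw [FP.E_mul_left, FP.E_add, FP.E_const, FP.E_mul_left, FP.E_sub, FP.E_const, FP.E_H_cv,
      pr_tower P (fun ω => hi b m j i (F ω)) fun u ω => lo b m j i (F ω) ∉ G i u] at this
    linarith
  have h3 := sum_le_sum h2
  rw [← mul_sum, sum_sub_distrib, ← mul_sum, sum_const, Nat.card_Icc, nsmul_eq_mul] at h3
  have h4 : ((m + 1 - j : ℕ) : ℝ) ≤ m := by exact_mod_cast (by omega : m + 1 - j ≤ m)
  have h5 : ((m + 1 - j : ℕ) : ℝ) * (j * η + C * (h * j)) ≤ m * (j * η + C * (h * j)) :=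
    mul_le_mul_of_nonneg_right h4 (by positivity)
  have h6 := mul_le_mul_of_nonneg_left hT hC
  have h7 : (∑ i ∈ Icc j m, P.pr fun ω => lo b m j i (F ω) ∉ G i (hi b m j i (F ω))) ≤
      m * η + C * (h * m - P.H F) + 2 * C * j * log b := by
    refine le_of_mul_le_mul_left ?_ hj'
    nlinarith
  linarith

end Pool.Agent.P.MP_7b3100_nt.DZ
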