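import Pool.Agent.P.MP_7b3100_nt.DZ.If

/-! Step HK. -/

namespace Pool.Agent.P.MP_7b3100_nt.DZ

open Finset Real Pool.Agent.P.MP_bf60a1_an.RA
open Pool.Agent.P.MP_e94e4b_nt (ee)

theorem p_HK :
    S_HK := by
  classical
  intro b q m f c t d Z I hq hb hI hC
  have hb0 : 0 < b := Nat.pos_of_ne_zero fun e => by
    rw [e, Nat.coprime_zero_left] at hb
    exact hq.one_lt.ne' hb
  have key : ∀ i j z : ℕ, i < j → j ≤ m → sig b q m f i = z → sig b q m f j = z → False := by
    intro i j z hij hj h1 h2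
    rw [← sig_iff hq hb] at h1 h2
    refine hC ⟨m - j, j - i, by omega, by omega, ?_⟩
    have e1 : f / b ^ (m - j) / b ^ (j - i) = f / b ^ (m - i) := by
      rw [Nat.div_div_eq_div_mul, ← pow_add]; congr 2; omega
    have e2 := Nat.div_add_mod (f / b ^ (m - j)) (b ^ (j - i))
    have e3 : b ^ j = b ^ (j - i) * b ^ i := by rw [← pow_add]; congr 1; omega
    rw [← e2, e1, e3, ← add_assoc, mul_assoc, ← mul_add] at h2
    exact (Nat.dvd_add_right (h1.mul_left _)).1 h2
  refine card_le_card_of_forall_subsingleton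
    (fun i z => sig b q m f i = ((c * z + (t + d) : ℕ) : ZMod q)) (fun i hi => ?_) ?_
  · obtain ⟨h1, h2⟩ := mem_filter.1 hi
    obtain ⟨z, hz, e⟩ := mem_image.1 h2
    have e' : sig b q m f i = ((c * z + (t + d) : ℕ) : ZMod q) := by
      push_cast at e ⊢
      linear_combination -e
    have := mem_Icc.1 (hI h1)
    exact ⟨z, mem_filter.2 ⟨hz, fun hs => hs i this.1 this.2 ((sig_iff hq hb _ _ _ _).2 e')⟩, e'⟩
  · rintro z - i ⟨hi, e⟩ j ⟨hj, e'⟩
    have a := mem_Icc.1 (hI (mem_filter.1 hi).1)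
    have a' := mem_Icc.1 (hI (mem_filter.1 hj).1)
    by_contra hne
    rcases Nat.lt_or_gt_of_ne hne with h | h
    · exact key i j _ h a'.2 e e'
    · exact key j i _ h a.2 e' e

end Pool.Agent.P.MP_7b3100_nt.DZ
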