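import Pool.Agent.P.MP_7b3100_nt.DZ.If

/-! Step HOEF. -/

namespace Pool.Agent.P.MP_7b3100_nt.DZ

open Finset Real Pool.Agent.P.MP_bf60a1_an.RA
open Pool.Agent.P.MP_e94e4b_nt (ee)

theorem HOEFc.one {Ω : Type} [Fintype Ω] {k : ℕ} (P : Fin k → FP Ω) (u : Fin k → Ω → ℝ)
    {R t : ℝ} (hR : 0 < R) (ht : 0 ≤ t) (hu : ∀ i ω, 0 < (P i).p ω → |u i ω| ≤ R)
    (h0 : ∀ i, (P i).E (u i) = 0) :
    ((pis P).pr fun ω => t ≤ ∑ i, u i (ω i)) ≤ exp (-(t ^ 2 / (2 * k * R ^ 2))) := by
  rcases k.eq_zero_or_pos with rfl | hk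
  · simpa using (pis P).pr_le_one _
  have k0 : (0 : ℝ) < k := mod_cast hk
  set s := t / (k * R ^ 2) with hs
  have s0 : 0 ≤ s := by positivity
  have h1 : ∀ i, ((P i).E fun ω => exp (s * u i ω)) ≤ exp ((s * R) ^ 2 / 2) := fun i => by
    refine le_trans ?_ (cosh_le_exp_half_sq (s * R))
    refine ((P i).E_mono (g := fun ω => cosh (s * R) + sinh (s * R) / R * u i ω)
      fun ω hω => ?_).trans (by rw [FP.E_add, FP.E_const, FP.E_mul_left, h0, mul_zero, add_zero])
    obtain ⟨a, b⟩ := abs_le.1 (hu i ω hω)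
    have := convexOn_exp.2 (Set.mem_univ (s * R)) (Set.mem_univ (-(s * R)))
      (show 0 ≤ (R + u i ω) / (2 * R) by apply div_nonneg <;> linarith)
      (show 0 ≤ (R - u i ω) / (2 * R) by apply div_nonneg <;> linarith) (by field_simp; ring)
    simp only [smul_eq_mul] at this
    rw [show (R + u i ω) / (2 * R) * (s * R) + (R - u i ω) / (2 * R) * -(s * R) = s * u i ω by
      field_simp; ring] at this
    refine this.trans (le_of_eq ?_)
    rw [cosh_eq, sinh_eq]; field_simp; ring
  calc _ ≤ (pis P).E fun ω => exp (-(s * t)) * ∏ i, exp (s * u i (ω i)) :=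
        FP.E_mono _ fun ω _ => by
          rw [← exp_sum, ← exp_add, ← mul_sum]
          by_cases h : t ≤ ∑ i, u i (ω i)
          · rw [ind_pos h]; exact one_le_exp (by nlinarith)
          · rw [ind_neg h]; positivity
    _ ≤ exp (-(s * t)) * ∏ _i : Fin k, exp ((s * R) ^ 2 / 2) := by
        rw [FP.E_mul_left, E_pis_prod P fun i ω => exp (s * u i ω)]
        exact mul_le_mul_of_nonneg_left (prod_le_prod
          (fun i _ => FP.E_nonneg _ fun _ _ => (exp_pos _).le) fun i _ => h1 i) (exp_pos _).le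
    _ = _ := by
        rw [prod_const, card_univ, Fintype.card_fin, ← exp_nat_mul, ← exp_add, hs]
        congr 1; field_simp; ring

theorem p_HOEF :
    S_HOEF := by
  intro Ω _ k P v R t hR ht hv
  have h1 : ∀ i ω, 0 < (P i).p ω → |v i ω - (P i).E (v i)| ≤ R := fun i ω hω => by
    have a := (P i).le_E fun ω h => (hv i ω h).1
    have b := (P i).E_le fun ω h => (hv i ω h).2
    have := hv i ω hω
    rw [abs_le]; constructor <;> linarith
  have a := HOEFc.one P (fun i ω => v i ω - (P i).E (v i)) hR ht h1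
    fun i => by rw [FP.E_sub, FP.E_const, sub_self]
  have b := HOEFc.one P (fun i ω => (P i).E (v i) - v i ω) hR ht
    (fun i ω h => by rw [abs_sub_comm]; exact h1 i ω h) fun i => by rw [FP.E_sub, FP.E_const, sub_self]
  refine (((pis P).pr_mono fun ω _ h => ?_).trans (FP.pr_or_le _ _ _)).trans
    ((add_le_add a b).trans (le_of_eq (two_mul _).symm))
  simp only [sum_sub_distrib]
  exact (le_abs.1 h).imp id fun h => by linarith

end Pool.Agent.P.MP_7b3100_nt.DZ
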