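import Pool.Agent.P.MP_7b3100_nt.DZ.If

/-! Step ITER. -/

namespace Pool.Agent.P.MP_7b3100_nt.DZ

open Finset Real Pool.Agent.P.MP_bf60a1_an.RA
open Pool.Agent.P.MP_e94e4b_nt (ee)

theorem p_ITER :
    S_ITER := by
  intro ψ c M H0 hc hψ h
  set K : ℕ := max H0 2 with hK
  have hK2 : (2 : ℝ) ≤ K := by exact_mod_cast le_max_right H0 2
  have hM : 1 ≤ M := by
    obtain ⟨H', h1, h2, -⟩ := h K (le_max_left _ _)
    rcases Nat.eq_zero_or_pos M with rfl | h3
    · omega
    · exact h3
  have hM' : (1 : ℝ) ≤ M := by exact_mod_cast hM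
  have l1 : 0 < log K := log_pos (by linarith)
  have l2 : 0 ≤ log M := log_nonneg hM'
  have key : ∀ n : ℕ, ∃ H, K ≤ H ∧ H ≤ M ^ n * K ∧
      ψ H ≤ ψ K - c / (log K + log M) * ∑ i ∈ range n, (1 / ((i : ℝ) + 1)) := by
    intro n
    induction n with
    | zero => exact ⟨K, le_rfl, by simp, by simp⟩
    | succ n ih =>
      obtain ⟨H, h1, h2, h3⟩ := ih
      obtain ⟨H', h4, h5, h6⟩ := h H ((le_max_left _ _).trans h1)
      refine ⟨H', h1.trans h4.le, h5.trans ?_, h6.trans ?_⟩
      · rw [pow_succ', mul_assoc]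
        exact Nat.mul_le_mul_left _ h2
      · have e1 : (K : ℝ) ≤ H := by exact_mod_cast h1
        have e2 : log H ≤ (log K + log M) * (n + 1) := by
          have e3 : (H : ℝ) ≤ M ^ n * K := by exact_mod_cast h2
          have e4 := log_le_log (by linarith) e3
          rw [log_mul (by positivity) (by positivity), log_pow] at e4
          nlinarith [mul_nonneg l1.le (Nat.cast_nonneg (α := ℝ) n)]
        have e5 : c / ((log K + log M) * (n + 1)) ≤ c / log H :=
          div_le_div_of_nonneg_left hc.le (log_pos (by linarith)) e2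
        rw [sum_range_succ, mul_add, div_mul_div_comm, mul_one]
        linarith
  obtain ⟨n, hn⟩ := ((tendsto_sum_range_one_div_nat_succ_atTop.const_mul_atTop
    (div_pos hc (by linarith : 0 < log K + log M))).eventually_gt_atTop (ψ K)).exists
  obtain ⟨H, -, -, h3⟩ := key n
  linarith [hψ H]

end Pool.Agent.P.MP_7b3100_nt.DZ
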