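import Pool.Agent.P.MP_7b3100_nt.DZ.If

/-! Step KIL. -/

namespace Pool.Agent.P.MP_7b3100_nt.DZ

open Finset Real Pool.Agent.P.MP_bf60a1_an.RA
open Pool.Agent.P.MP_e94e4b_nt (ee)

theorem p_KIL :
    S_KIL := by
  intro b q n m w c t Z
  classical
  unfold kil
  refine card_le_card fun z hz => ?_
  simp only [mem_filter] at hz ⊢
  refine ⟨hz.1, fun h => hz.2 (h.mod.congr ?_)⟩
  rw [mul_add, mul_assoc, add_assoc]
  exact ((Nat.mod_modEq _ _).symm.add_left _).add_left _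

end Pool.Agent.P.MP_7b3100_nt.DZ
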