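import Pool.Agent.P.MP_7b3100_nt.DZ.If

/-! Step LO. -/

namespace Pool.Agent.P.MP_7b3100_nt.DZ

open Finset Real Pool.Agent.P.MP_bf60a1_an.RA
open Pool.Agent.P.MP_e94e4b_nt (ee)

namespace LOc

variable {k : ℕ}

/-- the part of S inside J, flipped at the negative coefficients -/
noncomputable def phi (a : Fin k → ℝ) (J S : Finset (Fin k)) : Finset J :=
  univ.filter fun j : J => (j.1 ∈ S ↔ 0 ≤ a j.1)

theorem sum_eq (a : Fin k → ℝ) (J S : Finset (Fin k)) :
    ∑ i ∈ S, a i = ∑ i ∈ S \ J, a i + (∑ j ∈ phi a J S, |a j.1|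
      - ∑ j : J, if a j.1 < 0 then |a j.1| else 0) := by
  have h1 : ∑ i ∈ S, a i = ∑ i ∈ S \ J, a i + ∑ i ∈ J, if i ∈ S then a i else 0 := by
    rw [← sum_filter, filter_mem_eq_inter, inter_comm, add_comm, sum_inter_add_sum_sdiff]
  rw [h1, ← sum_coe_sort J, phi, sum_filter, ← sum_sub_distrib]
  congr 1
  refine sum_congr rfl fun j _ => ?_
  rcases lt_or_ge (a j.1) 0 with h | h
  · by_cases hs : j.1 ∈ S
    · simp [hs, h, not_le.2 h, abs_of_neg h]
    · simp [hs, h, not_le.2 h]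
  · by_cases hs : j.1 ∈ S
    · simp [hs, h, not_lt.2 h, abs_of_nonneg h]
    · simp [hs, h, not_lt.2 h]

theorem inj (a : Fin k → ℝ) (J S S' : Finset (Fin k)) (h1 : S \ J = S' \ J)
    (h2 : phi a J S = phi a J S') : S = S' := by
  ext i
  by_cases hi : i ∈ J
  · have := Finset.ext_iff.1 h2 ⟨i, hi⟩
    simp only [phi, mem_filter, mem_univ, true_and] at this
    tauto
  · have := Finset.ext_iff.1 h1 i
    simpa [hi] using this

theorem fiber (a : Fin k → ℝ) (w x : ℝ) (J T : Finset (Fin k))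
    (hJ : ∀ i ∈ J, w < |a i|) (F : Finset (Finset (Fin k)))
    (hF : ∀ S ∈ F, (x ≤ ∑ i ∈ S, a i ∧ ∑ i ∈ S, a i ≤ x + w) ∧ S \ J = T) :
    F.card ≤ J.card.choose (J.card / 2) := by
  classical
  have hc : (F.image (phi a J)).card = F.card :=
    card_image_of_injOn fun S hS S' hS' h =>
      inj a J S S' (((hF S hS).2).trans ((hF S' hS').2).symm) h
  have ha : IsAntichain (· ⊆ ·) (SetLike.coe (F.image (phi a J))) := by
    intro A hA B hB hne hsub
    obtain ⟨S, hS, rfl⟩ := mem_image.1 (mem_coe.1 hA)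
    obtain ⟨S', hS', rfl⟩ := mem_image.1 (mem_coe.1 hB)
    obtain ⟨j, hj1, hj2⟩ := exists_of_ssubset (ssubset_of_subset_of_ne hsub hne)
    have e1 := sum_eq a J S
    have e2 := sum_eq a J S'
    rw [(hF S hS).2] at e1
    rw [(hF S' hS').2] at e2
    have e3 := sum_sdiff (f := fun j : J => |a j.1|) hsub
    have e4 : |a j.1| ≤ ∑ j ∈ phi a J S' \ phi a J S, |a j.1| :=
      single_le_sum (f := fun j : J => |a j.1|) (fun _ _ => abs_nonneg _)
        (mem_sdiff.2 ⟨hj1, hj2⟩)
    have e5 := hJ j.1 j.2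
    have e6 := (hF S hS).1.1
    have e7 := (hF S' hS').1.2
    linarith
  have := ha.sperner
  rw [hc] at this
  simpa using this

end LOc

theorem p_LO (hCB : S_CB) :
    S_LO := by
  classical
  intro k a w x J _ hJ
  set F : Finset (Finset (Fin k)) :=
    univ.filter fun S => x ≤ ∑ i ∈ S, a i ∧ ∑ i ∈ S, a i ≤ x + w with hFd
  have h1 : ∑ S : Finset (Fin k), ind (x ≤ ∑ i ∈ S, a i ∧ ∑ i ∈ S, a i ≤ x + w) = F.card := by
    rw [hFd, card_filter]
    push_cast
    refine sum_congr rfl fun S _ => ?_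
    split_ifs with h
    · exact ind_pos h
    · exact ind_neg h
  have h2 : F.card ≤ J.card.choose (J.card / 2) * (powerset (univ \ J)).card := by
    refine card_le_mul_card_image_of_maps_to (f := fun S => S \ J) (fun S _ => ?_) _
      fun T _ => ?_
    · exact mem_powerset.2 (sdiff_subset_sdiff (subset_univ _) Subset.rfl)
    · refine LOc.fiber a w x J T hJ _ fun S hS => ?_
      rw [mem_filter, hFd, mem_filter] at hS
      exact ⟨hS.1.2, hS.2⟩
  have hk : J.card ≤ k := by simpa using card_le_univ J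
  rw [card_powerset, card_univ_sdiff, Fintype.card_fin] at h2
  have h3 : (F.card : ℝ) ≤ (J.card.choose (J.card / 2) : ℝ) * 2 ^ (k - J.card) := by
    exact_mod_cast h2
  rw [h1]
  refine h3.trans ?_
  have h4 : (2 : ℝ) ^ k = 2 ^ J.card * 2 ^ (k - J.card) := by
    rw [← pow_add, Nat.add_sub_cancel' hk]
  rw [h4, mul_div_right_comm]
  exact mul_le_mul_of_nonneg_right (hCB _) (by positivity)

end Pool.Agent.P.MP_7b3100_nt.DZ
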