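import Pool.Agent.P.MP_7b3100_nt.DZ.If

/-! Step LSQ. -/

namespace Pool.Agent.P.MP_7b3100_nt.DZ

open Finset Real Pool.Agent.P.MP_bf60a1_an.RA
open Pool.Agent.P.MP_e94e4b_nt (ee)

namespace LSQc

/-- exponential sum -/
noncomputable def ft (I : Finset ℕ) (γ : ℕ → ℂ) (θ : ℝ) : ℂ := ∑ x ∈ I, γ x * ee (x * θ)

theorem ls_dual {ι : Type} (R : Finset ι) (θ : ι → ℝ) {δ H : ℝ} (I : Finset ℕ) (c : ι → ℂ)
    (h0 : 0 < δ) (h1 : δ ≤ 1) (hH : 0 ≤ H) (hI : ∀ a ∈ I, (a : ℝ) ≤ H)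
    (hs : ∀ r ∈ R, ∀ s ∈ R, r ≠ s → ∀ k : ℤ, δ ≤ |θ r - θ s - k|) :
    ∑ a ∈ I, ‖∑ r ∈ R, c r * ee (a * θ r)‖ ^ 2 ≤ 3 * (H + 1 / δ) * ∑ r ∈ R, ‖c r‖ ^ 2 := by
  have key := Pool.Agent.P.MP_e94e4b_nt.dual_large_sieve R θ c h0 hs 0 (⌊H⌋₊ + 1) ⌈1 / δ⌉₊
  have e1 : ∑ a ∈ I, ‖∑ r ∈ R, c r * ee (a * θ r)‖ ^ 2 ≤
      ∑ t ∈ Ico (0 : ℤ) (0 + (⌊H⌋₊ + 1 : ℕ)), ‖∑ r ∈ R, c r * ee (t * θ r)‖ ^ 2 := by
    have : ∑ a ∈ I, ‖∑ r ∈ R, c r * ee (a * θ r)‖ ^ 2 =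
        ∑ t ∈ I.map Nat.castEmbedding, ‖∑ r ∈ R, c r * ee ((t : ℤ) * θ r)‖ ^ 2 := by
      rw [sum_map]
      simp
    rw [this]
    refine sum_le_sum_of_subset_of_nonneg (fun t ht => ?_) fun _ _ _ => by positivity
    obtain ⟨a, ha, rfl⟩ := mem_map.1 ht
    have := Nat.le_floor (hI a ha)
    simp only [Nat.castEmbedding_apply, mem_Ico]
    omega
  have hd : 1 ≤ 1 / δ := by rw [le_div_iff₀ h0]; linarith
  have e2 : 1 / δ ≤ (⌈1 / δ⌉₊ : ℝ) := Nat.le_ceil _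
  have e3 : (⌈1 / δ⌉₊ : ℝ) < 1 / δ + 1 := Nat.ceil_lt_add_one (by linarith)
  have e4 : (⌊H⌋₊ : ℝ) ≤ H := Nat.floor_le hH
  rw [show ⌊H⌋₊ + 1 + ⌈1 / δ⌉₊ - 1 = ⌊H⌋₊ + ⌈1 / δ⌉₊ by omega, Nat.cast_add (R := ℝ),
    show 1 / δ ^ 2 = (1 / δ) ^ 2 by ring] at key
  have hS : 0 ≤ ∑ r ∈ R, ‖c r‖ ^ 2 := sum_nonneg fun _ _ => by positivity
  generalize (⌈1 / δ⌉₊ : ℝ) = h at *
  generalize 1 / δ = d at *
  have hh : 0 < h := by linarith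
  refine le_of_mul_le_mul_left (((mul_le_mul_of_nonneg_left e1 hh.le).trans key).trans ?_) hh
  rw [← mul_assoc]
  refine mul_le_mul_of_nonneg_right ?_ hS
  have e5 : d ^ 2 ≤ h * d := by nlinarith
  have e6 : h * (⌊H⌋₊ + h) ≤ h * (H + 2 * d) := mul_le_mul_of_nonneg_left (by linarith) hh.le
  nlinarith [mul_nonneg hh.le hH]

theorem ls_main (ι : Type) (R : Finset ι) (θ : ι → ℝ) (δ H : ℝ) (I : Finset ℕ) (γ : ℕ → ℂ)
    (h0 : 0 < δ) (h1 : δ ≤ 1) (hH : 0 ≤ H) (hI : ∀ a ∈ I, (a : ℝ) ≤ H)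
    (hs : ∀ r ∈ R, ∀ s ∈ R, r ≠ s → ∀ k : ℤ, δ ≤ |θ r - θ s - k|) :
    ∑ r ∈ R, ‖ft I γ (θ r)‖ ^ 2 ≤ 3 * (H + 1 / δ) * (∑ x ∈ I, ‖γ x‖ ^ 2) := by
  have key := ls_dual R θ I (fun r => (starRingEnd ℂ) (ft I γ (θ r))) h0 h1 hH hI hs
  simp only [Complex.norm_conj] at key
  set E := ∑ r ∈ R, ‖ft I γ (θ r)‖ ^ 2 with hE
  have hE0 : 0 ≤ E := sum_nonneg fun _ _ => by positivity
  have e1 : (E : ℂ) = ∑ a ∈ I, γ a * ∑ r ∈ R, (starRingEnd ℂ) (ft I γ (θ r)) * ee (a * θ r) := by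
    simp only [mul_sum]
    rw [sum_comm, hE, Complex.ofReal_sum]
    refine sum_congr rfl fun r _ => ?_
    rw [Complex.ofReal_pow, ← Complex.conj_mul']
    nth_rewrite 2 [ft]
    rw [mul_sum]
    exact sum_congr rfl fun a _ => by ring
  have e2 : E ≤ ∑ a ∈ I, ‖γ a‖ * ‖∑ r ∈ R, (starRingEnd ℂ) (ft I γ (θ r)) * ee (a * θ r)‖ := by
    have : E = ‖(E : ℂ)‖ := by rw [Complex.norm_real, Real.norm_of_nonneg hE0]
    rw [this, e1]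
    exact (norm_sum_le _ _).trans (le_of_eq (sum_congr rfl fun a _ => norm_mul _ _))
  have e3 := (pow_le_pow_left₀ hE0 e2 2).trans (sum_mul_sq_le_sq_mul_sq _ _ _)
  have hn : 0 ≤ ∑ x ∈ I, ‖γ x‖ ^ 2 := sum_nonneg fun _ _ => by positivity
  have e4 : E ^ 2 ≤ (∑ x ∈ I, ‖γ x‖ ^ 2) * (3 * (H + 1 / δ) * E) :=
    e3.trans (mul_le_mul_of_nonneg_left key hn)
  rcases hE0.eq_or_lt with h | h
  · rw [← h]
    positivity
  · exact le_of_mul_le_mul_right (by linarith) h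

theorem sep {q q' r r' : ℕ} (hp : q.Prime) (hp' : q'.Prime) (h : q ≠ q') (h1 : 0 < r) (h2 : r < q)
    (k : ℤ) : 1 / ((q : ℝ) * q') ≤ |(r : ℝ) / q - r' / q' - k| := by
  have hq : (0 : ℝ) < q := by exact_mod_cast hp.pos
  have hq' : (0 : ℝ) < q' := by exact_mod_cast hp'.pos
  have hne : (r : ℤ) * q' - r' * q - k * q * q' ≠ 0 := by
    intro e
    have d1 : q ∣ r * q' :=
      Int.natCast_dvd_natCast.1 ⟨r' + k * q', by push_cast; linear_combination e⟩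
    rcases (hp.dvd_mul).1 d1 with d | d
    · exact absurd (Nat.le_of_dvd h1 d) (by omega)
    · exact h ((Nat.prime_dvd_prime_iff_eq hp hp').1 d)
  have e : (r : ℝ) / q - r' / q' - k =
      (((r : ℤ) * q' - r' * q - k * q * q' : ℤ) : ℝ) / (q * q') := by
    push_cast
    field_simp
  rw [e, abs_div, abs_of_pos (mul_pos hq hq')]
  refine div_le_div_of_nonneg_right ?_ (mul_pos hq hq').le
  exact_mod_cast Int.one_le_abs hne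

end LSQc

theorem p_LSQ :
    S_LSQ := by
  intro y N R a γ hR ha
  rcases R.eq_empty_or_nonempty with rfl | ⟨q0, hq0⟩
  · rw [sum_empty]
    exact mul_nonneg (by positivity) (sum_nonneg fun _ _ => by positivity)
  have hy : (1 : ℝ) ≤ y := by
    have := mem_Ioc.1 (mem_filter.1 (hR hq0)).1
    exact_mod_cast (show 1 ≤ y by omega)
  have key := LSQc.ls_main ℕ R (fun q => (a q : ℝ) / q) (1 / (16 * (y : ℝ) ^ 2)) N (range N) γ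
    (by positivity) (by rw [div_le_one (by positivity)]; nlinarith) (Nat.cast_nonneg N)
    (fun x hx => by exact_mod_cast (mem_range.1 hx).le) (fun q hq q' hq' hne k => by
      obtain ⟨h1, h2⟩ := mem_filter.1 (hR hq)
      obtain ⟨h3, h4⟩ := mem_filter.1 (hR hq')
      refine le_trans ?_ (LSQc.sep h2 h4 hne (ha q hq).1 (ha q hq).2 k)
      have b1 : (0 : ℝ) < q := by exact_mod_cast h2.pos
      have b2 : (0 : ℝ) < q' := by exact_mod_cast h4.pos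
      have b3 : (q : ℝ) ≤ 4 * y := by exact_mod_cast (mem_Ioc.1 h1).2
      have b4 : (q' : ℝ) ≤ 4 * y := by exact_mod_cast (mem_Ioc.1 h3).2
      exact one_div_le_one_div_of_le (mul_pos b1 b2) (by nlinarith))
  rwa [one_div_one_div] at key

end Pool.Agent.P.MP_7b3100_nt.DZ
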