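import Pool.Agent.P.MP_7b3100_nt.DZ.If

/-! Step MAJ. -/

namespace Pool.Agent.P.MP_7b3100_nt.DZ

open Finset Real Pool.Agent.P.MP_bf60a1_an.RA
open Pool.Agent.P.MP_e94e4b_nt (ee)

theorem p_MAJ (hMAJA : S_MAJA) :
    S_MAJ := by
  intro Ω _ P S k W N x D G c η hk hN hη hG hW hc hcv
  refine le_trans (FP.pr_mono _ fun ω _ h => ?_) (((P.pi S).pr_exists_le (powersetCard (2 * k) univ)
    fun I ω => (∀ i ∈ I, D i (ω i) ∈ G i) ∧ (∑ i, c i * D i (ω i)) % N = x).trans ?_)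
  · obtain ⟨I, h1, h2⟩ := exists_subset_card_eq h.1
    exact ⟨I, mem_powersetCard.2 ⟨subset_univ _, h2⟩, fun i hi => (mem_filter.1 (h1 hi)).2, h.2⟩
  · refine (sum_le_card_nsmul _ _ η fun I hI =>
      hMAJA Ω P S k W N x D G c η I hk hN (mem_powersetCard.1 hI).2 hG hW hc hcv).trans ?_
    rw [nsmul_eq_mul, card_powersetCard, card_univ, Fintype.card_fin]
    exact mul_le_mul_of_nonneg_right (mod_cast Nat.choose_le_two_pow _ _) hη

end Pool.Agent.P.MP_7b3100_nt.DZ
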