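import Pool.Agent.P.MP_7b3100_nt.DZ.If

/-! Step MAJA. -/

namespace Pool.Agent.P.MP_7b3100_nt.DZ

open Finset Real Pool.Agent.P.MP_bf60a1_an.RA
open Pool.Agent.P.MP_e94e4b_nt (ee)

namespace MAJAc

open Pool.Agent.P.MP_e94e4b_nt

theorem orth {N : ℕ} (hN : 0 < N) (m : ℤ) :
    ((N * ind ((N : ℤ) ∣ m) : ℝ) : ℂ) = ∑ a ∈ range N, ee (a * (m / N)) := by
  have hN' : (N : ℝ) ≠ 0 := by exact_mod_cast hN.ne'
  by_cases h : (N : ℤ) ∣ m
  · rw [ind_pos h]
    obtain ⟨t, rfl⟩ := h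
    rw [sum_congr rfl (g := fun _ => 1) fun a _ => by
      rw [← ee_int (a * t)]; congr 1; push_cast; field_simp]
    simp
  · rw [ind_neg h, range_eq_Ico, sum_eq_sum_Ico_succ_bot hN, zero_add, root_sum hN h]
    simp [ee_zero]

theorem amgm {ι : Type} (I : Finset ι) (z : ι → ℝ) (hz : ∀ i, 0 ≤ z i) {n : ℕ} (hn : 0 < n)
    (hI : I.card = n) : ∏ i ∈ I, z i ≤ (n : ℝ)⁻¹ * ∑ i ∈ I, z i ^ n := by
  have hn' : (n : ℝ) ≠ 0 := by exact_mod_cast hn.ne'
  have := Real.geom_mean_le_arith_mean_weighted I (fun _ => (n : ℝ)⁻¹) (fun i => z i ^ n)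
    (fun _ _ => by positivity) (by simp [hI, hn']) fun i _ => pow_nonneg (hz i) _
  rw [← mul_sum] at this
  refine le_trans (le_of_eq (prod_congr rfl fun i _ => ?_)) this
  exact (Real.pow_rpow_inv_natCast (hz i) hn.ne').symm

end MAJAc

open MAJAc Pool.Agent.P.MP_e94e4b_nt in
theorem p_MAJA (hPARS : S_PARS) :
    S_MAJA := by
  intro Ω _ P S k W N x D G c η I hk hN hI hG hW hc hη
  have hN' : (0 : ℝ) < N := by exact_mod_cast hN
  set f : ℕ → Fin S → Ω → ℂ := fun a i ω =>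
    ((P.p ω * ind (i ∈ I → D i ω ∈ G i) : ℝ) : ℂ) * ee (D i ω * ((a * c i : ℕ) / (N : ℝ))) with hf
  set q := (P.pi S).pr fun ω => (∀ i, i ∈ I → D i (ω i) ∈ G i) ∧
    (N : ℤ) ∣ ((∑ i, c i * D i (ω i) : ℕ) : ℤ) - x with hq
  have h1 : ((N * q : ℝ) : ℂ) = ∑ a ∈ range N, ee (-(a * (x / N))) * ∏ i, ∑ ω, f a i ω := by
    simp only [prod_univ_sum, Fintype.piFinset_univ, mul_sum]
    rw [sum_comm, hq, FP.pr, FP.E, mul_sum, Complex.ofReal_sum]
    refine sum_congr rfl fun ω _ => ?_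
    rw [ind_and, ind_all, show ∀ u v w t : ℝ, u * (v * (w * t)) = v * w * (u * t) from
      fun _ _ _ _ => by ring, Complex.ofReal_mul, orth hN, mul_sum]
    refine sum_congr rfl fun a _ => ?_
    simp only [hf, prod_mul_distrib, ← ee_sum, ← Complex.ofReal_prod, FP.pi]
    rw [mul_left_comm, ← ee_add]
    congr 2
    push_cast
    rw [sub_div, mul_sub, sum_div, mul_sum, neg_add_eq_sub]
    congr 1
    exact sum_congr rfl fun i _ => by ring
  have h2 : ∀ a, ‖∏ i, ∑ ω, f a i ω‖ ≤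
      ∏ i ∈ I, ‖ch P (D i) (G i) ((a * c i : ℕ) / (N : ℝ))‖ := fun a => by
    rw [norm_prod, ← prod_mul_prod_compl I]
    refine le_trans (mul_le_of_le_one_right (prod_nonneg fun _ _ => norm_nonneg _)
      (prod_le_one (fun _ _ => norm_nonneg _) fun i _ => ?_)) (le_of_eq ?_)
    · refine (norm_sum_le _ _).trans (le_trans (sum_le_sum fun ω _ => ?_) P.one.le)
      rw [hf, norm_mul, norm_ee, mul_one, Complex.norm_real,
        Real.norm_of_nonneg (mul_nonneg (P.nn ω) (ind_nonneg _))]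
      exact mul_le_of_le_one_right (P.nn ω) (ind_le_one _)
    · refine prod_congr rfl fun i hi => ?_
      simp only [hf, ch, hi, true_imp_iff]
  have h3 : N * q ≤ N * η := by
    refine (le_abs_self _).trans ?_
    rw [← Real.norm_eq_abs, ← Complex.norm_real, h1]
    refine (norm_sum_le _ _).trans ?_
    refine le_trans (sum_le_sum fun a _ => ?_ :
      _ ≤ ∑ a ∈ range N, ((2 * k : ℕ) : ℝ)⁻¹ *
        ∑ i ∈ I, ‖ch P (D i) (G i) ((a * c i : ℕ) / (N : ℝ))‖ ^ (2 * k)) ?_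
    · rw [norm_mul, norm_ee, one_mul]
      exact (h2 a).trans (amgm I _ (fun _ => norm_nonneg _) (by omega) hI)
    · rw [← mul_sum, sum_comm]
      refine le_trans (mul_le_mul_of_nonneg_left (sum_le_sum fun i _ =>
        hPARS Ω P (D i) (G i) k W N (c i) η hk (hG i) hW (hc i) (hη i)) (by positivity)) ?_
      rw [sum_const, hI, nsmul_eq_mul, inv_mul_cancel_left₀ (by positivity)]
  refine le_trans ((P.pi S).pr_mono fun ω _ h => ⟨h.1, ?_⟩) (le_of_mul_le_mul_left h3 hN')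
  rw [← h.2]
  exact (Nat.mod_modEq _ _).dvd

end Pool.Agent.P.MP_7b3100_nt.DZ
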