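import Pool.Agent.P.MP_7b3100_nt.DZ.If

/-! Step MEX. -/

namespace Pool.Agent.P.MP_7b3100_nt.DZ

open Finset Real Pool.Agent.P.MP_bf60a1_an.RA
open Pool.Agent.P.MP_e94e4b_nt (ee)

theorem p_MEX :
    S_MEX := by
  intro L n0 hL
  refine ⟨(2 * L + n0 + 16) ^ 4, fun y hy => ?_⟩
  obtain ⟨u, hu⟩ : ∃ u, u = Nat.sqrt (Nat.sqrt y) := ⟨_, rfl⟩
  have h1 : u ^ 4 ≤ y := by
    have a1 : u * u ≤ Nat.sqrt y := hu ▸ Nat.sqrt_le _
    have a2 : Nat.sqrt y * Nat.sqrt y ≤ y := Nat.sqrt_le _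
    calc u ^ 4 = (u * u) * (u * u) := by ring
      _ ≤ Nat.sqrt y * Nat.sqrt y := Nat.mul_le_mul a1 a1
      _ ≤ y := a2
  have h2 : y < (u + 1) ^ 4 := by
    have a1 : Nat.sqrt y < (u + 1) * (u + 1) := hu ▸ Nat.lt_succ_sqrt _
    have a2 : y < (Nat.sqrt y + 1) * (Nat.sqrt y + 1) := Nat.lt_succ_sqrt _
    calc y < (Nat.sqrt y + 1) * (Nat.sqrt y + 1) := a2
      _ ≤ ((u + 1) * (u + 1)) * ((u + 1) * (u + 1)) := Nat.mul_le_mul a1 a1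
      _ = (u + 1) ^ 4 := by ring
  have h3 : 2 * L + n0 + 16 ≤ u := by
    have : (2 * L + n0 + 16) ^ 4 < (u + 1) ^ 4 := lt_of_le_of_lt hy h2
    have := lt_of_pow_lt_pow_left₀ 4 (Nat.zero_le _) this
    omega
  have h4 : L * (u / L) + u % L = u := Nat.div_add_mod u L
  have h5 : u % L < L := Nat.mod_lt _ hL
  obtain ⟨m, hm⟩ : ∃ m, m = L * (u / L) := ⟨_, rfl⟩
  rw [← hm] at h4
  have h6 : m ^ 4 ≤ y := le_trans (Nat.pow_le_pow_left (by omega) 4) h1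
  refine ⟨m, hm ▸ Dvd.intro _ rfl, by omega, ?_, h6, ?_⟩
  · calc y ≤ (u + 1) ^ 4 := h2.le
      _ ≤ (2 * m) ^ 4 := Nat.pow_le_pow_left (by omega) 4
      _ = 16 * m ^ 4 := by ring
      _ ≤ m * m ^ 4 := Nat.mul_le_mul_right _ (by omega)
      _ = m ^ 5 := by ring
  · calc n0 * m ≤ m * m := Nat.mul_le_mul_right _ (by omega)
      _ = m ^ 2 := by ring
      _ ≤ m ^ 4 := Nat.pow_le_pow_right (by omega) (by norm_num)
      _ ≤ y := h6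

end Pool.Agent.P.MP_7b3100_nt.DZ
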