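import Pool.Agent.P.MP_7b3100_nt.DZ.If

/-! Step NBE. -/

namespace Pool.Agent.P.MP_7b3100_nt.DZ

open Finset Real Pool.Agent.P.MP_bf60a1_an.RA
open Pool.Agent.P.MP_e94e4b_nt (ee)

theorem p_NBE :
    S_NBE := by
  classical
  intro Ω _ P U F hF hB
  unfold Br at hB
  rw [not_le, FP.pr, FP.E_prod] at hB
  obtain ⟨w, hw, h0⟩ := P.exists_le_E fun ω => P.E fun ω' =>
    ind (U ω + 2 ≤ U ω' ∨ U ω' + 2 ≤ U ω)
  have h1 : (P.pr fun ω => U w + 2 ≤ U ω ∨ U ω + 2 ≤ U w) < 1 / 2 := h0.trans_lt hB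
  have hc : (1 : ℝ) ≤ F.card := by exact_mod_cast card_pos.2 ⟨_, hF w hw⟩
  have hl : 0 ≤ log (F.card : ℝ) := log_nonneg hc
  have h3 : (0 : ℝ) ≤ log 3 := log_nonneg (by norm_num)
  have h2 := P.H_le_add U fun ω => U w + 2 ≤ U ω ∨ U ω + 2 ≤ U w
  have h4 := H_ind_le P fun ω => U w + 2 ≤ U ω ∨ U ω + 2 ≤ U w
  have h5 := P.Hc_le_E (Z := U) (V := fun ω => U w + 2 ≤ U ω ∨ U ω + 2 ≤ U w)
    (N := fun ω => if U w + 2 ≤ U ω ∨ U ω + 2 ≤ U w then (F.card : ℝ) else 3) fun ω _ => by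
      by_cases h : U w + 2 ≤ U ω ∨ U ω + 2 ≤ U w
      · exact ⟨F, by rw [if_pos h], fun ω' h' _ => hF ω' h'⟩
      · refine ⟨{U w - 1, U w, U w + 1}, ?_, fun ω' _ e => ?_⟩
        · rw [if_neg h]
          exact_mod_cast card_le_three
        · have e' : ¬ (U w + 2 ≤ U ω' ∨ U ω' + 2 ≤ U w) := fun x => h (e ▸ x)
          simp only [mem_insert, mem_singleton]
          omega
  have h6 : (P.E fun ω =>
      log (if U w + 2 ≤ U ω ∨ U ω + 2 ≤ U w then (F.card : ℝ) else 3)) ≤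
      P.E fun ω => log 3 + ind (U w + 2 ≤ U ω ∨ U ω + 2 ≤ U w) * log (F.card : ℝ) :=
    P.E_mono fun ω _ => by
      by_cases h : U w + 2 ≤ U ω ∨ U ω + 2 ≤ U w
      · rw [if_pos h, ind_pos h]; linarith
      · rw [if_neg h, ind_neg h]; linarith
  rw [FP.E_add, FP.E_const, FP.E_mul_right] at h6
  have h7 : log 6 = log 2 + log 3 := by
    rw [← log_mul (by norm_num) (by norm_num)]; norm_num
  have h8 := mul_le_mul_of_nonneg_right h1.le hl
  unfold FP.pr at h8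
  linarith

end Pool.Agent.P.MP_7b3100_nt.DZ
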