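import Pool.Agent.P.MP_7b3100_nt.DZ.If

/-! Step ONE. -/

namespace Pool.Agent.P.MP_7b3100_nt.DZ

open Finset Real Pool.Agent.P.MP_bf60a1_an.RA
open Pool.Agent.P.MP_e94e4b_nt (ee)

theorem p_ONE (hKR : S_KR) :
    S_ONE := by
  obtain ⟨C, hC, h⟩ := hKR
  refine ⟨C, hC, fun Ω _ k P v I a w x hw ha hI => ?_⟩
  refine le_trans (FP.pr_mono _ fun ω _ h => ?_) (((pis P).pr_exists_le (range (⌊2 * a / w⌋₊ + 1))
    fun n ω => x - a + n * w ≤ ∑ i, v i (ω i) ∧ ∑ i, v i (ω i) ≤ x - a + n * w + w).trans ?_)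
  · obtain ⟨h1, h2⟩ := abs_le.1 h
    set s := ∑ i, v i (ω i)
    have h3 : 0 ≤ (s - x + a) / w := div_nonneg (by linarith) hw.le
    have h4 := (le_div_iff₀ hw).1 (Nat.floor_le h3)
    have h5 := (div_lt_iff₀ hw).1 (Nat.lt_floor_add_one ((s - x + a) / w))
    refine ⟨⌊(s - x + a) / w⌋₊, mem_range.2 (Nat.lt_succ_of_le (Nat.floor_mono ?_)), by linarith,
      by linarith⟩
    exact div_le_div_of_nonneg_right (by linarith) hw.le
  · refine (sum_le_card_nsmul _ _ _ fun n _ => h Ω k P v I w _ hw.le hI).trans ?_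
    rw [nsmul_eq_mul, card_range, mul_div_assoc _ C, Nat.cast_add_one]
    exact mul_le_mul_of_nonneg_right (add_le_add_left (Nat.floor_le (by positivity)) _)
      (by positivity)

end Pool.Agent.P.MP_7b3100_nt.DZ
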