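import Pool.Agent.P.MP_7b3100_nt.DZ.If

/-! Step RF. -/

namespace Pool.Agent.P.MP_7b3100_nt.DZ

open Finset Real Pool.Agent.P.MP_bf60a1_an.RA
open Pool.Agent.P.MP_e94e4b_nt (ee)

namespace RFc

open Pool.Agent.P.MP_e94e4b_nt

variable {q : ℕ} [NeZero q]

theorem sum_zmod (f : ZMod q → ℝ) : ∑ d ∈ range q, f d = ∑ x, f x :=
  sum_nbij' (fun d => (d : ZMod q)) ZMod.val (fun _ _ => mem_univ _)
    (fun x _ => mem_range.2 (ZMod.val_lt x)) (fun _ hd => ZMod.val_cast_of_lt (mem_range.1 hd))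
    (fun x _ => ZMod.natCast_zmod_val x) fun _ _ => rfl

theorem sum_ind (Y : Finset (ZMod q)) (f : ZMod q → ℝ) :
    ∑ x, f x * ind (x ∈ Y) = ∑ y ∈ Y, f y := by
  rw [← sum_subset (subset_univ Y) fun x _ hx => by rw [ind_neg hx, mul_zero]]
  exact sum_congr rfl fun x hx => by rw [ind_pos hx, mul_one]

theorem rho_eq (Y : Finset (ZMod q)) (t : ZMod q) :
    rho Y t = (∑ y ∈ Y, ind (t + y ∈ Y)) / q - (Y.card / q) ^ 2 := by
  have hq : (q : ℝ) ≠ 0 := mod_cast NeZero.ne q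
  have h1 : ∑ x, ind (x ∈ Y) = Y.card := by simpa using sum_ind Y fun _ => 1
  have h2 : ∑ x, ind (t + x ∈ Y) = Y.card :=
    (Equiv.sum_comp (Equiv.addLeft t) fun x => ind (x ∈ Y)).trans h1
  rw [rho, sum_zmod fun x => (ind (t + x ∈ Y) - Y.card / q) * (ind (x ∈ Y) - Y.card / q)]
  simp only [mul_sub, sum_sub_distrib, sum_ind, ← sum_mul, h2, sum_const, card_univ, ZMod.card,
    nsmul_eq_mul]
  field_simp
  ring

theorem orth (m : ℤ) :
    ∑ a ∈ Ico 1 q, ee (a * (m / q)) = q * (ind ((m : ZMod q) = 0) : ℝ) - 1 := by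
  have hq : (q : ℝ) ≠ 0 := mod_cast NeZero.ne q
  rw [ZMod.intCast_zmod_eq_zero_iff_dvd]
  by_cases h : (q : ℤ) ∣ m
  · rw [ind_pos h]
    obtain ⟨c, rfl⟩ := h
    rw [sum_congr rfl (g := fun _ => 1) fun a _ => by
      rw [← ee_int (a * c)]; congr 1; push_cast; field_simp]
    simp [NeZero.one_le]
  · simp [ind_neg h, root_sum (NeZero.pos q) h]

omit [NeZero q] in
theorem ind_mem (Y : Finset (ZMod q)) (x : ZMod q) : ind (x ∈ Y) = ∑ y ∈ Y, ind (x = y) := by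
  by_cases h : x ∈ Y
  · simpa [ind_pos h] using (sum_ind_eq Y (fun _ => 1) h).symm
  · rw [ind_neg h, sum_eq_zero fun y hy => ind_neg fun e : x = y => h (e ▸ hy)]

theorem key (Y : Finset (ZMod q)) (t : ℕ) : (rho Y t : ℂ) = ∑ a ∈ Ico 1 q,
    ((‖∑ y ∈ Y, ee (y.val * ((a : ℝ) / q))‖ ^ 2 / q ^ 2 : ℝ) : ℂ) * ee (t * ((a : ℝ) / q)) := by
  have hq : (q : ℂ) ≠ 0 := mod_cast NeZero.ne q
  have h1 : ∀ a : ℕ, ((‖∑ y ∈ Y, ee (y.val * ((a : ℝ) / q))‖ ^ 2 / q ^ 2 : ℝ) : ℂ) *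
      ee (t * ((a : ℝ) / q)) =
      (∑ y ∈ Y, ∑ y' ∈ Y, ee (a * ((t + y.val - y'.val : ℤ) / q))) / q ^ 2 := fun a => by
    push_cast
    rw [← Complex.mul_conj', map_sum, sum_mul_sum, div_mul_eq_mul_div, sum_mul]
    congr 1
    refine sum_congr rfl fun y _ => ?_
    rw [sum_mul]
    refine sum_congr rfl fun y' _ => ?_
    rw [conj_ee, ← ee_add, ← ee_add]
    congr 1
    ring
  simp only [h1]
  rw [← sum_div, sum_comm, sum_congr rfl fun y _ => sum_comm]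
  simp only [orth, rho_eq, ind_mem Y]
  simp only [Int.cast_sub, Int.cast_add, Int.cast_natCast, ZMod.natCast_zmod_val, sub_eq_zero,
    sum_sub_distrib, ← mul_sum, sum_const, nsmul_eq_mul]
  push_cast
  field_simp

end RFc

theorem p_RF :
    S_RF := by
  intro q Y hq
  have : NeZero q := ⟨hq.ne'⟩
  refine ⟨_, fun a => by positivity, ?_, RFc.key Y⟩
  have h := RFc.key Y 0
  simp only [Nat.cast_zero, zero_mul, Pool.Agent.P.MP_e94e4b_nt.ee_zero, mul_one,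
    ← Complex.ofReal_sum, Complex.ofReal_inj] at h
  rw [← h, RFc.rho_eq]
  refine (sub_le_self _ (sq_nonneg _)).trans ?_
  gcongr
  simpa using sum_le_sum fun y (_ : y ∈ Y) => ind_le_one (0 + y ∈ Y)

end Pool.Agent.P.MP_7b3100_nt.DZ
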