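import Pool.Agent.P.MP_7b3100_nt.DZ.If

/-! Step RSUB. -/

namespace Pool.Agent.P.MP_7b3100_nt.DZ

open Finset Real Pool.Agent.P.MP_bf60a1_an.RA
open Pool.Agent.P.MP_e94e4b_nt (ee)

theorem p_RSUB :
    S_RSUB := by
  intro Q φ r B hr hQ h
  obtain ⟨n, hn⟩ := Nat.exists_eq_add_of_le hQ
  induction n generalizing Q with
  | zero =>
    rw [hn, Nat.add_zero]
    exact mul_le_mul_of_nonneg_left (h Q subset_rfl hn) (Nat.cast_nonneg _)
  | succ n ih =>
    obtain ⟨a, ha, hmin⟩ := exists_min_image Q φ (card_pos.1 (by omega))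
    have hc : (Q.erase a).card = r + n := by rw [card_erase_of_mem ha]; omega
    have h1 := ih (Q.erase a) (by omega) (fun R hR => h R (hR.trans (erase_subset _ _))) hc
    obtain ⟨R, hR, hRc⟩ := exists_subset_card_eq hQ
    have h2 : (r : ℝ) * φ a ≤ B := by
      refine le_trans ?_ (h R hR hRc)
      rw [← hRc, ← nsmul_eq_mul]
      exact card_nsmul_le_sum R φ _ fun q hq => hmin q (hR hq)
    rw [← add_sum_erase Q φ ha, hn]
    rw [hc] at h1
    push_cast at h1 ⊢
    linarith

end Pool.Agent.P.MP_7b3100_nt.DZ
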