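import Pool.Agent.P.MP_7b3100_nt.DZ.If

/-! Step SCALE. -/

namespace Pool.Agent.P.MP_7b3100_nt.DZ

open Finset Real Pool.Agent.P.MP_bf60a1_an.RA
open Pool.Agent.P.MP_e94e4b_nt (ee)

theorem p_SCALE (hSTEP : S_STEP) (hCHAIN : S_CHAIN) (hCHB : S_CHB) (hSCN : S_SCN) :
    S_SCALE := by
  intro b h Hy
  obtain ⟨c, C1, C2, y0, hc, hC1, hS⟩ := hSTEP b h Hy
  obtain ⟨y1, hy1⟩ := hCHB
  obtain ⟨c', H0, hc', hN⟩ := hSCN C1 C2 (max y0 (max b y1)) hC1
  obtain ⟨M0, hM2, hM⟩ : ∃ M0 : ℕ, 2 ≤ M0 ∧ 12 ≤ (M0 : ℝ) * c :=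
    ⟨⌈12 / c⌉₊ + 2, by omega, by
      have := Nat.le_ceil (12 / c)
      rw [div_le_iff₀ hc] at this
      push_cast
      nlinarith⟩
  refine ⟨c * c' / 4, 2 * M0, H0, by positivity, fun H hH => ?_⟩
  obtain ⟨h2, y, hy, e1, e2, e3⟩ := hN H hH
  simp only [ge_iff_le, max_le_iff] at hy
  obtain ⟨J, hJ, hP⟩ := hS y hy.1
  have hJH : J ≤ H := hJ.trans e2
  have key := hCHAIN b J H M0 (Qy y) _ Hy.hb
    (fun q hq => ⟨(mem_Qy.1 hq).2.2, hy.2.1.trans_lt (mem_Qy.1 hq).1⟩) (hP H e1)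
  refine ⟨(J + H) * M0, by nlinarith, by nlinarith, ?_⟩
  have h6 := (hy1 y hy.2.2).2.1
  have hH0 : (0 : ℝ) < H := by exact_mod_cast (by omega : 0 < H)
  have hM0 : (0 : ℝ) < M0 := by exact_mod_cast (by omega : 0 < M0)
  have hJ0 : (0 : ℝ) ≤ J := by positivity
  have hy0 : (0 : ℝ) ≤ y := by positivity
  have hJH' : (J : ℝ) ≤ H := by exact_mod_cast hJH
  have hl : 0 < log H := log_pos (by exact_mod_cast h2)
  have s1 : h * J ≤ J * (lp b H / H) := by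
    rw [mul_comm]
    gcongr
    rw [le_div_iff₀ hH0]
    exact Hy.le H
  have s0 : c' / log H * H ≤ y := by
    rw [div_mul_eq_mul_div, div_le_iff₀ hl]
    exact e3
  have s2 : c * c' / 4 / log H * (J + H) ≤ c * y / 2 :=
    calc _ ≤ c * c' / 4 / log H * (H + H) := by gcongr
      _ = c * (c' / log H * H) / 2 := by ring
      _ ≤ _ := by gcongr
  have s3 : lp b H / H * (J + H) = J * (lp b H / H) + lp b H := by field_simp
  have s4 : h * J + lp b H - c * y / 2 ≤ (lp b H / H - c * c' / 4 / log H) * (J + H) := by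
    rw [sub_mul, s3]
    linarith
  rw [div_le_iff₀ (by push_cast; positivity)]
  push_cast
  calc _ ≤ _ := key
    _ ≤ M0 * (h * J + lp b H - c * y / 2) := by nlinarith [mul_le_mul_of_nonneg_right hM hy0]
    _ ≤ M0 * ((lp b H / H - c * c' / 4 / log H) * (J + H)) := by gcongr
    _ = _ := by ring

end Pool.Agent.P.MP_7b3100_nt.DZ
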