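import Pool.Agent.P.MP_7b3100_nt.DZ.If

/-! Step SCN. -/

namespace Pool.Agent.P.MP_7b3100_nt.DZ

open Finset Real Pool.Agent.P.MP_bf60a1_an.RA
open Pool.Agent.P.MP_e94e4b_nt (ee)

namespace SCNc

theorem ev (B : ℝ) (hB : 0 < B) :
    ∃ H0 : ℕ, ∀ H ≥ H0, 2 ≤ H ∧ 1 ≤ log (H : ℝ) ∧ B * log (H : ℝ) ≤ H := by
  have h1 := (tendsto_natCast_atTop_atTop (R := ℝ)).eventually
    (Real.isLittleO_log_id_atTop.bound (inv_pos.2 hB))
  have h2 := (Real.tendsto_log_atTop.comp (tendsto_natCast_atTop_atTop (R := ℝ))).eventually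
    (Filter.eventually_ge_atTop 1)
  obtain ⟨H0, h⟩ := Filter.eventually_atTop.1 ((h1.and h2).and (Filter.eventually_ge_atTop 2))
  refine ⟨H0, fun H hH => ?_⟩
  obtain ⟨⟨a1, a2⟩, a3⟩ := h H hH
  have a2' : 1 ≤ log (H : ℝ) := a2
  refine ⟨a3, a2', ?_⟩
  simp only [id, Real.norm_eq_abs] at a1
  rw [abs_of_nonneg (by linarith), abs_of_nonneg (Nat.cast_nonneg H)] at a1
  have := mul_le_mul_of_nonneg_left a1 hB.le
  rwa [← mul_assoc, mul_inv_cancel₀ hB.ne', one_mul] at this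

end SCNc

theorem p_SCN :
    S_SCN := by
  intro C1 C2 y0 hC1
  obtain ⟨A, hA⟩ : ∃ A : ℝ, A = C1 + C2 + 1 := ⟨_, rfl⟩
  have hC2 : (0 : ℝ) ≤ C2 := Nat.cast_nonneg _
  have hy0 : (0 : ℝ) ≤ y0 := Nat.cast_nonneg _
  have hA1 : 1 ≤ A := by linarith
  obtain ⟨H0, h⟩ := SCNc.ev ((y0 + 2) * A) (by positivity)
  refine ⟨1 / (2 * A), H0, by positivity, fun H hH => ?_⟩
  obtain ⟨a1, a2, a3⟩ := h H hH
  have hL : 1 ≤ A * log (H : ℝ) := one_le_mul_of_one_le_of_one_le hA1 a2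
  have hL0 : 0 < A * log (H : ℝ) := by linarith
  obtain ⟨x, hx⟩ : ∃ x : ℝ, x = H / (A * log (H : ℝ)) := ⟨_, rfl⟩
  have b1 : (y0 : ℝ) + 2 ≤ x := by
    rw [hx, le_div_iff₀ hL0, ← mul_assoc]; exact a3
  have b2 : (⌊x⌋₊ : ℝ) ≤ x := Nat.floor_le (by linarith)
  have b3 : x < ⌊x⌋₊ + 1 := Nat.lt_floor_add_one x
  have b4 : x * (A * log (H : ℝ)) = H := by rw [hx, div_mul_cancel₀ _ hL0.ne']
  obtain ⟨y, hy⟩ : ∃ y : ℕ, y = ⌊x⌋₊ := ⟨_, rfl⟩
  rw [← hy] at b2 b3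
  have c1 : (1 : ℝ) ≤ y := by linarith
  have c2 : (y : ℝ) * (A * log (H : ℝ)) ≤ H :=
    (mul_le_mul_of_nonneg_right b2 hL0.le).trans b4.le
  have c3 : (y : ℝ) ≤ H := by nlinarith
  have c4 : log (y : ℝ) ≤ log (H : ℝ) := log_le_log (by linarith) c3
  have c5 : (y : ℝ) ≤ y * log (H : ℝ) := le_mul_of_one_le_right (by linarith) a2
  have c6 : (y : ℝ) * log (y : ℝ) ≤ y * log (H : ℝ) :=
    mul_le_mul_of_nonneg_left c4 (by linarith)
  have c7 : A * (y * log (H : ℝ)) ≤ H := by linarith [mul_left_comm A (y : ℝ) (log (H : ℝ))]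
  have c8 : (0 : ℝ) ≤ y * log (H : ℝ) := by linarith
  refine ⟨a1, y, ?_, ?_, ?_, ?_⟩
  · have : (y0 : ℝ) ≤ y := by linarith
    exact_mod_cast this
  · have d1 := mul_le_mul_of_nonneg_left c6 hC1
    have d2 : C1 * (y * log (H : ℝ)) ≤ A * (y * log (H : ℝ)) :=
      mul_le_mul_of_nonneg_right (by linarith) c8
    linarith
  · have d1 := mul_le_mul_of_nonneg_left c5 hC2
    have d2 : C2 * (y * log (H : ℝ)) ≤ A * (y * log (H : ℝ)) :=
      mul_le_mul_of_nonneg_right (by linarith) c8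
    have : (C2 : ℝ) * y ≤ H := by linarith
    exact_mod_cast this
  · have d1 : x ≤ 2 * y := by linarith
    have d2 := mul_le_mul_of_nonneg_right d1 hL0.le
    rw [b4] at d2
    rw [one_div, inv_mul_le_iff₀ (by positivity)]
    linarith [show 2 * (y : ℝ) * (A * log (H : ℝ)) = 2 * A * (y * log (H : ℝ)) by ring]

end Pool.Agent.P.MP_7b3100_nt.DZ
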