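import Pool.Agent.P.MP_7b3100_nt.DZ.If

/-! Step STA. -/

namespace Pool.Agent.P.MP_7b3100_nt.DZ

open Finset Real Pool.Agent.P.MP_bf60a1_an.RA
open Pool.Agent.P.MP_e94e4b_nt (ee)

namespace STAc

theorem mem_sv {b q n w z : ℕ} (hq : 0 < q) (h : Surv b q n w z) : z % q ∈ sv b q n w := by
  classical
  rw [sv, mem_filter, mem_range]
  exact ⟨Nat.mod_lt _ hq, h.congr (Nat.mod_modEq z q).symm⟩

theorem card_sv (b q n w : ℕ) : (sv b q n w).card ≤ q := by
  classical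
  rw [sv]
  exact (card_filter_le _ _).trans (card_range q).le

theorem log_le {q N s : ℝ} (h1 : 0 < N) (h2 : N ≤ q) :
    log N ≤ log q - s * (1 - ind (q * exp (-s) ≤ N)) := by
  by_cases h : q * exp (-s) ≤ N
  · rw [ind_pos h, sub_self, mul_zero, sub_zero]
    exact log_le_log h1 h2
  · rw [ind_neg h, sub_zero, mul_one]
    have h3 := log_le_log h1 (not_le.1 h).le
    rwa [log_mul (h1.trans_le h2).ne' (exp_pos _).ne', log_exp, ← sub_eq_add_neg] at h3

end STAc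

theorem p_STA (hCRT : S_CRT) :
    S_STA := by
  intro Ω _ P K Z b H R s hR _ hS
  refine (hCRT Ω P Z K R hR).trans ?_
  have h1 : ∀ q ∈ R, P.Hc (fun ω => Z ω % q) K ≤
      log q - s * (1 - P.pr fun ω => q * exp (-s) ≤ (sv b q H (K ω)).card) := fun q hq => by
    have h0 := (hR q hq).pos
    refine (P.Hc_le_E (N := fun ω => ((sv b q H (K ω)).card : ℝ)) fun ω _ =>
      ⟨sv b q H (K ω), le_rfl, fun ω' hω' e => e ▸ STAc.mem_sv h0 (hS ω' hω' q hq)⟩).trans ?_
    refine (P.E_mono (g := fun ω => log q - s *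
      (1 - ind (q * exp (-s) ≤ ((sv b q H (K ω)).card : ℝ)))) fun ω hω => STAc.log_le ?_ ?_).trans ?_
    · exact_mod_cast card_pos.2 ⟨_, STAc.mem_sv h0 (hS ω hω q hq)⟩
    · exact_mod_cast STAc.card_sv b q H (K ω)
    · rw [FP.E_sub, FP.E_const, FP.E_mul_left, FP.E_sub, FP.E_const, FP.pr]
  refine (sum_le_sum h1).trans (le_of_eq ?_)
  rw [sum_sub_distrib, ← mul_sum, sum_sub_distrib]
  simp

end Pool.Agent.P.MP_7b3100_nt.DZ
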