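import Pool.Agent.P.MP_7b3100_nt.DZ.If

/-! Step STB. -/

namespace Pool.Agent.P.MP_7b3100_nt.DZ

open Finset Real Pool.Agent.P.MP_bf60a1_an.RA
open Pool.Agent.P.MP_e94e4b_nt (ee)

theorem p_STB :
    S_STB := by
  intro Ω _ P Y R K Z N a x C hYZ hC hx
  have h1 := P.Hc_chain R K Y
  have h2 : P.Hc K (fun ω => (R ω, Y ω)) ≤ P.Hc K fun ω => (Z ω + R ω) % N :=
    P.Hc_mono_right K fun ω ω' h1 h2 h3 => by
      have e1 : R ω = R ω' := congrArg Prod.fst h3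
      have e2 : Z ω = Z ω' := hYZ ω ω' h1 h2 (congrArg Prod.snd h3)
      simp only [e1, e2]
  have h3 : (P.H fun ω => (K ω, (Z ω + R ω) % N)) = P.H fun ω => ((Z ω + R ω) % N, K ω) :=
    P.H_congr (fun _ _ _ _ h => by simp_all) fun _ _ _ _ h => by simp_all
  have h4 := P.Hc_le_H K fun ω => (Z ω + R ω) % N
  have h5 := P.Hc_le_H (fun ω => (Z ω + R ω) % N) Y
  have h6 : P.Hc (fun ω => R ω % N) Y ≤ P.Hc (fun ω => (Z ω + R ω) % N) Y :=
    P.Hc_mono_left fun ω ω' h1 h2 h3 => by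
      have e1 : (Z ω + R ω) % N = (Z ω' + R ω') % N := congrArg Prod.fst h3
      have e2 : Z ω = Z ω' := hYZ ω ω' h1 h2 (congrArg Prod.snd h3)
      rw [e2] at e1
      exact Nat.ModEq.add_left_cancel' (Z ω') e1
  have h7 : P.H K - P.Hc K (fun ω => (Z ω + R ω) % N) =
      P.H (fun ω => (Z ω + R ω) % N) - P.Hc (fun ω => (Z ω + R ω) % N) K := by
    unfold FP.Hc; rw [h3]; ring
  have hC0 : 0 < C := by linarith
  have h8 : x / C ≤ (a - P.Hc R Y) + (P.H K - P.Hc K fun ω => (Z ω + R ω) % N) := by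
    rw [div_le_iff₀ hC0]
    have h9 := mul_nonneg (sub_nonneg.2 h4) (sub_nonneg.2 hC)
    linarith
  linarith

end Pool.Agent.P.MP_7b3100_nt.DZ
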