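import Pool.Agent.P.MP_7b3100_nt.DZ.If

/-! Step STEP. -/

namespace Pool.Agent.P.MP_7b3100_nt.DZ

open Finset Real Pool.Agent.P.MP_bf60a1_an.RA
open Pool.Agent.P.MP_e94e4b_nt (ee)

namespace STEPc

/-- the numerical part -/
theorem num {c0 C1 Cw C y l H A Lq n σ hH HK lp x : ℝ} (hc0 : 0 < c0) (hC1 : 0 ≤ C1)
    (hCw : 0 ≤ Cw) (hC : 1 ≤ C) (hy : 0 < y) (hl : 1 ≤ l) (hn : 0 ≤ n)
    (hH1 : (C1 + 6 * c0 * Cw + 1) * (y * l) ≤ H) (a1 : Lq - c0 / 12 * y ≤ A) (a2 : A ≤ 6 * y)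
    (a3 : y ≤ 2 * (n * l)) (a4 : n * l ≤ 6 * y) (w : H * σ ≤ n * (H / 3 + Cw * (hH - HK)))
    (k1 : HK ≤ lp) (k2 : hH ≤ lp)
    (hx : x = (1 - c0 / 72) * A - Lq + c0 * l * (n - σ)) :
    HK - x / C ≤ lp - c0 / (6 * C) * y := by
  have y1 : y ≤ y * l := le_mul_of_one_le_right hy.le hl
  have p1 : 0 ≤ c0 * Cw := mul_nonneg hc0.le hCw
  have h1 : 6 * (c0 * Cw) * y + y ≤ H := by
    have b1 : 0 ≤ C1 * (y * l) := mul_nonneg hC1 (by linarith)
    have b2 : 6 * (c0 * Cw) * y ≤ 6 * (c0 * Cw) * (y * l) :=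
      mul_le_mul_of_nonneg_left y1 (by linarith)
    nlinarith
  have p2 : 0 ≤ 6 * (c0 * Cw) * y := by positivity
  have H0 : 0 < H := by linarith
  have C0 : 0 < C := by linarith
  obtain ⟨e, he⟩ : ∃ e, e = c0 * Cw * (n * l) / H := ⟨_, rfl⟩
  have e0 : 0 ≤ e := by rw [he]; positivity
  have e1 : e ≤ 1 := by
    rw [he, div_le_one H0]
    nlinarith [mul_le_mul_of_nonneg_left a4 p1]
  have s1 : σ ≤ n / 3 + n * Cw * (hH - HK) / H := by
    rw [← sub_le_iff_le_add', le_div_iff₀ H0]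
    nlinarith
  have s2 : c0 * l * σ ≤ c0 * (n * l) / 3 + e * (hH - HK) := by
    refine (mul_le_mul_of_nonneg_left s1 (by positivity)).trans (le_of_eq ?_)
    rw [he]; ring
  have x1 : c0 / 6 * y - e * (hH - HK) ≤ x := by
    rw [hx]
    nlinarith [mul_le_mul_of_nonneg_left a2 hc0.le, mul_le_mul_of_nonneg_left a3 hc0.le]
  have t0 : 0 ≤ e / C := by positivity
  have t1 : e / C ≤ 1 := by rw [div_le_one C0]; linarith
  have x2 : c0 / (6 * C) * y - e / C * (hH - HK) ≤ x / C := by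
    refine le_trans (le_of_eq ?_) (div_le_div_of_nonneg_right x1 C0.le)
    field_simp
  nlinarith [mul_le_mul_of_nonneg_left k2 t0, mul_le_mul_of_nonneg_left k1 (sub_nonneg.2 t1)]

end STEPc

theorem p_STEP (hAP : S_AP) (hWIN : S_WIN) (hSTA : S_STA) (hSTB : S_STB) (hSTN : S_STN) (hCHB : S_CHB) :
    S_STEP := by
  intro b h hh
  obtain ⟨c0, C1, Cw, y1, hc0, hC1, hCw, hw⟩ := hWIN b h hh
  obtain ⟨S, L, j0, C, hS, hL, hC, hap⟩ := hAP b h (c0 / 72) hh (by positivity)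
  obtain ⟨y2, hn⟩ := hSTN b S L j0 (c0 / 12) hh.hb hS hL (by positivity)
  obtain ⟨y3, hc⟩ := hCHB
  refine ⟨c0 / (6 * C), C1 + 6 * c0 * Cw + 1, 9 * S, y1 + y2 + y3 + 3, by positivity,
    by positivity, fun y hy => ?_⟩
  obtain ⟨hby, j, j1, j2, j3, j4, j5, j6⟩ := hn y (by omega)
  obtain ⟨-, -, c3, c4⟩ := hc y (by omega)
  have y0 : (3 : ℝ) ≤ y := by exact_mod_cast (show 3 ≤ y by omega)
  have l1 : 1 ≤ log (y : ℝ) := by
    rw [le_log_iff_exp_le (by linarith)]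
    linarith [exp_one_lt_d9]
  refine ⟨S * j, by nlinarith, fun H hH Ω _ P Y R K Z hR hK hZ hs => ?_⟩
  have hcop : b.Coprime (∏ q ∈ Qy y, q) :=
    Nat.Coprime.prod_right fun q hq => coprime_of_mem hh.hb hby hq
  have a1 : (1 - c0 / 72) * (j * log b) - C * (h * (S * j : ℕ) - P.Hc R Y) ≤
      P.Hc (fun ω => R ω % ∏ q ∈ Qy y, q) Y := by
    have := P.E_mono fun ω _ => hap j j1 j2 _ hcop j3 Ω (P.cv Y (Y ω)) R (hR.cv Y (Y ω))
    rwa [P.E_sub, P.E_const, P.E_mul_left, P.E_sub, P.E_const, P.E_H_cv, P.E_H_cv] at this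
  have a2 := hSTA Ω P K (fun ω => Z ω + R ω) b H (Qy y) (c0 * log y)
    (fun q hq => (mem_Qy.1 hq).2.2) (by positivity) hs
  have a3 := hw y (by omega) H (le_trans (mul_le_mul_of_nonneg_right
    (by nlinarith [mul_nonneg hc0.le hCw]) (by positivity)) hH) Ω P K hK
  rw [rpow_def_of_pos (by linarith), show log (y : ℝ) * -c0 = -(c0 * log y) by ring] at a3
  have a4 := hSTB Ω P Y R K Z (∏ q ∈ Qy y, q) (h * (S * j : ℕ))
    ((1 - c0 / 72) * (j * log b) - ∑ q ∈ Qy y, log q + c0 * log y * ((Qy y).card -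
      ∑ q ∈ Qy y, P.pr fun ω => q * exp (-(c0 * log y)) ≤ (sv b q H (K ω)).card)) C hZ hC
    (by linarith)
  have a5 := STEPc.num hc0 hC1 hCw hC (by linarith) l1 (Nat.cast_nonneg _) hH j5 j6 c3 c4 a3
    hK.H_le (hh.le H) rfl
  linarith

end Pool.Agent.P.MP_7b3100_nt.DZ
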