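import Pool.Agent.P.MP_7b3100_nt.DZ.If

/-! Step STN. -/

namespace Pool.Agent.P.MP_7b3100_nt.DZ

open Finset Real Pool.Agent.P.MP_bf60a1_an.RA
open Pool.Agent.P.MP_e94e4b_nt (ee)

theorem p_STN (hCHB : S_CHB) :
    S_STN := by
  intro b S L j0 c hb hS hL hc
  obtain ⟨y1, hy1⟩ := hCHB
  have hb0 : (0 : ℝ) < b := by exact_mod_cast (by omega : 0 < b)
  have hb2 : log 2 ≤ log b := log_le_log (by norm_num) (by exact_mod_cast hb)
  have hl2 : (2 / 3 : ℝ) < log 2 := by have := log_two_gt_d9; linarith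
  have hlb : 0 < log b := by linarith
  have hS0 : (0 : ℝ) < S := by exact_mod_cast hS
  have hlS : 0 ≤ log S := log_nonneg (by exact_mod_cast hS)
  have hLb : 0 ≤ (L : ℝ) * log b := by positivity
  have hjb : 0 ≤ (j0 : ℝ) * log b := by positivity
  obtain ⟨y2, hy2⟩ := exists_nat_ge ((log S + L * log b) / c)
  obtain ⟨y3, hy3⟩ := exists_nat_ge (log S + L * log b + j0 * log b)
  refine ⟨max (max y1 b) (max y2 y3), fun y hy => ?_⟩
  have h1 : y1 ≤ y := le_trans (le_trans (le_max_left _ _) (le_max_left _ _)) hy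
  have h2 : b ≤ y := le_trans (le_trans (le_max_right _ _) (le_max_left _ _)) hy
  have h3 : (y2 : ℝ) ≤ y := by
    exact_mod_cast le_trans (le_trans (le_max_left _ _) (le_max_right _ _)) hy
  have h4 : (y3 : ℝ) ≤ y := by
    exact_mod_cast le_trans (le_trans (le_max_right _ _) (le_max_right _ _)) hy
  obtain ⟨ha, hb6, -, -⟩ := hy1 y h1
  have hq : ∀ q ∈ Qy y, 0 < q := fun q hq => (mem_filter.1 hq).2.pos
  have hN : 0 < ∏ q ∈ Qy y, q := prod_pos hq
  have hlog : log ((∏ q ∈ Qy y, q : ℕ) : ℝ) = ∑ q ∈ Qy y, log q := by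
    rw [Nat.cast_prod, log_prod]
    intro q h
    exact_mod_cast (hq q h).ne'
  generalize (∏ q ∈ Qy y, q) = N at hN hlog ⊢
  generalize (∑ q ∈ Qy y, log (q : ℝ)) = l at ha hb6 hlog ⊢
  have hN0 : (0 : ℝ) < N := by exact_mod_cast hN
  have hSN : S ≤ N := by
    have : log S ≤ log N := by linarith
    exact_mod_cast (log_le_log_iff hS0 hN0).1 this
  have hd : N / S ≠ 0 := (Nat.div_pos hSN hS).ne'
  have hbL : 1 < b ^ L := Nat.one_lt_pow hL.ne' (by omega)
  have e1 := Nat.pow_log_le_self (b ^ L) hd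
  have e2 := Nat.lt_pow_succ_log_self hbL (N / S)
  generalize Nat.log (b ^ L) (N / S) = t at e1 e2
  have f1 : S * b ^ (L * t) ≤ N := by
    rw [pow_mul, mul_comm]
    exact (Nat.le_div_iff_mul_le hS).1 e1
  have f2 : N < S * b ^ (L * t + L) := by
    rw [← Nat.mul_succ, pow_mul, mul_comm]
    exact (Nat.div_lt_iff_lt_mul hS).1 e2
  have g1 : log S + ((L * t : ℕ) : ℝ) * log b ≤ l := by
    have : ((S * b ^ (L * t) : ℕ) : ℝ) ≤ N := by exact_mod_cast f1
    have h := log_le_log (by positivity) this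
    rw [Nat.cast_mul, Nat.cast_pow, log_mul hS0.ne' (by positivity), log_pow] at h
    linarith
  have g2 : l ≤ log S + ((L * t : ℕ) : ℝ) * log b + L * log b := by
    have : (N : ℝ) ≤ ((S * b ^ (L * t + L) : ℕ) : ℝ) := by exact_mod_cast f2.le
    have h := log_le_log hN0 this
    rw [Nat.cast_mul, Nat.cast_pow, log_mul hS0.ne' (by positivity), log_pow, Nat.cast_add] at h
    linarith
  generalize hj : L * t = j at f1 g1 g2
  have hcy : log S + L * log b ≤ c * y := by
    have := (div_le_iff₀ hc).1 (hy2.trans h3)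
    linarith
  have hj0 : (0 : ℝ) ≤ j := Nat.cast_nonneg j
  refine ⟨h2, j, ?_, hj ▸ dvd_mul_right L t, f1, ?_, by linarith, by linarith⟩
  · have : (j0 : ℝ) * log b ≤ j * log b := by linarith
    exact_mod_cast le_of_mul_le_mul_right this hlb
  · have : (j : ℝ) ≤ 9 * y := by nlinarith
    exact_mod_cast this

end Pool.Agent.P.MP_7b3100_nt.DZ
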