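import Pool.Agent.P.MP_7b3100_nt.DZ.If

/-! Step TEL. -/

namespace Pool.Agent.P.MP_7b3100_nt.DZ

open Finset Real Pool.Agent.P.MP_bf60a1_an.RA
open Pool.Agent.P.MP_e94e4b_nt (ee)

theorem p_TEL :
    S_TEL := by
  intro Ω _ P F b m j hb hj hF
  obtain ⟨d, rfl⟩ := Nat.exists_eq_add_of_le hj
  set c : ℕ → ℝ := fun k => P.H fun ω => F ω / b ^ k with hc
  have hl : 0 ≤ log (b : ℝ) := log_natCast_nonneg b
  have h1 : ∑ i ∈ Icc j (j + d), P.Hc (fun ω => lo b (j + d) j i (F ω))
      (fun ω => hi b (j + d) j i (F ω)) = ∑ k ∈ range (d + 1), (c k - c (j + k)) := by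
    refine sum_nbij' (fun i => j + d - i) (fun k => j + d - k) (fun i h => ?_) (fun i h => ?_)
      (fun i h => ?_) (fun i h => ?_) fun i _ => ?_
    · simp only [mem_Icc, mem_range] at h ⊢; omega
    · simp only [mem_Icc, mem_range] at h ⊢; omega
    · simp only [mem_Icc] at h; omega
    · simp only [mem_range] at h; omega
    · have := H_cut P (fun ω => F ω / b ^ (j + d - i)) (b ^ j)
      simp only [hc, lo, hi, pow_add, mul_comm (b ^ j), ← Nat.div_div_eq_div_mul]
      linarith
  have h2 : ∑ k ∈ range (d + 1), (c k - c (j + k)) = ∑ k ∈ range j, (c k - c (d + 1 + k)) := by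
    have e1 := sum_range_add c (d + 1) j
    have e2 := sum_range_add c j (d + 1)
    rw [add_comm j] at e2
    rw [sum_sub_distrib, sum_sub_distrib]
    linarith
  rw [h1, h2]
  have h3 : ∀ k ∈ range j, P.H F - 2 * j * log b ≤ c k - c (d + 1 + k) := fun k hk => by
    have hk' : (k : ℝ) ≤ j := by exact_mod_cast (mem_range.1 hk).le
    have a1 := H_cut P F (b ^ k)
    have a2 := P.Hc_le_H (fun ω => F ω % b ^ k) fun ω => F ω / b ^ k
    have a3 := H_le_of_lt P (X := fun ω => F ω % b ^ k) (N := b ^ k) fun ω _ =>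
      Nat.mod_lt _ (by positivity)
    have a4 := H_le_of_lt P (X := fun ω => F ω / b ^ (d + 1 + k)) (N := b ^ j) fun ω h =>
      Nat.div_lt_of_lt_mul ((hF ω h).trans_le (by
        rw [← pow_add]
        exact Nat.pow_le_pow_right hb (by omega)))
    rw [Nat.cast_pow, log_pow] at a3 a4
    have a5 := mul_le_mul_of_nonneg_right hk' hl
    simp only [hc]
    linarith
  have h4 := card_nsmul_le_sum _ _ _ h3
  rw [card_range, nsmul_eq_mul] at h4
  linarith

end Pool.Agent.P.MP_7b3100_nt.DZ
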