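import Pool.Agent.P.MP_7b3100_nt.DZ.If

/-! Step VF. -/

namespace Pool.Agent.P.MP_7b3100_nt.DZ

open Finset Real Pool.Agent.P.MP_bf60a1_an.RA
open Pool.Agent.P.MP_e94e4b_nt (ee ee_add ee_int norm_ee)

namespace VFc

theorem ee_mod {q : ℕ} (hq : 0 < q) (v c a : ℕ) :
    ee ((v : ℝ) * (((c * a % q : ℕ) : ℝ) / q)) = ee (((c * v : ℕ) : ℝ) * ((a : ℝ) / q)) := by
  have h0 : (q : ℝ) ≠ 0 := by positivity
  have h1 : ((c * a : ℕ) : ℝ) = q * ((c * a / q : ℕ) : ℝ) + ((c * a % q : ℕ) : ℝ) := by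
    exact_mod_cast (Nat.div_add_mod (c * a) q).symm
  have h2 : ((c * v : ℕ) : ℝ) * ((a : ℝ) / q) =
      (v : ℝ) * (((c * a % q : ℕ) : ℝ) / q) + ((v * (c * a / q) : ℕ) : ℤ) := by
    rw [Int.cast_natCast, Nat.cast_mul v, Nat.cast_mul c v]
    rw [Nat.cast_mul c a] at h1
    field_simp
    linear_combination (v : ℝ) * h1
  rw [h2, ee_add, ee_int, mul_one]

end VFc

theorem p_VF (hRF : S_RF) :
    S_VF := by
  intro Ω _ P V G lam q Y t c hq hc hE
  have : Fact q.Prime := ⟨hq⟩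
  obtain ⟨κ, h0, h1, h2⟩ := hRF q Y hq.pos
  have hb : ∀ a : ℕ, 0 < a → a < q → ‖ch P V G ((a : ℝ) / q)‖ ≤ lam := fun a a1 a2 =>
    not_lt.1 fun h => hE ⟨a, a1, a2, h⟩
  have hl : 0 ≤ lam := (norm_nonneg _).trans (hb 1 one_pos hq.one_lt)
  have e : ((P.E fun ω => ind (V ω ∈ G) * rho Y (t + c * V ω) : ℝ) : ℂ) =
      ∑ a ∈ Ico 1 q, (κ a : ℂ) * ee ((t.val : ℝ) * ((a : ℝ) / q)) *
        ch P V G (((c.val * a % q : ℕ) : ℝ) / q) := by
    simp only [FP.E, ch, mul_sum]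
    rw [sum_comm, Complex.ofReal_sum]
    refine sum_congr rfl fun ω _ => ?_
    have e1 : t + c * V ω = ((t.val + c.val * V ω : ℕ) : ZMod q) := by
      push_cast
      rw [ZMod.natCast_zmod_val, ZMod.natCast_zmod_val]
    rw [e1, ← mul_assoc, Complex.ofReal_mul _ (rho _ _), h2, mul_sum]
    refine sum_congr rfl fun a _ => ?_
    rw [VFc.ee_mod hq.pos, Nat.cast_add, add_mul, ee_add]
    ring
  rw [← Real.norm_eq_abs, ← Complex.norm_real, e]
  refine (norm_sum_le _ _).trans (le_trans (sum_le_sum (g := fun a => lam * κ a) fun a ha => ?_) ?_)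
  · rw [mem_Ico] at ha
    rw [norm_mul, norm_mul, norm_ee, mul_one, Complex.norm_real, Real.norm_of_nonneg (h0 a),
      mul_comm]
    refine mul_le_mul_of_nonneg_right (hb _ (Nat.pos_of_ne_zero fun h => ?_)
      (Nat.mod_lt _ hq.pos)) (h0 a)
    rcases hq.dvd_mul.1 (Nat.dvd_of_mod_eq_zero h) with d | d
    · exact hc (by rw [← ZMod.natCast_zmod_val c]; exact (ZMod.natCast_eq_zero_iff _ _).2 d)
    · exact absurd (Nat.le_of_dvd ha.1 d) (by omega)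
  · rw [← mul_sum]
    exact mul_le_mul_of_nonneg_left h1 hl

end Pool.Agent.P.MP_7b3100_nt.DZ
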