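import Pool.Agent.P.MP_7b3100_nt.DZ.If

/-! Step WA. -/

namespace Pool.Agent.P.MP_7b3100_nt.DZ

open Finset Real Pool.Agent.P.MP_bf60a1_an.RA
open Pool.Agent.P.MP_e94e4b_nt (ee)

namespace WAc

theorem tele {Ω : Type} [Fintype Ω] (P : FP Ω) (X : Ω → ℕ) (b l n : ℕ)
    (hX : ∀ ω, 0 < P.p ω → X ω < b ^ (l * n)) :
    ∑ e ∈ range n, P.Hc (fun ω => X ω / b ^ (l * (n - (e + 1))) % b ^ l)
      (fun ω => X ω / b ^ (l * (n - e))) = P.H X := by
  have h1 : ∀ e ∈ range n, P.Hc (fun ω => X ω / b ^ (l * (n - (e + 1))) % b ^ l)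
      (fun ω => X ω / b ^ (l * (n - e))) = (P.H fun ω => X ω / b ^ (l * (n - (e + 1)))) -
        P.H fun ω => X ω / b ^ (l * (n - e)) := fun e he => by
    have h2 : l * (n - (e + 1)) + l = l * (n - e) := by
      rw [← Nat.mul_succ]; congr 1; have := mem_range.1 he; omega
    have h3 := H_cut P (fun ω => X ω / b ^ (l * (n - (e + 1)))) (b ^ l)
    simp only [Nat.div_div_eq_div_mul, ← pow_add, h2] at h3
    linarith
  rw [sum_congr rfl h1, sum_range_sub fun e => P.H fun ω => X ω / b ^ (l * (n - e)),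
    P.H_ae (Z := fun ω => X ω / b ^ (l * (n - 0))) (G := fun _ => 0)
      fun ω hω => Nat.div_eq_of_lt (hX ω hω), P.H_const]
  simp

end WAc

theorem p_WA (hDET : S_DET) :
    S_WA := by
  intro b y l m n h C s hb hy hs hm hE Ω _ P X hX
  set A : ℕ → ℕ → ℕ → Prop := fun e q u => q * exp (-s) ≤ (sv b q (l * e) u).card with hA
  set B : ℕ → ℕ → ℕ → ℕ → Prop := fun e q u w =>
    (kil b q l (w / b ^ (l * (n - (e + 1))) % b ^ l) (b ^ (l * e)) u (sv b q (l * e) u) : ℝ) <
      m * (sv b q (l * e) u).card / (4 * q) with hB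
  have h1 : ∀ q ∈ Qy y, 3 / 4 * (m * n) * (P.pr fun ω => A n q (X ω)) ≤ m * ∑ e ∈ range n,
      P.E fun ω => ind (A e q (X ω / b ^ (l * (n - e)))) *
        ind (B e q (X ω / b ^ (l * (n - e))) (X ω)) := fun q hq => by
    rw [FP.pr, ← P.E_mul_left, ← P.E_sum, ← P.E_mul_left]
    refine P.E_mono fun ω _ => ?_
    obtain ⟨h2, h3, -⟩ := mem_Qy.1 hq
    by_cases h4 : A n q (X ω)
    · have h5 := hDET b q l m n (X ω) s (by omega) h4
      have h6 : (q : ℝ) * s ≤ 4 * y * s := mul_le_mul_of_nonneg_right (mod_cast h3) hs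
      rw [ind_pos h4]
      linarith
    · rw [ind_neg h4, mul_zero]
      exact mul_nonneg m.cast_nonneg (sum_nonneg fun _ _ => mul_nonneg (ind_nonneg _)
        (ind_nonneg _))
  have h2 : ∀ e ∈ range n, m * ∑ q ∈ Qy y, (P.E fun ω => ind (A e q (X ω / b ^ (l * (n - e)))) *
      ind (B e q (X ω / b ^ (l * (n - e))) (X ω))) ≤ (Qy y).card * (m / 5 + C * (h * l -
        P.Hc (fun ω => X ω / b ^ (l * (n - (e + 1))) % b ^ l)
          fun ω => X ω / b ^ (l * (n - e)))) := fun e he => by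
    have h3 : l * (n - (e + 1)) + l ≤ l * n := by
      rw [← Nat.mul_succ]; exact Nat.mul_le_mul_left _ (by have := mem_range.1 he; omega)
    have h4 := P.E_mono fun ω _ => hE Ω (P.cv (fun ω => X ω / b ^ (l * (n - e)))
      (X ω / b ^ (l * (n - e)))) _ (b ^ (l * e)) (X ω / b ^ (l * (n - e)))
      (fun q => sv b q (l * e) (X ω / b ^ (l * (n - e)))) ((hX.fac h3).cv _ _)
      (fun q hq => (coprime_of_mem hb hy hq).pow_left _) fun q => by
        classical exact filter_subset _ _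
    rw [P.E_mul_left, P.E_mul_left, P.E_add, P.E_mul_left, P.E_sub, P.E_const, P.E_const,
      P.E_H_cv, P.E_sum] at h4
    refine le_trans (le_of_eq ?_) h4
    congr 1
    refine sum_congr rfl fun q _ => ?_
    rw [← P.tower (fun ω => X ω / b ^ (l * (n - e))) fun u ω => ind (A e q u) * ind (B e q u (X ω))]
    exact P.E_congr fun ω _ => FP.E_mul_left _ _ _
  have h3 := sum_le_sum h1
  have h4 := sum_le_sum h2
  rw [← mul_sum, ← mul_sum, sum_comm] at h3
  rw [← mul_sum, ← mul_sum, sum_add_distrib, ← mul_sum, sum_sub_distrib, WAc.tele P X b l n hX.lt,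
    sum_const, sum_const, card_range, nsmul_eq_mul, nsmul_eq_mul] at h4
  refine (h3.trans h4).trans (le_of_eq ?_)
  push_cast
  ring

end Pool.Agent.P.MP_7b3100_nt.DZ
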