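import Pool.Agent.P.MP_7b3100_nt.DZ.If

/-! Step ZEX. -/

namespace Pool.Agent.P.MP_7b3100_nt.DZ

open Finset Real Pool.Agent.P.MP_bf60a1_an.RA
open Pool.Agent.P.MP_e94e4b_nt (ee)

theorem p_ZEX :
    S_ZEX := by
  intro b n w R hR hw
  choose! z hz using (mem_Lang.1 hw).2.2
  obtain ⟨x, hx⟩ := Nat.chineseRemainderOfFinset z id R (fun q hq => (hR q hq).1.ne_zero)
    fun p hp q hq e => (Nat.coprime_primes (hR p hp).1 (hR q hq).1).2 e
  refine ⟨x % ∏ q ∈ R, q, Nat.mod_lt _ (prod_pos fun q hq => (hR q hq).1.pos), fun q hq => ?_⟩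
  exact (hz q (hR q hq).1 (hR q hq).2).congr
    ((hx q hq).symm.trans ((Nat.mod_modEq _ _).symm.of_dvd (dvd_prod_of_mem _ hq)))

end Pool.Agent.P.MP_7b3100_nt.DZ
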