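import Pool.Agent.P.MP_7b3100_nt.DZ.TFEK
import Pool.Agent.P.MP_7b3100_nt.DZ.TITER
import Pool.Agent.P.MP_7b3100_nt.DZ.TEMB
import Pool.Agent.P.MP_7b3100_nt.DZ.TCNT
import Pool.Agent.P.MP_7b3100_nt.DZ.TDIMA
import Pool.Agent.P.MP_7b3100_nt.DZ.TDIM
import Pool.Agent.P.MP_7b3100_nt.DZ.TCHB
import Pool.Agent.P.MP_7b3100_nt.DZ.TCB
import Pool.Agent.P.MP_7b3100_nt.DZ.TLO
import Pool.Agent.P.MP_7b3100_nt.DZ.TBIN
import Pool.Agent.P.MP_7b3100_nt.DZ.TKR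
import Pool.Agent.P.MP_7b3100_nt.DZ.THOEF
import Pool.Agent.P.MP_7b3100_nt.DZ.TONE
import Pool.Agent.P.MP_7b3100_nt.DZ.TFST
import Pool.Agent.P.MP_7b3100_nt.DZ.TCM
import Pool.Agent.P.MP_7b3100_nt.DZ.TFLAT
import Pool.Agent.P.MP_7b3100_nt.DZ.TNBE
import Pool.Agent.P.MP_7b3100_nt.DZ.TGOOD
import Pool.Agent.P.MP_7b3100_nt.DZ.TFGP
import Pool.Agent.P.MP_7b3100_nt.DZ.TFG
import Pool.Agent.P.MP_7b3100_nt.DZ.TCHK
import Pool.Agent.P.MP_7b3100_nt.DZ.TPARS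
import Pool.Agent.P.MP_7b3100_nt.DZ.TMAJA
import Pool.Agent.P.MP_7b3100_nt.DZ.TMAJ
import Pool.Agent.P.MP_7b3100_nt.DZ.TGIB
import Pool.Agent.P.MP_7b3100_nt.DZ.TAPA
import Pool.Agent.P.MP_7b3100_nt.DZ.TAP
import Pool.Agent.P.MP_7b3100_nt.DZ.TLSQ
import Pool.Agent.P.MP_7b3100_nt.DZ.TFPA
import Pool.Agent.P.MP_7b3100_nt.DZ.TFP
import Pool.Agent.P.MP_7b3100_nt.DZ.TTEL
import Pool.Agent.P.MP_7b3100_nt.DZ.TGT
import Pool.Agent.P.MP_7b3100_nt.DZ.TRHO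
import Pool.Agent.P.MP_7b3100_nt.DZ.TRF
import Pool.Agent.P.MP_7b3100_nt.DZ.TVF
import Pool.Agent.P.MP_7b3100_nt.DZ.TEVA
import Pool.Agent.P.MP_7b3100_nt.DZ.TEV
import Pool.Agent.P.MP_7b3100_nt.DZ.THK
import Pool.Agent.P.MP_7b3100_nt.DZ.TBFA
import Pool.Agent.P.MP_7b3100_nt.DZ.TCOLL
import Pool.Agent.P.MP_7b3100_nt.DZ.TBFQ
import Pool.Agent.P.MP_7b3100_nt.DZ.TBFN
import Pool.Agent.P.MP_7b3100_nt.DZ.TBF
import Pool.Agent.P.MP_7b3100_nt.DZ.TSS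
import Pool.Agent.P.MP_7b3100_nt.DZ.TRSUB
import Pool.Agent.P.MP_7b3100_nt.DZ.TCRT
import Pool.Agent.P.MP_7b3100_nt.DZ.TEPN
import Pool.Agent.P.MP_7b3100_nt.DZ.TEPE
import Pool.Agent.P.MP_7b3100_nt.DZ.TKIL
import Pool.Agent.P.MP_7b3100_nt.DZ.TEPA
import Pool.Agent.P.MP_7b3100_nt.DZ.TMEX
import Pool.Agent.P.MP_7b3100_nt.DZ.TEP
import Pool.Agent.P.MP_7b3100_nt.DZ.TDET
import Pool.Agent.P.MP_7b3100_nt.DZ.TWA
import Pool.Agent.P.MP_7b3100_nt.DZ.TWIN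
import Pool.Agent.P.MP_7b3100_nt.DZ.TSTA
import Pool.Agent.P.MP_7b3100_nt.DZ.TSTB
import Pool.Agent.P.MP_7b3100_nt.DZ.TSTN
import Pool.Agent.P.MP_7b3100_nt.DZ.TSTEP
import Pool.Agent.P.MP_7b3100_nt.DZ.TZEX
import Pool.Agent.P.MP_7b3100_nt.DZ.TCHAIN
import Pool.Agent.P.MP_7b3100_nt.DZ.TSCN
import Pool.Agent.P.MP_7b3100_nt.DZ.TSCALE

/-! Assembly of the steps. -/

namespace Pool.Agent.P.MP_7b3100_nt.DZ

open Finset Real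

theorem t_FEK : S_FEK := p_FEK
theorem t_ITER : S_ITER := p_ITER
theorem t_EMB : S_EMB := p_EMB
theorem t_CNT : S_CNT := p_CNT t_EMB
theorem t_DIMA : S_DIMA := p_DIMA
theorem t_DIM : S_DIM := p_DIM t_DIMA
theorem t_CHB : S_CHB := p_CHB
theorem t_CB : S_CB := p_CB
theorem t_LO : S_LO := p_LO t_CB
theorem t_BIN : S_BIN := p_BIN
theorem t_KR : S_KR := p_KR t_LO t_BIN
theorem t_HOEF : S_HOEF := p_HOEF
theorem t_ONE : S_ONE := p_ONE t_KR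
theorem t_FST : S_FST := p_FST t_ONE t_HOEF
theorem t_CM : S_CM := p_CM
theorem t_FLAT : S_FLAT := p_FLAT t_FST t_CM
theorem t_NBE : S_NBE := p_NBE
theorem t_GOOD : S_GOOD := p_GOOD t_NBE
theorem t_FGP : S_FGP := p_FGP
theorem t_FG : S_FG := p_FG t_FLAT t_GOOD t_FGP
theorem t_CHK : S_CHK := p_CHK
theorem t_PARS : S_PARS := p_PARS t_CHK
theorem t_MAJA : S_MAJA := p_MAJA t_PARS
theorem t_MAJ : S_MAJ := p_MAJ t_MAJA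
theorem t_GIB : S_GIB := p_GIB
theorem t_APA : S_APA := p_APA t_MAJ t_GIB
theorem t_AP : S_AP := p_AP t_FG t_APA
theorem t_LSQ : S_LSQ := p_LSQ
theorem t_FPA : S_FPA := p_FPA t_CHK t_LSQ
theorem t_FP : S_FP := p_FP t_FG t_FPA
theorem t_TEL : S_TEL := p_TEL
theorem t_GT : S_GT := p_GT t_TEL
theorem t_RHO : S_RHO := p_RHO
theorem t_RF : S_RF := p_RF
theorem t_VF : S_VF := p_VF t_RF
theorem t_EVA : S_EVA := p_EVA t_RHO t_VF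
theorem t_EV : S_EV := p_EV t_RHO t_EVA
theorem t_HK : S_HK := p_HK
theorem t_BFA : S_BFA := p_BFA t_HK
theorem t_COLL : S_COLL := p_COLL
theorem t_BFQ : S_BFQ := p_BFQ t_EV t_BFA
theorem t_BFN : S_BFN := p_BFN t_CHB
theorem t_BF : S_BF := p_BF t_FP t_GT t_COLL t_BFQ t_BFN
theorem t_SS : S_SS := p_SS
theorem t_RSUB : S_RSUB := p_RSUB
theorem t_CRT : S_CRT := p_CRT
theorem t_EPN : S_EPN := p_EPN t_CHB
theorem t_EPE : S_EPE := p_EPE t_AP t_RSUB t_CRT t_EPN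
theorem t_KIL : S_KIL := p_KIL
theorem t_EPA : S_EPA := p_EPA t_EPE t_SS
theorem t_MEX : S_MEX := p_MEX
theorem t_EP : S_EP := p_EP t_BF t_EPA t_KIL t_MEX
theorem t_DET : S_DET := p_DET
theorem t_WA : S_WA := p_WA t_DET
theorem t_WIN : S_WIN := p_WIN t_EP t_WA
theorem t_STA : S_STA := p_STA t_CRT
theorem t_STB : S_STB := p_STB
theorem t_STN : S_STN := p_STN t_CHB
theorem t_STEP : S_STEP := p_STEP t_AP t_WIN t_STA t_STB t_STN t_CHB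
theorem t_ZEX : S_ZEX := p_ZEX
theorem t_CHAIN : S_CHAIN := p_CHAIN t_ZEX
theorem t_SCN : S_SCN := p_SCN
theorem t_SCALE : S_SCALE := p_SCALE t_STEP t_CHAIN t_CHB t_SCN

theorem zero_entropy {b : ℕ} (hb : 2 ≤ b) (ε : ℝ) (hε : 0 < ε) :
    ∃ n0 : ℕ, ∀ n ≥ n0, lp b n ≤ ε * n := by
  obtain ⟨h, h0, h1, h2⟩ := t_FEK b hb
  rcases h0.eq_or_lt with rfl | h0
  · simpa using h2 ε hε
  · obtain ⟨c, M, H0, hc, h3⟩ := t_SCALE b h ⟨hb, h0, h1, h2⟩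
    exact absurd h3 (t_ITER (fun n => lp b n / n) c M H0 hc
      fun n => div_nonneg (lp_nonneg b n) n.cast_nonneg)

theorem count {b : ℕ} (hb : 2 ≤ b) (ε : ℝ) (hε : 0 < ε) :
    ∃ l0 : ℕ, ∀ l ≥ l0, ((PW b l).card : ℝ) ≤ exp (ε * l) := t_CNT b hb (zero_entropy hb) ε hε

theorem dim_zero {b : ℕ} (hb : 2 ≤ b) :
    dimH {α : ℝ | {n : ℕ | Comp ⌊(b : ℝ) ^ n * α⌋}.Finite} = 0 := t_DIM b hb (count hb)

end Pool.Agent.P.MP_7b3100_nt.DZ
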