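import Pool.Agent.P.MP_7b3100_nt.DZ.Defs

/-! Small facts about the definitions, shared by all steps. -/

namespace Pool.Agent.P.MP_7b3100_nt.DZ

open Finset Real Pool.Agent.P.MP_bf60a1_an.RA
open Pool.Agent.P.MP_e94e4b_nt (ee)

section pis
variable {Ω Ω' ι α : Type} [Fintype Ω] [Fintype Ω'] [Fintype ι] [DecidableEq ι]

theorem pi_eq_pis (P : FP Ω) (k : ℕ) : P.pi k = pis fun _ : Fin k => P := rfl

theorem pis_pos {P : ι → FP Ω} {x : ι → Ω} (h : 0 < (pis P).p x) (i : ι) : 0 < (P i).p (x i) :=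
  ((P i).nn _).lt_of_ne fun h0 => h.ne' (prod_eq_zero (mem_univ i) h0.symm)

theorem E_pis_prod (P : ι → FP Ω) (f : ι → Ω → ℝ) :
    ((pis P).E fun x => ∏ i, f i (x i)) = ∏ i, (P i).E (f i) := by
  simp only [FP.E, pis, ← prod_mul_distrib]
  rw [← Fintype.piFinset_univ, prod_univ_sum]

omit [DecidableEq ι] in
theorem ind_all (s : ι → Prop) : ind (∀ i, s i) = ∏ i, ind (s i) := by
  by_cases h : ∀ i, s i
  · rw [ind_pos h]; exact (prod_eq_one fun i _ => ind_pos (h i)).symm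
  · rw [ind_neg h]
    push Not at h
    obtain ⟨i, hi⟩ := h
    exact (prod_eq_zero (mem_univ i) (ind_neg hi)).symm

theorem pr_pis (P : ι → FP Ω) (s : ι → Ω → Prop) :
    ((pis P).pr fun x => ∀ i, s i (x i)) = ∏ i, (P i).pr (s i) := by
  simp only [FP.pr, ind_all]; exact E_pis_prod P fun i ω => ind (s i ω)

theorem pis_eval (P : ι → FP Ω) (i : ι) : FP.MP (pis P) (P i) fun x => x i := fun f => by
  have := E_pis_prod P fun j ω => if j = i then f ω else 1
  simp only [prod_ite_eq', mem_univ, if_true] at this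
  rw [this, prod_eq_single i]
  · simp
  · intro j _ hj; simp [hj, FP.E_const]
  · simp

theorem E_eq_sum (P : FP Ω) (X : Ω → α) (F : Finset α) (hF : ∀ ω, 0 < P.p ω → X ω ∈ F)
    (f : α → ℝ) : (P.E fun ω => f (X ω)) = ∑ a ∈ F, (P.pr fun ω => X ω = a) * f a := by
  simp only [FP.pr, ← FP.E_mul_right, ← FP.E_sum]
  exact P.E_congr fun ω hω => (sum_ind_eq F f (hF ω hω)).symm

theorem pr_eq_p (P : FP Ω) (a : Ω) : (P.pr fun ω => ω = a) = P.p a := by
  rw [FP.pr, FP.E, sum_eq_single a]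
  · rw [ind_pos rfl, mul_one]
  · intro b _ h; rw [ind_neg h, mul_zero]
  · simp

theorem MP_pis {P : ι → FP Ω} {P' : ι → FP Ω'} {ϖ : ι → Ω' → Ω}
    (h : ∀ i, FP.MP (P' i) (P i) (ϖ i)) : FP.MP (pis P') (pis P) fun x i => ϖ i (x i) := fun f => by
  rw [E_eq_sum _ _ univ (fun _ _ => mem_univ _) f, FP.E]
  refine sum_congr rfl fun y _ => ?_
  simp only [funext_iff]
  rw [pr_pis P' fun i ω => ϖ i ω = y i]
  congr 1
  exact prod_congr rfl fun i _ => ((h i).pr fun ω => ω = y i).trans (pr_eq_p _ _)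

/-- conditioning every coordinate on a value -/
theorem pis_tower (P : ι → FP Ω) (Y : ι → Ω → α) (F : (ι → α) → (ι → Ω) → ℝ) :
    ((pis P).E fun ω => (pis fun i => (P i).cv (Y i) (Y i (ω i))).E (F fun i => Y i (ω i))) =
      (pis P).E fun ω => F (fun i => Y i (ω i)) ω := by
  have h1 : ∀ i, FP.MP ((P i).bind fun ω => (P i).cv (Y i) (Y i ω)) (P i) Prod.snd :=
    fun i f => by rw [FP.E_bind]; exact (P i).tower (Y i) fun _ => f
  rw [← MP_pis h1 fun ω => F (fun i => Y i (ω i)) ω]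
  rw [(pis fun i => (P i).bind fun ω => (P i).cv (Y i) (Y i ω)).E_congr
    (g := fun x => F (fun i => Y i (x i).1) fun i => (x i).2) fun x hx => by
    congr 1
    funext i
    have := (P i).bind_pos (pis_pos hx i)
    exact (P i).cv_eq this.1 this.2]
  simp only [FP.E, pis, FP.bind, mul_sum, prod_mul_distrib]
  rw [← Fintype.sum_prod_type', ← (Equiv.arrowProdEquivProdArrow ι (fun _ => Ω) fun _ => Ω).sum_comp]
  exact sum_congr rfl fun x _ => by simp [mul_assoc]

theorem Hc_fun_le {β : Type} (P : FP Ω) (s : Finset α) (D : α → Ω → ℕ) (X : Ω → ℕ) (V : Ω → β)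
    (h : ∀ ω ω', 0 < P.p ω → 0 < P.p ω' → V ω = V ω' → (∀ i ∈ s, D i ω = D i ω') → X ω = X ω') :
    P.Hc X V ≤ ∑ i ∈ s, P.Hc (D i) V := by
  classical
  have key : ∀ s : Finset α, P.Hc (fun ω i => if i ∈ s then D i ω else 0) V ≤
      ∑ i ∈ s, P.Hc (D i) V := fun s => by
    induction s using Finset.induction_on with
    | empty => exact (P.Hc_nonpos fun _ _ _ _ _ => by simp).trans (by simp)
    | insert a s ha ih =>
      rw [sum_insert ha]
      refine le_trans (P.Hc_mono_left fun ω ω' _ _ e => ?_)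
        ((P.Hc_pair_le (D a) (fun ω i => if i ∈ s then D i ω else 0) V).trans
          (add_le_add_right ih _))
      simp only [Prod.mk.injEq] at e
      funext i
      have := congrFun e.1.2 i
      by_cases h1 : i = a
      · simp [h1, e.1.1]
      · simpa [h1] using this
  refine le_trans (P.Hc_mono_left fun ω ω' h1 h2 e => ?_) (key s)
  simp only [Prod.mk.injEq] at e
  exact h ω ω' h1 h2 e.2 fun i hi => by simpa [hi] using congrFun e.1 i

theorem H_fun_le (P : FP Ω) (s : Finset α) (D : α → Ω → ℕ) (X : Ω → ℕ)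
    (h : ∀ ω ω', 0 < P.p ω → 0 < P.p ω' → (∀ i ∈ s, D i ω = D i ω') → X ω = X ω') :
    P.H X ≤ ∑ i ∈ s, P.H (D i) := by
  simpa only [FP.Hc_const] using Hc_fun_le P s D X (fun _ => ()) fun ω ω' a b _ => h ω ω' a b

/-- chain rule for a number cut at `W` -/
theorem H_cut (P : FP Ω) (X : Ω → ℕ) (W : ℕ) :
    P.H X = (P.H fun ω => X ω / W) + P.Hc (fun ω => X ω % W) fun ω => X ω / W := by
  rw [FP.Hc, add_sub_cancel]
  refine P.H_congr (fun ω ω' _ _ e => ?_) fun ω ω' _ _ e => by simp [e]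
  simp only [Prod.mk.injEq] at e
  rw [← Nat.div_add_mod (X ω) W, ← Nat.div_add_mod (X ω') W, e.1, e.2]

theorem H_cut' (P : FP Ω) (X : Ω → ℕ) (W : ℕ) :
    P.H X = (P.H fun ω => X ω % W) + P.Hc (fun ω => X ω / W) fun ω => X ω % W := by
  rw [FP.Hc, add_sub_cancel]
  refine P.H_congr (fun ω ω' _ _ e => ?_) fun ω ω' _ _ e => by simp [e]
  simp only [Prod.mk.injEq] at e
  rw [← Nat.div_add_mod (X ω) W, ← Nat.div_add_mod (X ω') W, e.1, e.2]

theorem H_le_of_lt (P : FP Ω) {X : Ω → ℕ} {N : ℕ} (h : ∀ ω, 0 < P.p ω → X ω < N) :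
    P.H X ≤ log N := P.H_le_log (range N) (fun ω hω => mem_range.2 (h ω hω)) (by simp)

theorem H_ind_le (P : FP Ω) (s : Ω → Prop) : P.H s ≤ log 2 :=
  P.H_le_log univ (fun _ _ => mem_univ _) (by simp)

theorem pr_tower (P : FP Ω) (V : Ω → α) (s : α → Ω → Prop) :
    (P.E fun ω => (P.cv V (V ω)).pr (s (V ω))) = P.pr fun ω => s (V ω) ω :=
  P.tower V fun v ω => ind (s v ω)

theorem norm_ch_le (P : FP Ω) (X : Ω → ℕ) (G : Finset ℕ) (θ : ℝ) : ‖ch P X G θ‖ ≤ 1 := by
  refine (norm_sum_le _ _).trans (le_trans (sum_le_sum fun ω _ => ?_) P.one.le)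
  rw [norm_mul, Pool.Agent.P.MP_e94e4b_nt.norm_ee, mul_one, Complex.norm_real,
    Real.norm_of_nonneg (mul_nonneg (P.nn ω) (ind_nonneg _))]
  exact mul_le_of_le_one_right (P.nn ω) (ind_le_one _)

end pis

/-- the uniform law on a nonempty finite set -/
noncomputable def unifOn (s : Finset ℕ) (h : s.Nonempty) : FP s where
  p := fun _ => (s.card : ℝ)⁻¹
  nn := fun _ => by positivity
  one := by simp [h.card_pos.ne']

theorem H_unifOn (s : Finset ℕ) (h : s.Nonempty) :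
    ((unifOn s h).H fun x => x.1) = log s.card := by
  rw [← (unifOn s h).E_const (log s.card)]
  refine FP.E_congr _ fun ω _ => ?_
  rw [FP.cl]
  simp only [Subtype.val_inj]
  rw [pr_eq_p, ← log_inv]; simp [unifOn]

section Lang
variable {b q n m w z : ℕ}

theorem mem_Lang : w ∈ Lang b n ↔ w < b ^ n ∧ (∀ i < n, w / b ^ i % b ≠ 0) ∧
    ∀ q, q.Prime → b < q → ∃ z, Surv b q n w z := by simp [Lang]

theorem lang_lt (h : w ∈ Lang b n) : w < b ^ n := (mem_Lang.1 h).1

theorem Surv.div (h : Surv b q (n + m) w z) : Surv b q n (w / b ^ m) z := fun i h1 h2 => by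
  have := h i h1 (by omega)
  rwa [Nat.div_div_eq_div_mul, ← pow_add, show m + (n - i) = n + m - i by omega]

theorem cut_eq (b z w : ℕ) {n m i : ℕ} (h : i ≤ m) :
    b ^ i * (b ^ n * z + w / b ^ m) + w % b ^ m / b ^ (m - i) =
      b ^ (n + i) * z + w / b ^ (n + m - (n + i)) := by
  obtain ⟨k, rfl⟩ := Nat.exists_eq_add_of_le h
  rw [show n + (i + k) - (n + i) = k by omega, Nat.add_sub_cancel_left, pow_add b i k,
    mul_comm (b ^ i) (b ^ k), Nat.mod_mul_right_div_self, ← Nat.div_div_eq_div_mul, mul_add,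
    add_assoc, Nat.div_add_mod]
  ring

theorem Surv.mod (h : Surv b q (n + m) w z) :
    Surv b q m (w % b ^ m) (b ^ n * z + w / b ^ m) := fun i h1 h2 => by
  rw [cut_eq b z w h2]; exact h _ (by omega) (by omega)

theorem surv_add : Surv b q (n + m) w z ↔
    Surv b q n (w / b ^ m) z ∧ Surv b q m (w % b ^ m) (b ^ n * z + w / b ^ m) := by
  refine ⟨fun h => ⟨h.div, h.mod⟩, fun h i h1 h2 => ?_⟩
  rcases le_or_gt i n with c | c
  · have := h.1 i h1 c
    rwa [Nat.div_div_eq_div_mul, ← pow_add, show m + (n - i) = n + m - i by omega] at this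
  · obtain ⟨k, rfl⟩ := Nat.exists_eq_add_of_le c.le
    rw [← cut_eq b z w (show k ≤ m by omega)]
    exact h.2 k (by omega) (by omega)

theorem Surv.congr {z' : ℕ} (h : Surv b q n w z) (e : z ≡ z' [MOD q]) : Surv b q n w z' :=
  fun i h1 h2 d => h i h1 h2
    ((((e.mul_left _).add_right _).dvd_iff dvd_rfl).2 d)

theorem lang_div (h : w ∈ Lang b (n + m)) : w / b ^ m ∈ Lang b n := by
  obtain ⟨h1, h2, h3⟩ := mem_Lang.1 h
  refine mem_Lang.2 ⟨Nat.div_lt_of_lt_mul (by rwa [← pow_add, add_comm]), fun i hi => ?_,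
    fun q hq hb => (h3 q hq hb).imp fun z => Surv.div⟩
  rw [Nat.div_div_eq_div_mul, ← pow_add]
  exact h2 _ (by omega)

theorem lang_mod (h : w ∈ Lang b (n + m)) : w % b ^ m ∈ Lang b m := by
  obtain ⟨h1, h2, h3⟩ := mem_Lang.1 h
  have hb : 0 < b ^ m := Nat.pos_of_mul_pos_left (a := b ^ n) (by rw [← pow_add]; omega)
  refine mem_Lang.2 ⟨Nat.mod_lt _ hb, fun i hi => ?_,
    fun q hq hb => (h3 q hq hb).elim fun z hz => ⟨_, hz.mod⟩⟩
  obtain ⟨k, rfl⟩ := Nat.exists_eq_add_of_lt hi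
  rw [add_assoc, pow_add, Nat.mod_mul_right_div_self, pow_succ, Nat.mod_mul_left_mod]
  exact h2 _ (by omega)

/-- factors of words are words -/
theorem lang_fac {i j : ℕ} (h : w ∈ Lang b n) (hn : i + j ≤ n) :
    w / b ^ i % b ^ j ∈ Lang b j := by
  obtain ⟨k, rfl⟩ := Nat.exists_eq_add_of_le hn
  rw [show i + j + k = k + j + i by omega] at h
  exact lang_mod (lang_div h)

theorem lang_div' {i : ℕ} (h : w ∈ Lang b n) (hn : i ≤ n) : w / b ^ (n - i) ∈ Lang b i :=
  lang_div (by rwa [Nat.add_sub_cancel' hn])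

theorem lang_pos (h : w ∈ Lang b n) (hn : 0 < n) : 0 < w := by
  have := (mem_Lang.1 h).2.1 0 hn
  exact Nat.pos_of_ne_zero fun e => by simp [e] at this

theorem top_div (hb : 2 ≤ b) (i k : ℕ) : (b ^ (i + k) - 1) / b ^ k = b ^ i - 1 := by
  have h1 : 0 < b ^ i := by positivity
  have h2 : 0 < b ^ k := by positivity
  rw [pow_add]
  obtain ⟨u, hu⟩ := Nat.exists_eq_add_of_le' h1
  rw [hu, Nat.div_eq_iff h2, Nat.succ_eq_add_one, zero_add, Nat.add_sub_cancel, add_mul]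
  omega

theorem lang_nonempty (hb : 2 ≤ b) (n : ℕ) : (Lang b n).Nonempty := by
  have h0 : ∀ i, 0 < b ^ i := fun i => by positivity
  refine ⟨b ^ n - 1, mem_Lang.2 ⟨by have := h0 n; omega, fun i hi => ?_,
    fun q hq _ => ⟨q - 1, fun i _ h2 hd => ?_⟩⟩⟩
  · obtain ⟨k, rfl⟩ := Nat.exists_eq_add_of_lt hi
    rw [show i + k + 1 = k + 1 + i by omega, top_div hb]
    intro e
    have h1 : b ∣ b ^ (k + 1) - 1 := Nat.dvd_of_mod_eq_zero e
    have := (Nat.dvd_sub_iff_right (h0 (k + 1)) (dvd_pow_self b k.succ_ne_zero)).1 h1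
    have := Nat.le_of_dvd one_pos this
    omega
  · obtain ⟨k, rfl⟩ := Nat.exists_eq_add_of_le h2
    rw [Nat.add_sub_cancel_left, top_div hb] at hd
    have h1 := h0 i
    have h3 : b ^ i * (q - 1) + (b ^ i - 1) + 1 = b ^ i * q := by
      obtain ⟨r, rfl⟩ := Nat.exists_eq_add_of_le' hq.one_le
      rw [Nat.add_sub_cancel, mul_add]; omega
    exact hq.one_lt.ne' (Nat.dvd_one.1 ((Nat.dvd_add_right hd).1 (h3 ▸ dvd_mul_left _ _)))

theorem card_lang_add (b n m : ℕ) :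
    (Lang b (n + m)).card ≤ (Lang b n).card * (Lang b m).card := by
  rw [← card_product]
  refine card_le_card_of_injOn (fun w => (w / b ^ m, w % b ^ m))
    (fun w hw => mem_coe.2 (mem_product.2 ⟨lang_div hw, lang_mod hw⟩)) fun w _ w' _ e => ?_
  simp only [Prod.mk.injEq] at e
  rw [← Nat.div_add_mod w (b ^ m), ← Nat.div_add_mod w' (b ^ m), e.1, e.2]

theorem lp_nonneg (b n : ℕ) : 0 ≤ lp b n := log_natCast_nonneg _

theorem lp_add (hb : 2 ≤ b) (n m : ℕ) : lp b (n + m) ≤ lp b n + lp b m := by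
  have h := fun k => (lang_nonempty hb k).card_pos
  rw [lp, lp, lp, ← log_mul (mod_cast (h n).ne') (mod_cast (h m).ne')]
  exact log_le_log (mod_cast h _) (mod_cast card_lang_add b n m)

theorem lp_le (hb : 2 ≤ b) (n : ℕ) : lp b n ≤ n * log b := by
  rw [lp, ← log_pow]
  refine log_le_log (mod_cast (lang_nonempty hb n).card_pos) ?_
  exact_mod_cast (card_le_card fun w hw => mem_range.2 (lang_lt hw)).trans (card_range _).le

theorem Hyp.le_log {h : ℝ} (H : Hyp b h) : h ≤ log b := by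
  simpa using (H.le 1).trans (lp_le H.hb 1)

theorem Hyp.bound {h : ℝ} (H : Hyp b h) {ε : ℝ} (hε : 0 < ε) :
    ∃ C : ℝ, 0 ≤ C ∧ ∀ n : ℕ, lp b n ≤ (h + ε) * n + C := by
  obtain ⟨n0, h0⟩ := H.lim ε hε
  have hl : 0 ≤ log b := log_natCast_nonneg b
  refine ⟨n0 * log b, by positivity, fun n => ?_⟩
  rcases le_or_gt n0 n with c | c
  · exact (h0 n c).trans (le_add_of_nonneg_right (by positivity))
  · have := H.pos
    refine (lp_le H.hb n).trans (le_add_of_nonneg_of_le (by positivity) ?_)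
    gcongr

variable {Ω α : Type} [Fintype Ω] {P : FP Ω} {X : Ω → ℕ}

theorem InL.H_le (h : InL P X b n) : P.H X ≤ lp b n := P.H_le_log _ h le_rfl
theorem InL.lt (h : InL P X b n) (ω : Ω) (hω : 0 < P.p ω) : X ω < b ^ n := lang_lt (h ω hω)
theorem InL.cv (h : InL P X b n) (V : Ω → α) (v : α) : InL (P.cv V v) X b n :=
  fun ω hω => h ω (P.cv_pos hω)
theorem InL.div (h : InL P X b (n + m)) : InL P (fun ω => X ω / b ^ m) b n :=
  fun ω hω => lang_div (h ω hω)
theorem InL.mod (h : InL P X b (n + m)) : InL P (fun ω => X ω % b ^ m) b m :=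
  fun ω hω => lang_mod (h ω hω)
theorem InL.fac {i j : ℕ} (h : InL P X b n) (hn : i + j ≤ n) :
    InL P (fun ω => X ω / b ^ i % b ^ j) b j := fun ω hω => lang_fac (h ω hω) hn

end Lang

theorem mem_Qy {y q : ℕ} : q ∈ Qy y ↔ y < q ∧ q ≤ 4 * y ∧ q.Prime := by simp [Qy, and_assoc]

theorem coprime_of_mem {b y q : ℕ} (hb : 2 ≤ b) (hy : b ≤ y) (h : q ∈ Qy y) : b.Coprime q :=
  ((Nat.Prime.coprime_iff_not_dvd (mem_Qy.1 h).2.2).2
    (Nat.not_dvd_of_pos_of_lt (by omega) (hy.trans_lt (mem_Qy.1 h).1))).symm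

/-- the residue `sig` is the one that dies -/
theorem sig_iff {b q : ℕ} (hq : q.Prime) (hb : b.Coprime q) (m f i z : ℕ) :
    q ∣ b ^ i * z + f / b ^ (m - i) ↔ sig b q m f i = z := by
  have : Fact q.Prime := ⟨hq⟩
  have h0 : (b : ZMod q) ≠ 0 := fun e =>
    (hq.coprime_iff_not_dvd.1 hb.symm) ((ZMod.natCast_eq_zero_iff _ _).1 e)
  rw [← ZMod.natCast_eq_zero_iff, sig, inv_pow, mul_inv_eq_iff_eq_mul₀ (pow_ne_zero _ h0)]
  push_cast
  constructor <;> intro h <;> linear_combination -h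

end Pool.Agent.P.MP_7b3100_nt.DZ
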