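import Pool.Agent.P.MP_bf60a1_an.RA.Ent2
import Pool.Agent.P.MP_e94e4b_nt.LS

/-! Words of `n` digits in base `b` are numbers `w < b ^ n`; the first `i` digits have the value
`w / b ^ (n - i)`. -/

namespace Pool.Agent.P.MP_7b3100_nt.DZ

open Finset Real Pool.Agent.P.MP_bf60a1_an.RA
open Pool.Agent.P.MP_e94e4b_nt (ee)

/-- appending to `z` the first `i` digits of the word `w` of length `n` never gives a multiple
of `q` -/
def Surv (b q n w z : ℕ) : Prop := ∀ i, 1 ≤ i → i ≤ n → ¬ q ∣ b ^ i * z + w / b ^ (n - i)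

open Classical in
/-- words with nonzero digits that leave a survivor modulo every prime `q > b` -/
noncomputable def Lang (b n : ℕ) : Finset ℕ := (range (b ^ n)).filter fun w =>
  (∀ i < n, w / b ^ i % b ≠ 0) ∧ ∀ q, q.Prime → b < q → ∃ z, Surv b q n w z

/-- logarithm of the number of words -/
noncomputable def lp (b n : ℕ) : ℝ := log (Lang b n).card

/-- the entropy of the language is `h > 0` -/
structure Hyp (b : ℕ) (h : ℝ) : Prop where
  hb : 2 ≤ b
  pos : 0 < h
  le : ∀ n : ℕ, h * n ≤ lp b n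
  lim : ∀ ε : ℝ, 0 < ε → ∃ n0 : ℕ, ∀ n ≥ n0, lp b n ≤ (h + ε) * n

/-- the primes in `(y, 4 y]` -/
def Qy (y : ℕ) : Finset ℕ := (Ioc y (4 * y)).filter Nat.Prime

open Classical in
/-- words that extend some integer through numbers of prime absolute value only -/
noncomputable def PW (b l : ℕ) : Finset ℕ := (range (b ^ l)).filter fun w =>
  ∃ x : ℤ, ∀ i, 1 ≤ i → i ≤ l → ((b : ℤ) ^ i * x + (w / b ^ (l - i) : ℕ)).natAbs.Prime

/-- `|z| ≥ 2` and `|z|` is not prime -/
def Comp (z : ℤ) : Prop := 2 ≤ z.natAbs ∧ ¬ z.natAbs.Prime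

variable {Ω ι : Type} [Fintype Ω]

/-- `X` is almost surely a word of the language -/
def InL (P : FP Ω) (X : Ω → ℕ) (b n : ℕ) : Prop := ∀ ω, 0 < P.p ω → X ω ∈ Lang b n

/-- product of finitely many probability spaces -/
def pis [Fintype ι] [DecidableEq ι] (P : ι → FP Ω) : FP (ι → Ω) where
  p := fun x => ∏ i, (P i).p (x i)
  nn := fun x => prod_nonneg fun i _ => (P i).nn _
  one := by
    rw [← Fintype.piFinset_univ, ← prod_univ_sum]; simp [FP.one]

/-- two independent copies of `U` differ by at least `2` with probability at least `1 / 2` -/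
def Br (P : FP Ω) (U : Ω → ℕ) : Prop :=
  1 / 2 ≤ (P.prod P).pr fun x => U x.1 + 2 ≤ U x.2 ∨ U x.2 + 2 ≤ U x.1

open Classical in
/-- Read `x < B ^ T` in base `B`. The number of prefixes of `x` after which the law of
`(next digit) / D` is not branching. -/
noncomputable def nb (B D : ℕ) : ℕ → FP Ω → (Ω → ℕ) → ℕ → ℕ
  | 0, _, _, _ => 0
  | T + 1, P, X, x => (if Br P fun ω => X ω / B ^ T / D then 0 else 1) +
      nb B D T (P.cv (fun ω => X ω / B ^ T) (x / B ^ T)) (fun ω => X ω % B ^ T) (x % B ^ T)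

/-- conditional mean of `X` given `X / W` -/
noncomputable def cm (P : FP Ω) (X : Ω → ℕ) (W : ℕ) (ω : Ω) : ℝ :=
  (P.cv (fun x => X x / W) (X ω / W)).E fun x => X x

/-- near, far, dead -/
noncomputable def uu (a d ρ ξ : ℝ) : ℝ := if |ξ| ≤ a then 1 else if |ξ| ≤ d then ρ else 0

/-- `k` independent copies of `X` lie in `G` and have the sum `x` -/
noncomputable def cv (P : FP Ω) (X : Ω → ℕ) (G : Finset ℕ) (k x : ℕ) : ℝ :=
  (P.pi k).pr fun ω => (∀ i, X (ω i) ∈ G) ∧ ∑ i, X (ω i) = x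

/-- Fourier transform of the law of `X` restricted to `G` -/
noncomputable def ch (P : FP Ω) (X : Ω → ℕ) (G : Finset ℕ) (θ : ℝ) : ℂ :=
  ∑ ω, ((P.p ω * ind (X ω ∈ G) : ℝ) : ℂ) * ee (X ω * θ)

/-- some nontrivial Fourier coefficient modulo `q` exceeds `lam` -/
def Exc (P : FP Ω) (X : Ω → ℕ) (G : Finset ℕ) (lam : ℝ) (q : ℕ) : Prop :=
  ∃ a : ℕ, 0 < a ∧ a < q ∧ lam < ‖ch P X G ((a : ℝ) / q)‖

/-- the first `i - j` digits of a word of length `m` -/
def hi (b m j i f : ℕ) : ℕ := f / b ^ (m - i) / b ^ j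
/-- the `j` digits that end at place `i` -/
def lo (b m j i f : ℕ) : ℕ := f / b ^ (m - i) % b ^ j

/-- good times -/
def gd (b m j : ℕ) (G : ℕ → ℕ → Finset ℕ) (f : ℕ) : Finset ℕ :=
  (Icc j m).filter fun i => lo b m j i f ∈ G i (hi b m j i f)

/-- the residue that dies at time `i` -/
def sig (b q m f i : ℕ) : ZMod q := -((f / b ^ (m - i) : ℕ) : ZMod q) * (b : ZMod q)⁻¹ ^ i

/-- number of `i ∈ I` with `σ i ∈ Y + d` -/
def hit {q : ℕ} (σ : ℕ → ZMod q) (I : Finset ℕ) (Y : Finset (ZMod q)) (d : ℕ) : ℕ :=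
  (I.filter fun i => σ i - d ∈ Y).card

/-- variance of `hit` in the shift -/
noncomputable def var {q : ℕ} (σ : ℕ → ZMod q) (I : Finset ℕ) (Y : Finset (ZMod q)) : ℝ :=
  (∑ d ∈ range q, ((hit σ I Y d : ℝ) - I.card * (Y.card / q)) ^ 2) / q

/-- centred autocorrelation of `Y` -/
noncomputable def rho {q : ℕ} (Y : Finset (ZMod q)) (t : ZMod q) : ℝ :=
  (∑ d ∈ range q, (ind (t + d ∈ Y) - Y.card / q) * (ind ((d : ZMod q) ∈ Y) - Y.card / q)) / q

/-- `q` divides the value of a nonempty factor of the word -/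
def Coll (b q m f : ℕ) : Prop := ∃ i j, 0 < j ∧ i + j ≤ m ∧ q ∣ f / b ^ i % b ^ j

open Classical in
/-- number of `z ∈ Z` such that `c z + t` does not survive the word -/
noncomputable def kil (b q n w c t : ℕ) (Z : Finset ℕ) : ℕ :=
  (Z.filter fun z => ¬ Surv b q n w (c * z + t)).card

open Classical in
/-- shifts for which the word kills few points -/
noncomputable def few (b q m f c t : ℕ) (Z : Finset ℕ) : Finset ℕ :=
  (range q).filter fun d => (kil b q m f c (t + d) Z : ℝ) < m * Z.card / (4 * q)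

open Classical in
/-- the residues that survive the word -/
noncomputable def sv (b q n w : ℕ) : Finset ℕ := (range q).filter fun z => Surv b q n w z

end Pool.Agent.P.MP_7b3100_nt.DZ
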