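import Pool.Agent.P.MP_7b3100_nt.DZ.All

/-! Terms with a small prime factor have positive lower density outside a set of small
dimension. -/

namespace Pool.Agent.P.MP_7b3100_nt.DZ.Dens

open Finset Real Filter

/-- covers along a subsequence with a geometric total -/
theorem dimB (E : Set ℝ) (β s ρ : ℝ) (T : ℕ → Finset ℝ) (hβ0 : 0 < β) (hβ : β < 1) (hs : 0 < s)
    (hρ0 : 0 ≤ ρ) (hρ : ρ < 1) (hT : ∀ k, ((T k).card : ℝ) * (β ^ k) ^ s ≤ ρ ^ k)
    (hE : ∀ α ∈ E, ∃ᶠ k in atTop, ∃ a ∈ T k, a ≤ α ∧ α ≤ a + β ^ k) :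
    dimH E ≤ ENNReal.ofReal s := by
  have e : ENNReal.ofReal s = ((s.toNNReal : NNReal) : ENNReal) := rfl
  rw [e]
  refine dimH_le_of_hausdorffMeasure_ne_top ?_
  rw [Real.coe_toNNReal s hs.le]
  have hr : Tendsto (fun M : ℕ => ENNReal.ofReal (β ^ M)) atTop (nhds 0) := by
    rw [← ENNReal.ofReal_zero]
    exact ENNReal.tendsto_ofReal (tendsto_pow_atTop_nhds_zero_of_lt_one hβ0.le hβ)
  have key := MeasureTheory.Measure.hausdorffMeasure_le_liminf_tsum
    (ι := fun M : ℕ => Σ k : ℕ, T (M + k)) s E (fun M : ℕ => ENNReal.ofReal (β ^ M)) hr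
    (fun M p => Set.Icc (p.2 : ℝ) (p.2 + β ^ (M + p.1)))
    (Eventually.of_forall fun M p => by
      rw [Real.ediam_Icc, add_sub_cancel_left]
      exact ENNReal.ofReal_le_ofReal (pow_le_pow_of_le_one hβ0.le hβ.le (by omega)))
    (Eventually.of_forall fun M α hα => by
      obtain ⟨k, hk, a, ha, h1, h2⟩ := frequently_atTop.1 (hE α hα) M
      obtain ⟨j, rfl⟩ := Nat.exists_eq_add_of_le hk
      exact Set.mem_iUnion.2 ⟨⟨j, a, ha⟩, h1, h2⟩)
  have hg : (∑' k : ℕ, ENNReal.ofReal ρ ^ k) ≠ ⊤ := by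
    rw [ENNReal.tsum_geometric]
    exact ENNReal.inv_ne_top.2 (tsub_pos_of_lt (ENNReal.ofReal_lt_one.2 hρ)).ne'
  refine ne_top_of_le_ne_top hg (key.trans ?_)
  refine liminf_le_of_frequently_le' (Eventually.of_forall fun M => ?_).frequently
  rw [ENNReal.tsum_sigma']
  refine ENNReal.tsum_le_tsum fun k => ?_
  have hp : (0 : ℝ) ≤ β ^ (M + k) := by positivity
  simp only [Real.ediam_Icc, add_sub_cancel_left, tsum_fintype, sum_const, card_univ,
    Fintype.card_coe, nsmul_eq_mul]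
  rw [ENNReal.ofReal_rpow_of_nonneg hp hs.le, ← ENNReal.ofReal_natCast,
    ← ENNReal.ofReal_mul (Nat.cast_nonneg _), ← ENNReal.ofReal_pow hρ0]
  exact ENNReal.ofReal_le_ofReal
    ((hT _).trans (pow_le_pow_of_le_one hρ0 hρ.le (by omega)))

/-- `z` has a prime factor at most `Y` -/
def Sm (Y : ℕ) (z : ℤ) : Prop := ∃ q : ℕ, q.Prime ∧ q ≤ Y ∧ (q : ℤ) ∣ z

theorem emb {b l w Y : ℕ} (x : ℤ) (hb : 2 ≤ b) (hw : w < b ^ l) (hl : l ≤ Y) (hY : b ≤ Y)
    (hp : ∀ i, 1 ≤ i → i ≤ l → ¬ Sm Y ((b : ℤ) ^ i * x + (w / b ^ (l - i) : ℕ))) :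
    w ∈ Lang b l := by
  refine mem_Lang.2 ⟨hw, fun i hi h0 => ?_, fun q hq hbq => ?_⟩
  · obtain ⟨j, rfl⟩ := Nat.exists_eq_add_of_lt hi
    have h1 := hp (j + 1) (by omega) (by omega)
    rw [show i + j + 1 - (j + 1) = i by omega] at h1
    refine h1 ⟨b.minFac, Nat.minFac_prime (by omega),
      (Nat.minFac_le (by omega)).trans hY, ?_⟩
    have h2 : (b.minFac : ℤ) ∣ b := Int.natCast_dvd_natCast.2 (Nat.minFac_dvd b)
    refine h2.trans (dvd_add ?_ (Int.natCast_dvd_natCast.2 (Nat.dvd_of_mod_eq_zero h0)))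
    rw [pow_succ', mul_assoc]
    exact dvd_mul_right _ _
  · rcases le_or_gt q l with h | h
    · have hq0 : (q : ℤ) ≠ 0 := by exact_mod_cast hq.ne_zero
      refine ⟨(x % q).toNat, fun i h1 h2 hd => hp i h1 h2 ⟨q, hq, h.trans hl, ?_⟩⟩
      have h4 := Int.natCast_dvd_natCast.2 hd
      rw [Nat.cast_add, Nat.cast_mul, Nat.cast_pow,
        Int.toNat_of_nonneg (Int.emod_nonneg x hq0)] at h4
      exact (((Int.mod_modEq x q).mul_left _).add_right _).dvd_iff.1 h4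
    · have : Fact q.Prime := ⟨hq⟩
      have hc : b.Coprime q :=
        (hq.coprime_iff_not_dvd.2 (Nat.not_dvd_of_pos_of_lt (by omega) hbq)).symm
      obtain ⟨z, -, hz⟩ := exists_mem_notMem_of_card_lt_card
        (s := (Icc 1 l).image (sig b q l w)) (t := univ)
        (card_image_le.trans_lt (by simpa using h))
      refine ⟨z.val, fun i h1 h2 hd => hz (mem_image.2 ⟨i, mem_Icc.2 ⟨h1, h2⟩, ?_⟩)⟩
      rw [(sig_iff hq hc l w i z.val).1 hd, ZMod.natCast_zmod_val]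

/-- the number of the last `k` digits of `y` in base `B` that lie outside `A` -/
def bad (B : ℕ) (A : Finset ℕ) : ℕ → ℤ → ℕ
  | 0, _ => 0
  | k + 1, y => bad B A k (y / B) + if (y % B).toNat ∈ A then 0 else 1

theorem wsum {B : ℕ} (hB : 0 < B) (A : Finset ℕ) (x0 : ℤ) (k : ℕ) :
    ∑ y ∈ Ico ((B : ℤ) ^ k * x0) ((B : ℤ) ^ k * (x0 + 1)), ((B : ℝ)⁻¹) ^ bad B A k y ≤
      ((A.card : ℝ) + 1) ^ k := by
  have hB' : (0 : ℤ) < B := by exact_mod_cast hB
  have hBr : (0 : ℝ) < B := by exact_mod_cast hB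
  induction k with
  | zero => simp [bad]
  | succ k ih =>
    set f : ℤ × ℕ → ℝ := fun p =>
      ((B : ℝ)⁻¹) ^ bad B A k p.1 * ((B : ℝ)⁻¹) ^ (if p.2 ∈ A then 0 else 1) with hf
    have h1 : ∑ y ∈ Ico ((B : ℤ) ^ (k + 1) * x0) ((B : ℤ) ^ (k + 1) * (x0 + 1)),
        ((B : ℝ)⁻¹) ^ bad B A (k + 1) y ≤
        ∑ p ∈ Ico ((B : ℤ) ^ k * x0) ((B : ℤ) ^ k * (x0 + 1)) ×ˢ range B, f p := by
      have e : ∀ y : ℤ, ((B : ℝ)⁻¹) ^ bad B A (k + 1) y = f (y / B, (y % B).toNat) :=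
        fun y => by rw [hf, bad, pow_add]
      simp only [e]
      rw [← sum_image (g := fun y : ℤ => (y / B, (y % B).toNat)) (f := f)]
      · refine sum_le_sum_of_subset_of_nonneg (fun p hp => ?_) fun p _ _ => by positivity
        obtain ⟨y, hy, rfl⟩ := mem_image.1 hp
        rw [mem_Ico, pow_succ', mul_assoc, mul_assoc] at hy
        refine mem_product.2 ⟨mem_Ico.2 ⟨?_, ?_⟩, mem_range.2 ?_⟩
        · exact (Int.le_ediv_iff_mul_le hB').2 (by rw [mul_comm]; exact hy.1)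
        · exact (Int.ediv_lt_iff_lt_mul hB').2 (by rw [mul_comm]; exact hy.2)
        · have := Int.emod_lt_of_pos y hB'
          have := Int.emod_nonneg y hB'.ne'
          simp only
          omega
      · intro y _ y' _ h
        simp only [Prod.mk.injEq] at h
        have a1 := Int.emod_nonneg y hB'.ne'
        have a2 := Int.emod_nonneg y' hB'.ne'
        rw [← Int.mul_ediv_add_emod y B, ← Int.mul_ediv_add_emod y' B, h.1,
          show y % B = y' % B by omega]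
    have h2 : ∑ u ∈ range B, ((B : ℝ)⁻¹) ^ (if u ∈ A then 0 else 1) ≤ (A.card : ℝ) + 1 := by
      calc ∑ u ∈ range B, ((B : ℝ)⁻¹) ^ (if u ∈ A then 0 else 1)
          ≤ ∑ u ∈ range B, ((if u ∈ A then (1 : ℝ) else 0) + (B : ℝ)⁻¹) :=
            sum_le_sum fun u _ => by
              split_ifs
              · simp
              · simp
        _ ≤ (A.card : ℝ) + 1 := by
            rw [sum_add_distrib, sum_boole, sum_const, card_range, nsmul_eq_mul,
              mul_inv_cancel₀ hBr.ne']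
            gcongr
            exact fun u hu => (mem_filter.1 hu).2
    refine h1.trans ?_
    rw [sum_product, pow_succ]
    simp only [hf, ← mul_sum]
    exact (sum_mul _ _ _).symm.le.trans
      (mul_le_mul ih h2 (sum_nonneg fun _ _ => by positivity) (by positivity))

theorem cnt {B : ℕ} (hB : 0 < B) (A : Finset ℕ) (x0 : ℤ) (k : ℕ) (r : ℝ) :
    (((Ico ((B : ℤ) ^ k * x0) ((B : ℤ) ^ k * (x0 + 1))).filter
      fun y => (bad B A k y : ℝ) ≤ r).card : ℝ) ≤ exp (r * log B) * ((A.card : ℝ) + 1) ^ k := by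
  have hBr : (1 : ℝ) ≤ B := by exact_mod_cast hB
  refine le_trans ?_ (mul_le_mul_of_nonneg_left (wsum hB A x0 k) (exp_pos _).le)
  rw [mul_sum, card_eq_sum_ones, Nat.cast_sum]
  refine (sum_le_sum fun y hy => ?_).trans
    (sum_le_sum_of_subset_of_nonneg (filter_subset _ _) fun _ _ _ => by positivity)
  rw [inv_pow, ← div_eq_mul_inv, le_div_iff₀ (by positivity), Nat.cast_one, one_mul,
    ← exp_log (show (0 : ℝ) < (B : ℝ) ^ bad B A k y by positivity), log_pow]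
  exact exp_le_exp.2 (mul_le_mul_of_nonneg_right (mem_filter.1 hy).2 (log_nonneg hBr))

open Classical in
theorem bad_le {b l Y : ℕ} (hb : 2 ≤ b) (hl : l ≤ Y) (hY : b ≤ Y) (a : ℝ) (k : ℕ) :
    bad (b ^ l) (Lang b l) k ⌊(b : ℝ) ^ (l * k) * a⌋ ≤
      ((range (l * k + 1)).filter fun n => Sm Y ⌊(b : ℝ) ^ n * a⌋).card := by
  induction k with
  | zero => simp [bad]
  | succ k ih =>
    have hp : ∀ k : ℕ, (0 : ℤ) < (b : ℤ) ^ k := fun k => by positivity
    set y := ⌊(b : ℝ) ^ (l * (k + 1)) * a⌋ with hy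
    have e0 : ⌊(b : ℝ) ^ (l * k) * a⌋ = y / (b : ℤ) ^ l := by
      rw [DIMc.fl hb a (l * k) l, hy, mul_add, mul_one]
    have hsub : (range (l * k + 1)).filter (fun n => Sm Y ⌊(b : ℝ) ^ n * a⌋) ⊆
        (range (l * (k + 1) + 1)).filter fun n => Sm Y ⌊(b : ℝ) ^ n * a⌋ :=
      filter_subset_filter _ (range_mono (by rw [mul_add]; omega))
    rw [bad, Nat.cast_pow, ← e0]
    split_ifs with h
    · exact ih.trans (card_le_card hsub)
    · obtain ⟨w, hw⟩ := Int.eq_ofNat_of_zero_le (Int.emod_nonneg y (hp l).ne')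
      rw [hw, Int.toNat_natCast] at h
      have hlt : w < b ^ l := by
        have := Int.emod_lt_of_pos y (hp l)
        rw [hw] at this
        exact_mod_cast this
      have e : y = (b : ℤ) ^ l * ⌊(b : ℝ) ^ (l * k) * a⌋ + w := by
        rw [← hw, e0, Int.mul_ediv_add_emod]
      have h2 : ∃ i, 1 ≤ i ∧ i ≤ l ∧ Sm Y ⌊(b : ℝ) ^ (l * k + i) * a⌋ := by
        by_contra hn
        refine h (emb ⌊(b : ℝ) ^ (l * k) * a⌋ hb hlt hl hY fun i i1 i2 hs => hn ⟨i, i1, i2, ?_⟩)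
        obtain ⟨j, hj⟩ := Nat.exists_eq_add_of_le i2
        rw [show l - i = j by omega] at hs
        rw [DIMc.fl hb a (l * k + i) j, show l * k + i + j = l * (k + 1) by rw [mul_add]; omega,
          ← hy, e, show (b : ℤ) ^ l = (b : ℤ) ^ j * (b : ℤ) ^ i by rw [hj, pow_add, mul_comm],
          mul_assoc, add_comm, Int.add_mul_ediv_left _ _ (hp j).ne', add_comm]
        push_cast at hs
        exact hs
      obtain ⟨i, i1, i2, hs⟩ := h2
      refine (Nat.succ_le_succ ih).trans (card_lt_card ⟨hsub, fun hc => ?_⟩)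
      have := hc (mem_filter.2 ⟨mem_range.2 (show l * k + i < l * (k + 1) + 1 by
        rw [mul_add]; omega), hs⟩)
      have := mem_range.1 (mem_filter.1 this).1
      omega

open Classical in
theorem piece {b l Y : ℕ} (hb : 2 ≤ b) (hl : l ≤ Y) (hY : b ≤ Y) (l0 : 0 < l) {s : ℝ}
    (hs : 0 < s) (h4 : 4 ≤ s * l) (hL : lp b l ≤ s * log b / 4 * l) (x0 : ℤ) :
    dimH {a : ℝ | ⌊a⌋ = x0 ∧ ∃ᶠ N : ℕ in atTop,
      (((range N).filter fun n => Sm Y ⌊(b : ℝ) ^ n * a⌋).card : ℝ) ≤ s / (8 * l) * N} ≤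
      ENNReal.ofReal s := by
  have hb1 : (1 : ℝ) < b := by exact_mod_cast hb
  have hlog : 0 < log b := log_pos hb1
  have hlr : (0 : ℝ) < l := by exact_mod_cast l0
  have hB : 0 < b ^ l := by positivity
  have hB1 : (1 : ℝ) < (b : ℝ) ^ l := one_lt_pow₀ hb1 l0.ne'
  have hB0 : (0 : ℝ) < (b : ℝ) ^ l := by positivity
  refine dimB _ ((b : ℝ) ^ l)⁻¹ s (exp (-(s * l * log b / 4)))
    (fun k => ((Ico (((b ^ l : ℕ) : ℤ) ^ k * x0) (((b ^ l : ℕ) : ℤ) ^ k * (x0 + 1))).filter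
      fun y => (bad (b ^ l) (Lang b l) k y : ℝ) ≤ s * k / 4).image
        fun y : ℤ => (y : ℝ) / ((b : ℝ) ^ l) ^ k)
    (by positivity) (inv_lt_one_of_one_lt₀ hB1) hs (exp_pos _).le
    (exp_lt_one_iff.2 (neg_lt_zero.2 (by positivity))) (fun k => ?_) fun a ha => ?_
  · have h1 := cnt hB (Lang b l) x0 k (s * k / 4)
    have h6 : ((Lang b l).card : ℝ) = exp (lp b l) :=
      (exp_log (mod_cast (lang_nonempty hb l).card_pos)).symm
    have h2 : ((Lang b l).card : ℝ) + 1 ≤ exp (s * l * log b / 2) := by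
      have a1 : (1 : ℝ) ≤ (Lang b l).card := mod_cast (lang_nonempty hb l).card_pos
      have a2 : (2 : ℝ) ≤ exp (s * l * log b / 4) := by
        calc (2 : ℝ) ≤ b := by exact_mod_cast hb
          _ = exp (log b) := (exp_log (by positivity)).symm
          _ ≤ _ := exp_le_exp.2 (by nlinarith)
      calc ((Lang b l).card : ℝ) + 1 ≤ 2 * (Lang b l).card := by linarith
        _ ≤ exp (s * l * log b / 4) * exp (s * log b / 4 * l) :=
            mul_le_mul a2 (h6.trans_le (exp_le_exp.2 hL)) (by positivity) (exp_pos _).le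
        _ = _ := by rw [← exp_add]; congr 1; ring
    have e : ((((b : ℝ) ^ l)⁻¹) ^ k) ^ s = exp (-(s * l * log b * k)) := by
      rw [Real.rpow_def_of_pos (by positivity), log_pow, log_inv, log_pow]
      congr 1; ring
    rw [e]
    refine (mul_le_mul_of_nonneg_right ((Nat.cast_le.2 card_image_le).trans (h1.trans
      (mul_le_mul_of_nonneg_left (pow_le_pow_left₀ (by positivity) h2 k) (exp_pos _).le)))
      (exp_pos _).le).trans (le_of_eq ?_)
    rw [← exp_nat_mul, ← exp_nat_mul, ← exp_add, ← exp_add, Nat.cast_pow, log_pow]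
    congr 1; ring
  · obtain ⟨h0, h1⟩ := ha
    refine frequently_atTop.2 fun M => ?_
    obtain ⟨N, hN, h2⟩ := frequently_atTop.1 h1 (l * (M + 1) + 1)
    set k := (N - 1) / l with hk
    have k1 : M + 1 ≤ k := (Nat.le_div_iff_mul_le l0).2 (by rw [mul_comm]; omega)
    have k2 : l * k ≤ N - 1 := Nat.mul_div_le _ _
    have k3 : N - 1 < l * (k + 1) := Nat.lt_mul_div_succ _ l0
    have k4 : N ≤ 2 * (l * k) := by
      have : l * (k + 1) ≤ l * (2 * k) := Nat.mul_le_mul_left _ (by omega)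
      have e : l * (2 * k) = 2 * (l * k) := by ring
      omega
    have hp : (0 : ℝ) < ((b : ℝ) ^ l) ^ k := by positivity
    have hp' : (0 : ℤ) < (b : ℤ) ^ (l * k) := by positivity
    refine ⟨k, by omega, (⌊(b : ℝ) ^ (l * k) * a⌋ : ℝ) / ((b : ℝ) ^ l) ^ k,
      mem_image_of_mem _ (mem_filter.2 ⟨?_, ?_⟩), ?_, ?_⟩
    · have e := DIMc.fl hb a 0 (l * k)
      rw [pow_zero, one_mul, zero_add, h0] at e
      rw [Nat.cast_pow, ← pow_mul, mem_Ico, mul_comm _ x0, mul_comm _ (x0 + 1)]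
      exact ⟨(Int.le_ediv_iff_mul_le hp').1 e.le,
        (Int.ediv_lt_iff_lt_mul hp').1 (by omega)⟩
    · have a1 := (bad_le hb hl hY a k).trans (card_le_card
        (filter_subset_filter _ (range_mono (show l * k + 1 ≤ N by omega))))
      refine (Nat.cast_le.2 a1).trans (h2.trans ?_)
      have a2 : (N : ℝ) ≤ 2 * (l * k) := by exact_mod_cast k4
      calc s / (8 * l) * N ≤ s / (8 * l) * (2 * (l * k)) := by gcongr
        _ = s * k / 4 := by field_simp; ring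
    · rw [div_le_iff₀ hp, ← pow_mul, mul_comm a]
      exact Int.floor_le _
    · rw [inv_pow, inv_eq_one_div, ← add_div, le_div_iff₀ hp, ← pow_mul, mul_comm a]
      exact (Int.lt_floor_add_one _).le

theorem large {b : ℕ} (hb : 2 ≤ b) {a : ℝ} (h0 : a ≠ 0) (Y : ℕ) :
    ∃ M : ℕ, ∀ n, M ≤ n → Y < (⌊(b : ℝ) ^ n * a⌋).natAbs := by
  have hb1 : (1 : ℝ) < b := by exact_mod_cast hb
  have ha : 0 < |a| := abs_pos.2 h0
  obtain ⟨M, hM⟩ := pow_unbounded_of_one_lt ((Y + 1) / |a|) hb1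
  refine ⟨M, fun n hn => ?_⟩
  have h1 : (Y : ℝ) + 1 < |(b : ℝ) ^ n * a| := by
    rw [abs_mul, abs_of_pos (by positivity : (0 : ℝ) < (b : ℝ) ^ n), ← div_lt_iff₀ ha]
    exact hM.trans_le (pow_le_pow_right₀ hb1.le hn)
  rcases lt_abs.1 h1 with h | h
  · have : (Y : ℤ) + 1 ≤ ⌊(b : ℝ) ^ n * a⌋ := Int.le_floor.2 (by exact_mod_cast h.le)
    omega
  · have : ⌊(b : ℝ) ^ n * a⌋ < -Y := Int.floor_lt.2 (by push_cast; linarith)
    omega

theorem comp_of {Y : ℕ} {z : ℤ} (h : Sm Y z) (hz : Y < z.natAbs) : Comp z := by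
  obtain ⟨q, hq, h1, h2⟩ := h
  have := hq.two_le
  refine ⟨by omega, fun hp => ?_⟩
  have := (Nat.prime_dvd_prime_iff_eq hq hp).1 (Int.natCast_dvd.1 h2)
  omega

theorem main {b : ℕ} (hb : 2 ≤ b) {ε : ℝ} (hε : 0 < ε) :
    ∃ (Y : ℕ) (δ : ℝ), 0 < δ ∧ dimH {α : ℝ | ∃ᶠ N : ℕ in atTop,
      ({n : ℕ | n < N ∧ Comp ⌊(b : ℝ) ^ n * α⌋ ∧ Sm Y ⌊(b : ℝ) ^ n * α⌋}.ncard : ℝ) ≤ δ * N} ≤
      ENNReal.ofReal ε := by
  classical
  have hb1 : (1 : ℝ) < b := by exact_mod_cast hb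
  have hlog : 0 < log b := log_pos hb1
  obtain ⟨n0, h0⟩ := zero_entropy hb (ε * log b / 4) (by positivity)
  obtain ⟨n1, h1⟩ := exists_nat_ge (4 / ε)
  set l := n0 + n1 + 1 with hl
  have hlr : (0 : ℝ) < l := by positivity
  have h4 : 4 ≤ ε * l := by
    rw [div_le_iff₀ hε] at h1
    have : (n1 : ℝ) ≤ l := by exact_mod_cast (by omega : n1 ≤ l)
    nlinarith
  have hδ : 0 < ε / (16 * l) := by positivity
  refine ⟨l + b, ε / (16 * l), hδ, ?_⟩
  have hs : {α : ℝ | ∃ᶠ N : ℕ in atTop,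
      ({n : ℕ | n < N ∧ Comp ⌊(b : ℝ) ^ n * α⌋ ∧ Sm (l + b) ⌊(b : ℝ) ^ n * α⌋}.ncard : ℝ) ≤
        ε / (16 * l) * N} ⊆ {0} ∪ ⋃ x0 : ℤ, {a : ℝ | ⌊a⌋ = x0 ∧ ∃ᶠ N : ℕ in atTop,
      (((range N).filter fun n => Sm (l + b) ⌊(b : ℝ) ^ n * a⌋).card : ℝ) ≤ ε / (8 * l) * N} :=
    fun a ha => by
    by_cases a0 : a = 0
    · exact Or.inl a0
    refine Or.inr (Set.mem_iUnion.2 ⟨⌊a⌋, rfl, ?_⟩)
    obtain ⟨M, hM⟩ := large hb a0 (l + b)
    obtain ⟨N0, hN0⟩ := exists_nat_ge (M / (ε / (16 * l)))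
    refine (Frequently.and_eventually ha (eventually_ge_atTop N0)).mono fun N hN => ?_
    obtain ⟨c1, c2⟩ := hN
    have e : {n : ℕ | n < N ∧ Comp ⌊(b : ℝ) ^ n * a⌋ ∧ Sm (l + b) ⌊(b : ℝ) ^ n * a⌋} =
        ↑((range N).filter fun n => Comp ⌊(b : ℝ) ^ n * a⌋ ∧ Sm (l + b) ⌊(b : ℝ) ^ n * a⌋) := by
      ext n; simp
    rw [e, Set.ncard_coe_finset] at c1
    have c3 : ((range N).filter fun n => Sm (l + b) ⌊(b : ℝ) ^ n * a⌋).card ≤ M +
        ((range N).filter fun n =>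
          Comp ⌊(b : ℝ) ^ n * a⌋ ∧ Sm (l + b) ⌊(b : ℝ) ^ n * a⌋).card := by
      refine le_trans (card_le_card fun n hn => ?_) ((card_union_le (range M) _).trans
        (add_le_add (card_range M).le le_rfl))
      rcases lt_or_ge n M with c | c
      · exact mem_union_left _ (mem_range.2 c)
      · obtain ⟨u1, u2⟩ := mem_filter.1 hn
        exact mem_union_right _ (mem_filter.2 ⟨u1, comp_of u2 (hM n c), u2⟩)
    rw [div_le_iff₀ hδ] at hN0
    have c4 : (N0 : ℝ) ≤ N := by exact_mod_cast c2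
    have c5 : ε / (8 * l) * N = ε / (16 * l) * N + ε / (16 * l) * N := by field_simp; ring
    have c6 : (N0 : ℝ) * (ε / (16 * l)) ≤ ε / (16 * l) * N := by rw [mul_comm]; gcongr
    have c7 := (Nat.cast_le (α := ℝ)).2 c3
    rw [Nat.cast_add] at c7
    linarith
  refine (dimH_mono hs).trans ?_
  rw [dimH_union, dimH_iUnion, dimH_singleton]
  exact max_le zero_le (iSup_le fun x0 =>
    piece hb (by omega) (by omega) (by omega) hε h4 (h0 l (by omega)) x0)

end Pool.Agent.P.MP_7b3100_nt.DZ.Dens
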