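import Pool.Agent.P.MP_7b3100_nt.DZ.Basic

/-! The steps of the proof, as statements. -/

namespace Pool.Agent.P.MP_7b3100_nt.DZ

open Finset Real Pool.Agent.P.MP_bf60a1_an.RA
open Pool.Agent.P.MP_e94e4b_nt (ee)

-- deps:
def S_FEK : Prop := ∀ b : ℕ, 2 ≤ b → ∃ h : ℝ, 0 ≤ h ∧ (∀ n : ℕ, h * n ≤ lp b n) ∧
  ∀ ε : ℝ, 0 < ε → ∃ n0 : ℕ, ∀ n ≥ n0, lp b n ≤ (h + ε) * n

-- deps:
def S_ITER : Prop := ∀ (ψ : ℕ → ℝ) (c : ℝ) (M H0 : ℕ), 0 < c → (∀ n, 0 ≤ ψ n) →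
  ¬ ∀ H ≥ H0, ∃ H', H < H' ∧ H' ≤ M * H ∧ ψ H' ≤ ψ H - c / log H

-- deps:
def S_EMB : Prop := ∀ (b l w : ℕ) (x : ℤ), 2 ≤ b → w < b ^ l → l < x.natAbs →
  (∀ i, 1 ≤ i → i ≤ l → ((b : ℤ) ^ i * x + (w / b ^ (l - i) : ℕ)).natAbs.Prime) → w ∈ Lang b l

-- deps: EMB
def S_CNT : Prop := ∀ b : ℕ, 2 ≤ b → (∀ ε : ℝ, 0 < ε → ∃ n0 : ℕ, ∀ n ≥ n0, lp b n ≤ ε * n) →
  ∀ ε : ℝ, 0 < ε → ∃ l0 : ℕ, ∀ l ≥ l0, ((PW b l).card : ℝ) ≤ exp (ε * l)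

-- deps:
def S_DIMA : Prop := ∀ (b : ℕ) (E : Set ℝ), 2 ≤ b →
  (∀ ε : ℝ, 0 < ε → ∃ l0 : ℕ, ∀ l ≥ l0, ∃ F : Finset ℝ, (F.card : ℝ) ≤ exp (ε * l) ∧
    ∀ α ∈ E, ∃ a ∈ F, a ≤ α ∧ α ≤ a + ((b : ℝ) ^ l)⁻¹) → dimH E = 0

-- deps: DIMA
def S_DIM : Prop := ∀ b : ℕ, 2 ≤ b →
  (∀ ε : ℝ, 0 < ε → ∃ l0 : ℕ, ∀ l ≥ l0, ((PW b l).card : ℝ) ≤ exp (ε * l)) →
  dimH {α : ℝ | {n : ℕ | Comp ⌊(b : ℝ) ^ n * α⌋}.Finite} = 0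

-- deps:
def S_CHB : Prop := ∃ y0 : ℕ, ∀ y ≥ y0,
  (y : ℝ) ≤ ∑ q ∈ Qy y, log q ∧ ∑ q ∈ Qy y, log q ≤ 6 * y ∧
    (y : ℝ) ≤ 2 * ((Qy y).card * log y) ∧ (Qy y).card * log y ≤ 6 * y

-- deps:
def S_CB : Prop := ∀ n : ℕ, (n.choose (n / 2) : ℝ) ≤ 2 ^ n / √(n + 1)

-- deps: CB
def S_LO : Prop := ∀ (k : ℕ) (a : Fin k → ℝ) (w x : ℝ) (J : Finset (Fin k)), 0 ≤ w →
  (∀ i ∈ J, w < |a i|) →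
  ∑ S : Finset (Fin k), ind (x ≤ ∑ i ∈ S, a i ∧ ∑ i ∈ S, a i ≤ x + w) ≤ 2 ^ k / √(J.card + 1)

open Classical in
-- deps:
def S_BIN : Prop := ∃ C : ℝ, 0 < C ∧ ∀ (Ω : Type) [Fintype Ω] (k : ℕ) (P : Fin k → FP Ω)
  (s : Fin k → Ω → Prop) (I : Finset (Fin k)), (∀ i ∈ I, 1 / 2 ≤ (P i).pr (s i)) →
  ((pis P).E fun ω => 1 / √((univ.filter fun i => s i (ω i)).card + 1)) ≤ C / √(I.card + 1)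

-- deps: LO BIN
def S_KR : Prop := ∃ C : ℝ, 0 < C ∧ ∀ (Ω : Type) [Fintype Ω] (k : ℕ) (P : Fin k → FP Ω)
  (v : Fin k → Ω → ℝ) (I : Finset (Fin k)) (w x : ℝ), 0 ≤ w →
  (∀ i ∈ I, 1 / 2 ≤ ((P i).prod (P i)).pr fun z => w < |v i z.1 - v i z.2|) →
  ((pis P).pr fun ω => x ≤ ∑ i, v i (ω i) ∧ ∑ i, v i (ω i) ≤ x + w) ≤ C / √(I.card + 1)

-- deps:
def S_HOEF : Prop := ∀ (Ω : Type) [Fintype Ω] (k : ℕ) (P : Fin k → FP Ω) (v : Fin k → Ω → ℝ)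
  (R t : ℝ), 0 < R → 0 ≤ t → (∀ i ω, 0 < (P i).p ω → 0 ≤ v i ω ∧ v i ω ≤ R) →
  ((pis P).pr fun ω => t ≤ |∑ i, v i (ω i) - ∑ i, (P i).E (v i)|) ≤
    2 * exp (-(t ^ 2 / (2 * k * R ^ 2)))

-- deps: KR
def S_ONE : Prop := ∃ C : ℝ, 0 < C ∧ ∀ (Ω : Type) [Fintype Ω] (k : ℕ) (P : Fin k → FP Ω)
  (v : Fin k → Ω → ℝ) (I : Finset (Fin k)) (a w x : ℝ), 0 < w → 0 ≤ a →
  (∀ i ∈ I, 1 / 2 ≤ ((P i).prod (P i)).pr fun z => w < |v i z.1 - v i z.2|) →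
  ((pis P).pr fun ω => |x - ∑ i, v i (ω i)| ≤ a) ≤ (2 * a / w + 1) * C / √(I.card + 1)

-- deps: ONE HOEF
def S_FST : Prop := ∃ C : ℝ, 0 < C ∧ ∀ (Ω : Type) [Fintype Ω] (B D N : ℕ) (A ρ θ W x : ℝ)
  (P : Fin (B ^ 2) → FP Ω) (v : Fin (B ^ 2) → Ω → ℝ) (I : Finset (Fin (B ^ 2))),
  B = D * N → 0 < B → 0 < W → 1 ≤ A → C * A * N ≤ ρ * B → exp (-((A - 1) ^ 2 / 2)) ≤ ρ ^ 2 →
  ρ ≤ 1 → 0 ≤ θ → θ ≤ 1 → (∀ n : ℕ, B ^ 2 ≤ 2 * n → θ ^ n ≤ ρ) →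
  (∀ i ω, 0 < (P i).p ω → 0 ≤ v i ω ∧ v i ω ≤ B * W) →
  (∀ i ∈ I, 1 / 2 ≤ ((P i).prod (P i)).pr fun z => W * D < |v i z.1 - v i z.2|) →
  θ ^ (B ^ 2 - I.card) *
      ((pis P).E fun ω => uu (A * B * W) (B ^ 2 * W) ρ (x - ∑ i, v i (ω i))) ≤
    2 * ρ * if |x - ∑ i, (P i).E (v i)| ≤ A * B * (B * W) then 1 else ρ

-- deps:
def S_CM : Prop := ∀ (Ω : Type) [Fintype Ω] (P : FP Ω) (X : Ω → ℕ) (W D : ℕ), 0 < W → 0 < D →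
  P.E (cm P X W) = (P.E fun ω => X ω) ∧
  (∀ ω, 0 < P.p ω → ((X ω / W : ℕ) : ℝ) * W ≤ cm P X W ω ∧
    cm P X W ω < ((X ω / W : ℕ) + 1) * W ∧ cm P X W ω = ((X ω / W : ℕ) : ℝ) * W +
      (P.cv (fun x => X x / W) (X ω / W)).E fun x => ((X x % W : ℕ) : ℝ)) ∧
  (Br P (fun ω => X ω / W / D) →
    1 / 2 ≤ (P.prod P).pr fun z => (W : ℝ) * D < |cm P X W z.1 - cm P X W z.2|)

-- deps: FST CM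
def S_FLAT : Prop := ∃ C : ℝ, 0 < C ∧ ∀ (Ω : Type) [Fintype Ω] (B D N : ℕ) (A ρ θ : ℝ),
  B = D * N → 0 < B → 1 ≤ A → C * A * N ≤ ρ * B → exp (-((A - 1) ^ 2 / 2)) ≤ ρ ^ 2 →
  ρ ≤ 1 → 0 ≤ θ → θ ≤ 1 → (∀ n : ℕ, B ^ 2 ≤ 2 * n → θ ^ n ≤ ρ) →
  ∀ (T : ℕ) (P : Fin (B ^ 2) → FP Ω) (X : Fin (B ^ 2) → Ω → ℕ) (x : ℝ),
    (∀ i ω, 0 < (P i).p ω → X i ω < B ^ T) →
    ((pis P).E fun ω => ind (∑ i, (X i (ω i) : ℝ) = x) *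
        ∏ i, θ ^ nb B D T (P i) (X i) (X i (ω i))) ≤
      (2 * ρ) ^ T * uu (A * B * B ^ T) (B ^ 2 * B ^ T) ρ (x - ∑ i, (P i).E fun ω => X i ω)

-- deps:
def S_NBE : Prop := ∀ (Ω : Type) [Fintype Ω] (P : FP Ω) (U : Ω → ℕ) (F : Finset ℕ),
  (∀ ω, 0 < P.p ω → U ω ∈ F) → ¬ Br P U → P.H U ≤ log 6 + log F.card / 2

-- deps: NBE
def S_GOOD : Prop := ∀ (Ω : Type) [Fintype Ω] (b g l T : ℕ) (P : FP Ω) (X : Ω → ℕ),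
  InL P X b ((g + l) * T) →
  (lp b g / 2 - log 6) * (P.E fun ω => nb (b ^ (g + l)) (b ^ l) T P X (X ω)) + P.H X ≤
    T * (lp b g + lp b l)

-- deps:
def S_FGP : Prop := ∀ (b : ℕ) (C δ : ℝ), 2 ≤ b → 0 < C → 0 < δ → δ ≤ 1 → ∃ n : ℕ, 0 < n ∧
  ∀ g : ℕ, 0 < g → ∃ A ρ : ℝ, 1 ≤ A ∧ 0 < ρ ∧ ρ ≤ 1 ∧
    C * A * (b ^ g : ℕ) ≤ ρ * (b ^ (g + n * g) : ℕ) ∧ exp (-((A - 1) ^ 2 / 2)) ≤ ρ ^ 2 ∧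
    log 2 + (1 - δ / 2) * log ρ ≤ -((1 - δ) * ((g + n * g : ℕ) * log b))

-- deps: FLAT GOOD FGP
def S_FG : Prop := ∀ (b : ℕ) (h δ : ℝ), Hyp b h → 0 < δ → ∃ (L k : ℕ) (C : ℝ),
  0 < L ∧ 0 < k ∧ 0 ≤ C ∧ ∀ (Ω : Type) [Fintype Ω] (P : FP Ω) (X : Ω → ℕ) (j : ℕ), L ∣ j →
    InL P X b j → ∃ G : Finset ℕ, (∀ x ∈ G, x < b ^ j) ∧
      j * (P.pr fun ω => X ω ∉ G) ≤ j * δ + C * (h * j - P.H X) ∧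
      ∀ x, cv P X G k x ≤ exp (-((1 - δ) * (j * log b)))

-- deps:
def S_CHK : Prop := ∀ (Ω : Type) [Fintype Ω] (P : FP Ω) (X : Ω → ℕ) (G : Finset ℕ) (k W N : ℕ),
  0 < k → (∀ x ∈ G, x < W) → k * W ≤ N →
  (∀ θ : ℝ, ch P X G θ ^ k = ∑ x ∈ range N, (cv P X G k x : ℂ) * ee (x * θ)) ∧
    ∑ x ∈ range N, cv P X G k x ≤ 1

-- deps: CHK
def S_PARS : Prop := ∀ (Ω : Type) [Fintype Ω] (P : FP Ω) (X : Ω → ℕ) (G : Finset ℕ)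
  (k W N c : ℕ) (η : ℝ), 0 < k → (∀ x ∈ G, x < W) → k * W ≤ N → c.Coprime N →
  (∀ x, cv P X G k x ≤ η) →
  ∑ a ∈ range N, ‖ch P X G ((a * c : ℕ) / (N : ℝ))‖ ^ (2 * k) ≤ N * η

-- deps: PARS
def S_MAJA : Prop := ∀ (Ω : Type) [Fintype Ω] (P : FP Ω) (S k W N x : ℕ) (D : Fin S → Ω → ℕ)
  (G : Fin S → Finset ℕ) (c : Fin S → ℕ) (η : ℝ) (I : Finset (Fin S)), 0 < k → 0 < N →
  I.card = 2 * k → (∀ i, ∀ d ∈ G i, d < W) → k * W ≤ N → (∀ i, (c i).Coprime N) →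
  (∀ i d, cv P (D i) (G i) k d ≤ η) →
  ((P.pi S).pr fun ω => (∀ i ∈ I, D i (ω i) ∈ G i) ∧ (∑ i, c i * D i (ω i)) % N = x) ≤ η

-- deps: MAJA
def S_MAJ : Prop := ∀ (Ω : Type) [Fintype Ω] (P : FP Ω) (S k W N x : ℕ) (D : Fin S → Ω → ℕ)
  (G : Fin S → Finset ℕ) (c : Fin S → ℕ) (η : ℝ), 0 < k → 0 < N → 0 ≤ η →
  (∀ i, ∀ d ∈ G i, d < W) → k * W ≤ N → (∀ i, (c i).Coprime N) →
  (∀ i d, cv P (D i) (G i) k d ≤ η) →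
  ((P.pi S).pr fun ω => 2 * k ≤ (univ.filter fun i => D i (ω i) ∈ G i).card ∧
    (∑ i, c i * D i (ω i)) % N = x) ≤ 2 ^ S * η

-- deps:
def S_GIB : Prop := ∀ (Ω : Type) [Fintype Ω] (P : FP Ω) (S : ℕ) (D : Fin S → Ω → ℕ)
  (f : (Fin S → ℕ) → ℕ) (g : (Fin S → ℕ) → Prop) (η : ℝ), 0 < η →
  (∀ x, ((P.pi S).pr fun ω => g (fun i => D i (ω i)) ∧ f (fun i => D i (ω i)) = x) ≤ η) →
  (P.H fun ω i => D i ω) ≤ log 2 + ∑ i, P.H (D i) + (P.pr fun ω => g fun i => D i ω) * log η +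
    P.H fun ω => f fun i => D i ω

-- deps: MAJ GIB
def S_APA : Prop := ∀ (Ω : Type) [Fintype Ω] (P : FP Ω) (X : Ω → ℕ) (W k N : ℕ)
  (G : Fin (4 * k) → Finset ℕ) (s : ℝ), 0 < k → 0 < N → W.Coprime N → k * W ≤ N →
  (∀ ω, 0 < P.p ω → X ω < W ^ (4 * k)) → (∀ i, ∀ d ∈ G i, d < W) → s ≤ log W →
  (∀ i d, cv P (fun ω => X ω / W ^ i.1 % W) (G i) k d ≤ exp (-s)) →
  s - (4 * k + 1) * log 2 -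
      (∑ i, P.pr fun ω => X ω / W ^ i.1 % W ∉ G i) / (2 * k) * log W -
      (∑ i : Fin (4 * k), (P.H fun ω => X ω / W ^ i.1 % W) - P.H X) ≤ P.H fun ω => X ω % N

-- deps: FG APA
def S_AP : Prop := ∀ (b : ℕ) (h δ : ℝ), Hyp b h → 0 < δ → ∃ (S L j0 : ℕ) (C : ℝ),
  0 < S ∧ 0 < L ∧ 1 ≤ C ∧ ∀ j ≥ j0, L ∣ j → ∀ N : ℕ, b.Coprime N → S * b ^ j ≤ N →
    ∀ (Ω : Type) [Fintype Ω] (P : FP Ω) (X : Ω → ℕ), InL P X b (S * j) →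
      (1 - δ) * (j * log b) - C * (h * (S * j : ℕ) - P.H X) ≤ P.H fun ω => X ω % N

-- deps:
def S_LSQ : Prop := ∀ (y N : ℕ) (R : Finset ℕ) (a : ℕ → ℕ) (γ : ℕ → ℂ), R ⊆ Qy y →
  (∀ q ∈ R, 0 < a q ∧ a q < q) →
  ∑ q ∈ R, ‖∑ x ∈ range N, γ x * ee (x * ((a q : ℝ) / q))‖ ^ 2 ≤
    3 * (N + 16 * y ^ 2) * ∑ x ∈ range N, ‖γ x‖ ^ 2

open Classical in
-- deps: CHK LSQ
def S_FPA : Prop := ∀ (Ω : Type) [Fintype Ω] (P : FP Ω) (X : Ω → ℕ) (G : Finset ℕ) (k W y : ℕ)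
  (η lam : ℝ), 0 < k → 0 ≤ lam → (∀ x ∈ G, x < W) → (∀ x, cv P X G k x ≤ η) →
  ((Qy y).filter (Exc P X G lam)).card * lam ^ (2 * k) ≤ 3 * (k * W + 16 * y ^ 2) * η

open Classical in
-- deps: FG FPA
def S_FP : Prop := ∀ (b : ℕ) (h : ℝ), Hyp b h → ∃ (c C C' : ℝ) (y0 : ℕ), 0 < c ∧ c ≤ 1 / 20 ∧
  0 ≤ C ∧ ∀ y ≥ y0, ∃ j : ℕ, 0 < j ∧ j ≤ C' * log y ∧
    ∀ (Ω : Type) [Fintype Ω] (P : FP Ω) (X : Ω → ℕ), InL P X b j → ∃ G : Finset ℕ,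
      j * (P.pr fun ω => X ω ∉ G) ≤ j * (1 / 100) + C * (h * j - P.H X) ∧
      (((Qy y).filter (Exc P X G ((y : ℝ) ^ (-c)))).card : ℝ) ≤ √y

-- deps:
def S_TEL : Prop := ∀ (Ω : Type) [Fintype Ω] (P : FP Ω) (F : Ω → ℕ) (b m j : ℕ), 0 < b →
  j ≤ m → (∀ ω, 0 < P.p ω → F ω < b ^ m) →
  j * P.H F - 2 * j ^ 2 * log b ≤
    ∑ i ∈ Icc j m, P.Hc (fun ω => lo b m j i (F ω)) fun ω => hi b m j i (F ω)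

-- deps: TEL
def S_GT : Prop := ∀ (Ω : Type) [Fintype Ω] (P : FP Ω) (F : Ω → ℕ) (b m j : ℕ)
  (G : ℕ → ℕ → Finset ℕ) (h η C : ℝ), 0 < b → 0 < j → j ≤ m → 0 ≤ h → 0 ≤ η → 0 ≤ C →
  (∀ ω, 0 < P.p ω → F ω < b ^ m) →
  (∀ i ∈ Icc j m, ∀ u,
    j * ((P.cv (fun ω => hi b m j i (F ω)) u).pr fun ω => lo b m j i (F ω) ∉ G i u) ≤ j * η +
      C * (h * j - (P.cv (fun ω => hi b m j i (F ω)) u).H fun ω => lo b m j i (F ω))) →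
  m * (P.pr fun ω => 2 * (gd b m j G (F ω)).card < m) ≤
    2 * j + 2 * m * η + 2 * C * (h * m - P.H F) + 4 * C * j * log b

-- deps:
def S_RHO : Prop := ∀ (q : ℕ) (Y : Finset (ZMod q)), 0 < q →
  (∀ t, |rho Y t| ≤ Y.card / q) ∧ (∀ t, rho Y (-t) = rho Y t) ∧
  ∀ (σ : ℕ → ZMod q) (I : Finset ℕ), var σ I Y = ∑ i ∈ I, ∑ i' ∈ I, rho Y (σ i - σ i')

-- deps:
def S_RF : Prop := ∀ (q : ℕ) (Y : Finset (ZMod q)), 0 < q → ∃ κ : ℕ → ℝ, (∀ a, 0 ≤ κ a) ∧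
  ∑ a ∈ Ico 1 q, κ a ≤ Y.card / q ∧
  ∀ t : ℕ, (rho Y t : ℂ) = ∑ a ∈ Ico 1 q, (κ a : ℂ) * ee (t * ((a : ℝ) / q))

-- deps: RF
def S_VF : Prop := ∀ (Ω : Type) [Fintype Ω] (P : FP Ω) (V : Ω → ℕ) (G : Finset ℕ) (lam : ℝ)
  (q : ℕ) (Y : Finset (ZMod q)) (t c : ZMod q), q.Prime → c ≠ 0 → ¬ Exc P V G lam q →
  |P.E fun ω => ind (V ω ∈ G) * rho Y (t + c * V ω)| ≤ lam * (Y.card / q)

-- deps: RHO VF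
def S_EVA : Prop := ∀ (Ω : Type) [Fintype Ω] (P : FP Ω) (F : Ω → ℕ) (b m j q i i' : ℕ)
  (G : ℕ → ℕ → Finset ℕ) (lam : ℝ) (Y : Finset (ZMod q)), q.Prime → b.Coprime q → 0 ≤ lam →
  j ≤ i → i + j ≤ i' → i' ≤ m →
  (P.E fun ω => ind (i ∈ gd b m j G (F ω)) * ind (i' ∈ gd b m j G (F ω)) *
      rho Y (sig b q m (F ω) i - sig b q m (F ω) i')) ≤
    Y.card / q * (lam + P.pr fun ω => Exc (P.cv (fun x => hi b m j i' (F x)) (hi b m j i' (F ω)))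
      (fun x => lo b m j i' (F x)) (G i' (hi b m j i' (F ω))) lam q)

-- deps: RHO EVA
def S_EV : Prop := ∀ (Ω : Type) [Fintype Ω] (P : FP Ω) (F : Ω → ℕ) (b m j q : ℕ)
  (G : ℕ → ℕ → Finset ℕ) (lam : ℝ) (Y : Finset (ZMod q)), q.Prime → b.Coprime q → 0 ≤ lam →
  0 < j → (P.E fun ω => var (sig b q m (F ω)) (gd b m j G (F ω)) Y) ≤
    Y.card / q * (2 * m * j + m ^ 2 * lam + 2 * m * ∑ i ∈ Icc j m,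
      P.pr fun ω => Exc (P.cv (fun x => hi b m j i (F x)) (hi b m j i (F ω)))
        (fun x => lo b m j i (F x)) (G i (hi b m j i (F ω))) lam q)

-- deps:
def S_HK : Prop := ∀ (b q m f c t d : ℕ) (Z I : Finset ℕ), q.Prime → b.Coprime q →
  I ⊆ Icc 1 m → ¬ Coll b q m f →
  hit (sig b q m f) I (Z.image fun z => ((c * z + t : ℕ) : ZMod q)) d ≤ kil b q m f c (t + d) Z

-- deps: HK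
def S_BFA : Prop := ∀ (b q m f c t : ℕ) (Z I : Finset ℕ) (τ : ℝ), q.Prime → b.Coprime q →
  c.Coprime q → Z ⊆ range q → I ⊆ Icc 1 m → m ≤ 2 * I.card → ¬ Coll b q m f → 0 < m → 0 ≤ τ →
  var (sig b q m f) I (Z.image fun z => ((c * z + t : ℕ) : ZMod q)) ≤ τ * (Z.card / q) * m ^ 2 →
  ((few b q m f c t Z).card : ℝ) * Z.card ≤ 16 * τ * q ^ 2

open Classical in
-- deps:
def S_COLL : Prop := ∀ b m f y : ℕ, 2 ≤ b → 0 < y → f ∈ Lang b m →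
  ((Qy y).filter fun q => Coll b q m f).card * log y ≤ m ^ 3 * log b

-- deps: EV BFA
def S_BFQ : Prop := ∀ (Ω : Type) [Fintype Ω] (P : FP Ω) (F : Ω → ℕ) (b m j q c t : ℕ)
  (G : ℕ → ℕ → Finset ℕ) (lam τ : ℝ) (Z : Finset ℕ), q.Prime → b.Coprime q → c.Coprime q →
  Z ⊆ range q → 0 ≤ lam → 0 < τ → 0 < j → 0 < m →
  (P.pr fun ω => 16 * τ * q ^ 2 < ((few b q m (F ω) c t Z).card : ℝ) * Z.card) ≤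
    (P.pr fun ω => 2 * (gd b m j G (F ω)).card < m) + (P.pr fun ω => Coll b q m (F ω)) +
      (2 * m * j + m ^ 2 * lam + 2 * m * ∑ i ∈ Icc j m,
        P.pr fun ω => Exc (P.cv (fun x => hi b m j i (F x)) (hi b m j i (F ω)))
          (fun x => lo b m j i (F x)) (G i (hi b m j i (F ω))) lam q) / (τ * m ^ 2)

-- deps: CHB
def S_BFN : Prop := ∀ (b : ℕ) (c C C' : ℝ), 0 < c → c ≤ 1 / 20 → 0 ≤ C → ∃ y0 : ℕ, ∀ y ≥ y0,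
  b ≤ y ∧ 0 < y ∧ 6400 * (y : ℝ) ^ (-c) ≤ (y : ℝ) ^ (-(c / 3)) * (y : ℝ) ^ (-(c / 3)) ∧
  2 * √y ≤ (y : ℝ) ^ (-c) * (Qy y).card ∧ ∀ m j : ℕ, y ≤ m ^ 5 → m ^ 4 ≤ y → j ≤ C' * log y →
    j ≤ m ∧ 2 * j ≤ (y : ℝ) ^ (-c) * m ∧ 2 * j + 4 * C * j * log b ≤ m / 50 ∧
      100 * (m ^ 3 * log b) ≤ (Qy y).card * log y ∧ 0 < log y

-- deps: FP GT COLL BFQ BFN
def S_BF : Prop := ∀ (b : ℕ) (h : ℝ), Hyp b h → ∃ (c0 C : ℝ) (y0 : ℕ), 0 < c0 ∧ 0 ≤ C ∧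
  ∀ y ≥ y0, ∀ m : ℕ, y ≤ m ^ 5 → m ^ 4 ≤ y →
    ∀ (Ω : Type) [Fintype Ω] (P : FP Ω) (F : Ω → ℕ) (c t : ℕ) (Z : ℕ → Finset ℕ), InL P F b m →
      (∀ q ∈ Qy y, c.Coprime q) → (∀ q, Z q ⊆ range q) →
      m * ∑ q ∈ Qy y, ind (q * (y : ℝ) ^ (-c0) ≤ (Z q).card) *
          (P.pr fun ω => q * (y : ℝ) ^ (-c0) < (few b q m (F ω) c t (Z q)).card) ≤
        (Qy y).card * (m / 10 + C * (h * m - P.H F))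

-- deps:
def S_SS : Prop := ∀ (Ω : Type) [Fintype Ω] (P : FP Ω) (D F : Ω → ℕ) (A : ℕ → Finset ℕ) (q : ℕ)
  (s : ℝ), (∀ ω, 0 < P.p ω → D ω < q) → (∀ f, ((A f).card : ℝ) ≤ q * exp (-s)) →
  (P.pr fun ω => D ω ∈ A (F ω)) * s ≤ log 2 + log q - P.Hc D F

-- deps:
def S_RSUB : Prop := ∀ (Q : Finset ℕ) (φ : ℕ → ℝ) (r : ℕ) (B : ℝ), 0 < r → r ≤ Q.card →
  (∀ R ⊆ Q, R.card = r → ∑ q ∈ R, φ q ≤ B) → r * ∑ q ∈ Q, φ q ≤ Q.card * B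

-- deps:
def S_CRT : Prop := ∀ (Ω : Type) [Fintype Ω] (P : FP Ω) (D F : Ω → ℕ) (R : Finset ℕ),
  (∀ q ∈ R, q.Prime) → P.Hc (fun ω => D ω % ∏ q ∈ R, q) F ≤ ∑ q ∈ R, P.Hc (fun ω => D ω % q) F

-- deps: CHB
def S_EPN : Prop := ∀ (b S j0 : ℕ) (δ : ℝ), 2 ≤ b → 0 < S → 0 < δ → ∃ y0 : ℕ, ∀ y ≥ y0,
  b ≤ y ∧ ∀ m : ℕ, y ≤ m ^ 5 → m ^ 4 ≤ y → j0 ≤ m ∧ ∃ r : ℕ, 0 < r ∧ r ≤ (Qy y).card ∧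
    S * b ^ m ≤ y ^ r ∧ r * (log (4 * y) + log 2) ≤ (1 + δ) * (m * log b)

-- deps: AP RSUB CRT EPN
def S_EPE : Prop := ∀ (b : ℕ) (h δ : ℝ), Hyp b h → 0 < δ → ∃ (S L y0 : ℕ) (C : ℝ),
  0 < S ∧ 0 < L ∧ 0 ≤ C ∧ ∀ y ≥ y0, ∀ m : ℕ, L ∣ m → y ≤ m ^ 5 → m ^ 4 ≤ y →
    ∀ (Ω : Type) [Fintype Ω] (P : FP Ω) (D F : Ω → ℕ), InL P D b (S * m) →
      m * ∑ q ∈ Qy y, (log 2 + log q - P.Hc (fun ω => D ω % q) F) ≤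
        (Qy y).card * log y * (δ * m + C * (h * (S * m : ℕ) - P.Hc D F))

-- deps:
def S_KIL : Prop := ∀ (b q n m w c t : ℕ) (Z : Finset ℕ),
  kil b q m (w % b ^ m) (b ^ n * c) (b ^ n * t + w / b ^ m % q) Z ≤ kil b q (n + m) w c t Z

-- deps: EPE SS
def S_EPA : Prop := ∀ (b : ℕ) (h c0 : ℝ), Hyp b h → 0 < c0 → ∃ (S L y0 : ℕ) (C : ℝ),
  0 < S ∧ 0 < L ∧ 0 ≤ C ∧ ∀ y ≥ y0, ∀ m : ℕ, L ∣ m → y ≤ m ^ 5 → m ^ 4 ≤ y →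
    ∀ (Ω : Type) [Fintype Ω] (P : FP Ω) (D F : Ω → ℕ) (A : ℕ → ℕ → Finset ℕ),
      InL P D b (S * m) → (∀ q ∈ Qy y, ∀ f, ((A q f).card : ℝ) ≤ q * (y : ℝ) ^ (-c0)) →
      m * ∑ q ∈ Qy y, (P.pr fun ω => D ω % q ∈ A q (F ω)) ≤
        (Qy y).card * (m / 25 + C * (h * (S * m : ℕ) - P.Hc D F))

-- deps:
def S_MEX : Prop := ∀ L n0 : ℕ, 0 < L → ∃ y0 : ℕ, ∀ y ≥ y0, ∃ m : ℕ, L ∣ m ∧ n0 ≤ m ∧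
  y ≤ m ^ 5 ∧ m ^ 4 ≤ y ∧ n0 * m ≤ y

-- deps: BF EPA KIL MEX
def S_EP : Prop := ∀ (b : ℕ) (h : ℝ), Hyp b h → ∃ (c0 C : ℝ) (K y0 : ℕ), 0 < c0 ∧ 0 ≤ C ∧
  0 < K ∧ ∀ y ≥ y0, ∃ m : ℕ, 0 < m ∧ K * m ≤ y ∧
    ∀ (Ω : Type) [Fintype Ω] (P : FP Ω) (X : Ω → ℕ) (c t : ℕ) (Z : ℕ → Finset ℕ),
      InL P X b (K * m) → (∀ q ∈ Qy y, c.Coprime q) → (∀ q, Z q ⊆ range q) →
      m * ∑ q ∈ Qy y, ind (q * (y : ℝ) ^ (-c0) ≤ (Z q).card) *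
          (P.pr fun ω => (kil b q (K * m) (X ω) c t (Z q) : ℝ) < m * (Z q).card / (4 * q)) ≤
        (Qy y).card * (m / 5 + C * (h * (K * m : ℕ) - P.H X))

-- deps:
def S_DET : Prop := ∀ (b q l m n w : ℕ) (s : ℝ), 0 < q →
  q * exp (-s) ≤ (sv b q (l * n) w).card →
  m * (n - ∑ e ∈ range n, ind (q * exp (-s) ≤ (sv b q (l * e) (w / b ^ (l * (n - e)))).card) *
    ind ((kil b q l (w / b ^ (l * (n - (e + 1))) % b ^ l) (b ^ (l * e)) (w / b ^ (l * (n - e)))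
      (sv b q (l * e) (w / b ^ (l * (n - e)))) : ℝ) <
        m * (sv b q (l * e) (w / b ^ (l * (n - e)))).card / (4 * q))) ≤ 4 * q * s

-- deps: DET
def S_WA : Prop := ∀ (b y l m n : ℕ) (h C s : ℝ), 2 ≤ b → b ≤ y → 0 ≤ s →
  64 * y * s ≤ m * n →
  (∀ (Ω : Type) [Fintype Ω] (P : FP Ω) (X : Ω → ℕ) (c t : ℕ) (Z : ℕ → Finset ℕ),
      InL P X b l → (∀ q ∈ Qy y, c.Coprime q) → (∀ q, Z q ⊆ range q) →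
      m * ∑ q ∈ Qy y, ind (q * exp (-s) ≤ (Z q).card) *
          (P.pr fun ω => (kil b q l (X ω) c t (Z q) : ℝ) < m * (Z q).card / (4 * q)) ≤
        (Qy y).card * (m / 5 + C * (h * l - P.H X))) →
  ∀ (Ω : Type) [Fintype Ω] (P : FP Ω) (X : Ω → ℕ), InL P X b (l * n) →
    3 / 4 * (m * n) * ∑ q ∈ Qy y, (P.pr fun ω => q * exp (-s) ≤ (sv b q (l * n) (X ω)).card) ≤
      (Qy y).card * (m * n / 5 + C * (h * (l * n : ℕ) - P.H X))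

-- deps: EP WA
def S_WIN : Prop := ∀ (b : ℕ) (h : ℝ), Hyp b h → ∃ (c0 C1 C : ℝ) (y0 : ℕ), 0 < c0 ∧ 0 ≤ C1 ∧
  0 ≤ C ∧ ∀ y ≥ y0, ∀ H : ℕ, C1 * (y * log y) ≤ H →
    ∀ (Ω : Type) [Fintype Ω] (P : FP Ω) (K : Ω → ℕ), InL P K b H →
      H * ∑ q ∈ Qy y, (P.pr fun ω => q * (y : ℝ) ^ (-c0) ≤ (sv b q H (K ω)).card) ≤
        (Qy y).card * (H / 3 + C * (h * H - P.H K))

-- deps: CRT
def S_STA : Prop := ∀ (Ω : Type) [Fintype Ω] (P : FP Ω) (K Z : Ω → ℕ) (b H : ℕ) (R : Finset ℕ)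
  (s : ℝ), (∀ q ∈ R, q.Prime) → 0 ≤ s → (∀ ω, 0 < P.p ω → ∀ q ∈ R, Surv b q H (K ω) (Z ω)) →
  P.Hc (fun ω => Z ω % ∏ q ∈ R, q) K ≤ ∑ q ∈ R, log q -
    s * (R.card - ∑ q ∈ R, P.pr fun ω => q * exp (-s) ≤ (sv b q H (K ω)).card)

-- deps:
def S_STB : Prop := ∀ (Ω : Type) [Fintype Ω] (P : FP Ω) (Y : Ω → ℕ × ℕ) (R K Z : Ω → ℕ) (N : ℕ)
  (a x C : ℝ), P.Det Y Z → 1 ≤ C →
  x - C * (a - P.Hc R Y) ≤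
    P.Hc (fun ω => R ω % N) Y - P.Hc (fun ω => (Z ω + R ω) % N) K →
  P.Hc (fun ω => (R ω, K ω)) Y ≤ a + P.H K - x / C

-- deps: CHB
def S_STN : Prop := ∀ (b S L j0 : ℕ) (c : ℝ), 2 ≤ b → 0 < S → 0 < L → 0 < c → ∃ y0 : ℕ,
  ∀ y ≥ y0, b ≤ y ∧ ∃ j ≥ j0, L ∣ j ∧ S * b ^ j ≤ ∏ q ∈ Qy y, q ∧ j ≤ 9 * y ∧
    ∑ q ∈ Qy y, log q - c * y ≤ j * log b ∧ j * log b ≤ 6 * y

-- deps: AP WIN STA STB STN CHB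
def S_STEP : Prop := ∀ (b : ℕ) (h : ℝ), Hyp b h → ∃ (c C1 : ℝ) (C2 y0 : ℕ), 0 < c ∧ 0 ≤ C1 ∧
  ∀ y ≥ y0, ∃ J ≤ C2 * y, ∀ H : ℕ, C1 * (y * log y) ≤ H →
    ∀ (Ω : Type) [Fintype Ω] (P : FP Ω) (Y : Ω → ℕ × ℕ) (R K Z : Ω → ℕ), InL P R b J →
      InL P K b H → P.Det Y Z → (∀ ω, 0 < P.p ω → ∀ q ∈ Qy y, Surv b q H (K ω) (Z ω + R ω)) →
      P.Hc (fun ω => (R ω, K ω)) Y ≤ h * J + lp b H - c * y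

-- deps:
def S_ZEX : Prop := ∀ (b n w : ℕ) (R : Finset ℕ), (∀ q ∈ R, q.Prime ∧ b < q) → w ∈ Lang b n →
  ∃ z < ∏ q ∈ R, q, ∀ q ∈ R, Surv b q n w z

-- deps: ZEX
def S_CHAIN : Prop := ∀ (b J H M : ℕ) (Q : Finset ℕ) (a : ℝ), 2 ≤ b →
  (∀ q ∈ Q, q.Prime ∧ b < q) →
  (∀ (Ω : Type) [Fintype Ω] (P : FP Ω) (Y : Ω → ℕ × ℕ) (R K Z : Ω → ℕ), InL P R b J →
      InL P K b H → P.Det Y Z → (∀ ω, 0 < P.p ω → ∀ q ∈ Q, Surv b q H (K ω) (Z ω + R ω)) →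
      P.Hc (fun ω => (R ω, K ω)) Y ≤ a) →
  lp b ((J + H) * M) ≤ ∑ q ∈ Q, log q + M * a

-- deps:
def S_SCN : Prop := ∀ (C1 : ℝ) (C2 y0 : ℕ), 0 ≤ C1 → ∃ (c : ℝ) (H0 : ℕ), 0 < c ∧ ∀ H ≥ H0,
  2 ≤ H ∧ ∃ y ≥ y0, C1 * (y * log y) ≤ H ∧ C2 * y ≤ H ∧ c * H ≤ y * log H

-- deps: STEP CHAIN CHB SCN
def S_SCALE : Prop := ∀ (b : ℕ) (h : ℝ), Hyp b h → ∃ (c : ℝ) (M H0 : ℕ), 0 < c ∧
  ∀ H ≥ H0, ∃ H', H < H' ∧ H' ≤ M * H ∧ lp b H' / H' ≤ lp b H / H - c / log H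

end Pool.Agent.P.MP_7b3100_nt.DZ
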