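import Pool.Agent.P.MP_7b3100_nt.DZ.If

/-! Step FEK. -/

namespace Pool.Agent.P.MP_7b3100_nt.DZ

open Finset Real Pool.Agent.P.MP_bf60a1_an.RA
open Pool.Agent.P.MP_e94e4b_nt (ee)

theorem p_FEK :
    S_FEK := by
  intro b hb
  have hs : Subadditive (lp b) := lp_add hb
  have h0 : ∀ n : ℕ, 0 ≤ lp b n / n := fun n => div_nonneg (lp_nonneg b n) n.cast_nonneg
  have hbd : BddBelow (Set.range fun n : ℕ => lp b n / n) := ⟨0, by rintro _ ⟨n, rfl⟩; exact h0 n⟩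
  have ht := hs.tendsto_lim hbd
  refine ⟨hs.lim, ge_of_tendsto' ht h0, fun n => ?_, fun ε hε => ?_⟩
  · rcases n.eq_zero_or_pos with rfl | hn
    · simpa using lp_nonneg b 0
    · exact (le_div_iff₀ (mod_cast hn)).1 (hs.lim_le_div hbd hn.ne')
  · obtain ⟨n0, h⟩ := Filter.eventually_atTop.1 (ht.eventually (gt_mem_nhds (lt_add_of_pos_right _ hε)))
    exact ⟨n0 + 1, fun n hn => (div_le_iff₀ (mod_cast (by omega : 0 < n))).1 (h n (by omega)).le⟩

end Pool.Agent.P.MP_7b3100_nt.DZ
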