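import Pool.Agent.P.MP_7b3100_nt.DZ.If

/-! Step KR. -/

namespace Pool.Agent.P.MP_7b3100_nt.DZ

open Finset Real Pool.Agent.P.MP_bf60a1_an.RA
open Pool.Agent.P.MP_e94e4b_nt (ee)

theorem p_KR (hLO : S_LO) (hBIN : S_BIN) :
    S_KR := by
  classical
  obtain ⟨C, hC, hB⟩ := hBIN
  refine ⟨C, hC, fun Ω _ k P v I w x hw hI => ?_⟩
  have hMP : ∀ S : Finset (Fin k), FP.MP (pis fun i => (P i).prod (P i)) (pis P)
      fun z i => if i ∈ S then (z i).1 else (z i).2 := fun S =>
    MP_pis (ϖ := fun i (z : Ω × Ω) => if i ∈ S then z.1 else z.2) fun i => by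
      by_cases h : i ∈ S
      · simpa only [if_pos h] using (P i).prod_fst (P i)
      · simpa only [if_neg h] using (P i).prod_snd (P i)
  have h2 : (0 : ℝ) < 2 ^ k := by positivity
  have hsum : (2 : ℝ) ^ k * ((pis P).pr fun ω => x ≤ ∑ i, v i (ω i) ∧ ∑ i, v i (ω i) ≤ x + w) =
      (pis fun i => (P i).prod (P i)).E fun z => ∑ S : Finset (Fin k),
        ind (x ≤ ∑ i, v i (if i ∈ S then (z i).1 else (z i).2) ∧
          ∑ i, v i (if i ∈ S then (z i).1 else (z i).2) ≤ x + w) := by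
    rw [FP.E_sum]
    refine Eq.trans ?_ (sum_congr rfl fun S _ => (hMP S).pr
      fun ω => x ≤ ∑ i, v i (ω i) ∧ ∑ i, v i (ω i) ≤ x + w).symm
    simp
  have hb := hB (Ω × Ω) k (fun i => (P i).prod (P i)) (fun i z => w < |v i z.1 - v i z.2|) I hI
  refine le_of_mul_le_mul_left ?_ h2
  rw [hsum]
  refine le_trans ?_ (mul_le_mul_of_nonneg_left hb h2.le)
  rw [← FP.E_mul_left]
  refine FP.E_mono _ fun z _ => ?_
  have hl := hLO k (fun i => v i (z i).1 - v i (z i).2) w (x - ∑ i, v i (z i).2)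
    (univ.filter fun i => w < |v i (z i).1 - v i (z i).2|) hw fun i hi => (mem_filter.1 hi).2
  rw [mul_one_div]
  refine le_trans (le_of_eq (sum_congr rfl fun S _ => ind_congr ?_)) (hl.trans (le_of_eq ?_))
  · have e : ∑ i, v i (if i ∈ S then (z i).1 else (z i).2) =
        ∑ i, v i (z i).2 + ∑ i ∈ S, (v i (z i).1 - v i (z i).2) := by
      rw [← Finset.sum_ite_mem_eq S fun i => v i (z i).1 - v i (z i).2, ← sum_add_distrib]
      exact sum_congr rfl fun i _ => by split_ifs <;> ring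
    rw [e]
    constructor <;> rintro ⟨h1, h3⟩ <;> constructor <;> linarith
  · congr

end Pool.Agent.P.MP_7b3100_nt.DZ
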