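import Pool.Agent.P.MP_7b3100_nt.DZ.If

/-! Step PARS. -/

namespace Pool.Agent.P.MP_7b3100_nt.DZ

open Finset Real Pool.Agent.P.MP_bf60a1_an.RA
open Pool.Agent.P.MP_e94e4b_nt (ee ee_add conj_ee ee_zero root_sum)

namespace PARSc

theorem orth {N c : ℕ} (hc : c.Coprime N) {x y : ℕ} (hx : x < N) (hy : y < N) :
    ∑ a ∈ range N, ee (x * ((a * c : ℕ) / (N : ℝ))) * ee (-(y * ((a * c : ℕ) / (N : ℝ)))) =
      if x = y then (N : ℂ) else 0 := by
  have hN : 0 < N := by omega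
  split_ifs with h
  · subst h
    simp only [← ee_add, add_neg_cancel, ee_zero]
    simp
  · have hd : ¬ (N : ℤ) ∣ (c * (x - y) : ℤ) := fun hd => by
      have h1 : (N : ℤ) ∣ (x - y : ℤ) :=
        (Nat.isCoprime_iff_coprime.2 hc.symm).dvd_of_dvd_mul_left hd
      have h2 := Int.eq_zero_of_abs_lt_dvd h1 (abs_lt.2 ⟨by omega, by omega⟩)
      omega
    have h1 := root_sum hN hd
    rw [range_eq_Ico, sum_eq_sum_Ico_succ_bot hN]
    rw [sum_congr rfl fun a _ => show ee (x * ((a * c : ℕ) / (N : ℝ))) *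
      ee (-(y * ((a * c : ℕ) / (N : ℝ)))) = ee (a * (((c * (x - y) : ℤ) : ℝ) / N)) by
        rw [← ee_add]; congr 1; push_cast; ring]
    rw [h1]
    simp [ee_zero]

theorem pars {N c : ℕ} (hc : c.Coprime N) (ν : ℕ → ℝ) :
    ∑ a ∈ range N, ‖∑ x ∈ range N, (ν x : ℂ) * ee (x * ((a * c : ℕ) / (N : ℝ)))‖ ^ 2 =
      N * ∑ x ∈ range N, ν x ^ 2 := by
  apply Complex.ofReal_injective
  push_cast
  simp only [← Complex.mul_conj', map_sum, map_mul, Complex.conj_ofReal, conj_ee, sum_mul_sum]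
  rw [sum_comm, mul_sum]
  refine sum_congr rfl fun x hx => ?_
  rw [sum_comm]
  have key : ∀ y ∈ range N, ∑ a ∈ range N, (ν x : ℂ) * ee (x * ((a * c : ℝ) / (N : ℝ))) *
      ((ν y : ℂ) * ee (-(y * ((a * c : ℝ) / (N : ℝ))))) =
      if x = y then (ν x * ν y * N : ℂ) else 0 := fun y hy => by
    have h1 := orth hc (mem_range.1 hx) (mem_range.1 hy)
    push_cast at h1
    rw [← mul_zero ((ν x : ℂ) * ν y), ← mul_ite, ← h1, mul_sum]
    exact sum_congr rfl fun a _ => by ring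
  rw [sum_congr rfl key, sum_ite_eq, if_pos hx]
  ring

end PARSc

theorem p_PARS (hCHK : S_CHK) :
    S_PARS := by
  intro Ω _ P X G k W N c η hk hG hN hc hη
  obtain ⟨h1, h2⟩ := hCHK Ω P X G k W N hk hG hN
  have h0 : ∀ x, 0 ≤ cv P X G k x := fun x => FP.pr_nonneg _ _
  have hη0 : 0 ≤ η := (h0 0).trans (hη 0)
  rw [sum_congr rfl fun a _ => by rw [mul_comm 2 k, pow_mul, ← norm_pow, h1], PARSc.pars hc]
  refine mul_le_mul_of_nonneg_left ?_ (Nat.cast_nonneg N)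
  calc ∑ x ∈ range N, cv P X G k x ^ 2 ≤ ∑ x ∈ range N, η * cv P X G k x :=
        sum_le_sum fun x _ => by rw [sq]; exact mul_le_mul_of_nonneg_right (hη x) (h0 x)
    _ ≤ η := by rw [← mul_sum]; exact mul_le_of_le_one_right hη0 h2

end Pool.Agent.P.MP_7b3100_nt.DZ
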