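import Pool.Agent.P.MP_7b3100_nt.DZ.If

/-! Step RHO. -/

namespace Pool.Agent.P.MP_7b3100_nt.DZ

open Finset Real Pool.Agent.P.MP_bf60a1_an.RA
open Pool.Agent.P.MP_e94e4b_nt (ee)

namespace RHOc

theorem sum_eq {q : ℕ} [NeZero q] (f : ZMod q → ℝ) : ∑ d ∈ range q, f d = ∑ x, f x := by
  refine sum_bij (fun d _ => (d : ZMod q)) (fun _ _ => mem_univ _) (fun a ha b hb h => ?_)
    (fun x _ => ⟨x.val, mem_range.2 (ZMod.val_lt x), ZMod.natCast_zmod_val x⟩) fun _ _ => rfl
  have := congrArg ZMod.val h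
  rwa [ZMod.val_cast_of_lt (mem_range.1 ha), ZMod.val_cast_of_lt (mem_range.1 hb)] at this

end RHOc

theorem p_RHO :
    S_RHO := by
  classical
  intro q Y hq
  have : NeZero q := ⟨hq.ne'⟩
  have hq' : (0 : ℝ) < q := by exact_mod_cast hq
  set β : ℝ := Y.card / q with hβ
  let u : ZMod q → ℝ := fun x => ind (x ∈ Y) - β
  have hr : ∀ t, rho Y t = (∑ x, u (t + x) * u x) / q := fun t => by
    rw [rho, RHOc.sum_eq fun x => u (t + x) * u x]
  have h1 : ∑ x, u x ^ 2 ≤ q * β := by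
    have h2 : ∀ x, u x ^ 2 = (if x ∈ Y then 1 - 2 * β else 0) + β ^ 2 := by
      intro x
      by_cases h : x ∈ Y <;> simp [u, ind, h]
      ring
    have h3 : (Y.card : ℝ) = q * β := by rw [hβ]; field_simp
    simp only [h2, sum_add_distrib, sum_ite_mem, univ_inter, sum_const, card_univ, ZMod.card,
      nsmul_eq_mul, h3]
    nlinarith [mul_nonneg hq'.le (sq_nonneg β)]
  refine ⟨fun t => ?_, fun t => ?_, fun σ I => ?_⟩
  · rw [hr, abs_div, abs_of_pos hq', div_le_iff₀ hq']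
    have h2 : ∑ x, u (t + x) ^ 2 = ∑ x, u x ^ 2 :=
      Equiv.sum_comp (Equiv.addLeft t) fun x => u x ^ 2
    have h3 : ∑ x, |u (t + x) * u x| ≤ ∑ x, (u (t + x) ^ 2 + u x ^ 2) / 2 :=
      sum_le_sum fun x _ => abs_le.2 ⟨by nlinarith [sq_nonneg (u (t + x) + u x)],
        by nlinarith [sq_nonneg (u (t + x) - u x)]⟩
    rw [← sum_div, sum_add_distrib, h2] at h3
    linarith [abs_sum_le_sum_abs (fun x => u (t + x) * u x) univ]
  · rw [hr, hr, ← Equiv.sum_comp (Equiv.addLeft t)]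
    simp [mul_comm]
  · have h2 : ∀ d : ℕ, (hit σ I Y d : ℝ) - I.card * β = ∑ i ∈ I, u (σ i - d) := by
      intro d
      simp only [hit, u, sum_sub_distrib, sum_const, nsmul_eq_mul, card_filter, ind]
      push_cast
      congr 1
      exact sum_congr rfl fun i _ => by congr
    simp only [var, ← hβ, h2, hr, ← sum_div]
    congr 1
    rw [RHOc.sum_eq fun x => (∑ i ∈ I, u (σ i - x)) ^ 2]
    simp only [sq, sum_mul_sum]
    rw [sum_comm]
    refine sum_congr rfl fun i _ => ?_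
    rw [sum_comm]
    refine sum_congr rfl fun i' _ => ?_
    rw [← Equiv.sum_comp (Equiv.subLeft (σ i'))]
    exact sum_congr rfl fun x _ => by simp [sub_add]

end Pool.Agent.P.MP_7b3100_nt.DZ
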