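import Pool.Agent.P.MP_7b3100_nt.DZ.If

/-! Step SS. -/

namespace Pool.Agent.P.MP_7b3100_nt.DZ

open Finset Real Pool.Agent.P.MP_bf60a1_an.RA
open Pool.Agent.P.MP_e94e4b_nt (ee)

theorem p_SS :
    S_SS := by
  intro Ω _ P D F A q s hD hA
  obtain ⟨ω0, h0⟩ := P.exists_pos
  have hq : (0 : ℝ) < q := by exact_mod_cast (Nat.zero_le _).trans_lt (hD ω0 h0)
  have h1 := P.Hc_le_add D (fun ω => D ω ∈ A (F ω)) F
  have h2 := (P.Hc_le_H (fun ω => D ω ∈ A (F ω)) F).trans (H_ind_le P _)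
  have h3 : P.Hc D (fun ω => (D ω ∈ A (F ω), F ω)) ≤
      P.E fun ω => log (q * exp (-(s * ind (D ω ∈ A (F ω))))) := by
    refine P.Hc_le_E fun ω _ => ?_
    by_cases h : D ω ∈ A (F ω)
    · refine ⟨A (F ω), by rw [ind_pos h, mul_one]; exact hA _, fun ω' _ e => ?_⟩
      simp only [Prod.mk.injEq] at e
      rw [← e.2]
      exact e.1 ▸ h
    · exact ⟨range q, by rw [ind_neg h]; simp, fun ω' h' _ => mem_range.2 (hD ω' h')⟩
  have h4 : (P.E fun ω => log (q * exp (-(s * ind (D ω ∈ A (F ω)))))) =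
      log q - (P.pr fun ω => D ω ∈ A (F ω)) * s := by
    rw [FP.pr, ← FP.E_mul_right, ← P.E_const (log q), ← FP.E_sub]
    refine P.E_congr fun ω _ => ?_
    rw [log_mul hq.ne' (exp_pos _).ne', log_exp]
    ring
  linarith

end Pool.Agent.P.MP_7b3100_nt.DZ
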