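import Pool.Agent.P.MP_7b3100_nt.DZ.If

/-! Step WIN. -/

namespace Pool.Agent.P.MP_7b3100_nt.DZ

open Finset Real Pool.Agent.P.MP_bf60a1_an.RA
open Pool.Agent.P.MP_e94e4b_nt (ee)

namespace WINc

theorem log_big (A : ℝ) : ∃ y0 : ℕ, ∀ y ≥ y0, A ≤ log (y : ℝ) :=
  Filter.eventually_atTop.1
    ((tendsto_log_atTop.comp tendsto_natCast_atTop_atTop).eventually_ge_atTop A)

theorem sv_sub (b q n r w : ℕ) : (sv b q (n + r) w).card ≤ (sv b q n (w / b ^ r)).card := by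
  refine card_le_card fun z hz => ?_
  simp only [sv, mem_filter] at hz ⊢
  exact ⟨hz.1, hz.2.div⟩

theorem arith {a H S Q C D K : ℝ} (ha : 0 < a) (hH : 0 ≤ H) (hQ : 0 ≤ Q) (hC : 0 ≤ C) (hD : 0 ≤ D)
    (h1 : H ≤ 2 * K * a) (h2 : 3 / 4 * a * S ≤ Q * (a / 5 + C * D)) :
    H * S ≤ Q * (4 * H / 15 + 8 * K * C / 3 * D) := by
  refine le_of_mul_le_mul_left ?_ (show 0 < 3 / 4 * a by positivity)
  have h3 := mul_le_mul_of_nonneg_left h2 hH
  have h4 := mul_le_mul_of_nonneg_left h1 (show 0 ≤ Q * (C * D) by positivity)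
  linarith

end WINc

open WINc in
theorem p_WIN (hEP : S_EP) (hWA : S_WA) :
    S_WIN := by
  intro b h hy
  obtain ⟨c0, C, K, y0, hc0, hC, hK, hEP⟩ := hEP b h hy
  obtain ⟨ε, hε, hε'⟩ : ∃ ε : ℝ, 0 < ε ∧ 8 * K * C / 3 * ε ≤ 1 / 15 := by
    refine ⟨1 / (40 * K * C + 1), by positivity, ?_⟩
    rw [mul_one_div, div_le_iff₀ (by positivity)]
    linarith
  obtain ⟨n0, hn0⟩ := hy.lim ε hε
  obtain ⟨y1, hy1⟩ := log_big 1
  obtain ⟨y2, hy2⟩ := log_big (log b / ε)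
  refine ⟨c0, 128 * c0 * K + 1, 8 * K * C / 3, y0 + y1 + y2 + n0 + b, hc0, by positivity,
    by positivity, fun y hyy H hH Ω _ P W hW => ?_⟩
  obtain ⟨m, hm, hKm, hEP⟩ := hEP y (by omega)
  have hb := hy.hb
  have hy0 : (0 : ℝ) < y := by exact_mod_cast (show 0 < y by omega)
  have l1 := hy1 y (by omega)
  have l2 := (div_le_iff₀ hε).1 (hy2 y (by omega))
  have hyl : 0 ≤ (y : ℝ) * log y := by positivity
  have hcK : 0 ≤ 128 * c0 * K * ((y : ℝ) * log y) := by positivity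
  have hH1 : (y : ℝ) * log y ≤ H := by linarith
  have hH2 : y ≤ H := by
    have : (y : ℝ) ≤ H := by nlinarith
    exact_mod_cast this
  obtain ⟨l, hl⟩ : ∃ l, l = K * m := ⟨_, rfl⟩
  rw [← hl] at hEP hKm
  have hl0 : 0 < l := hl ▸ Nat.mul_pos hK hm
  obtain ⟨n, r, hr, rfl⟩ : ∃ n r, r < l ∧ H = l * n + r :=
    ⟨H / l, H % l, Nat.mod_lt _ hl0, (Nat.div_add_mod H l).symm⟩
  have hn : 0 < n := by
    rcases n with _ | n
    · omega
    · omega
  have hln : l ≤ l * n := Nat.le_mul_of_pos_right _ hn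
  have h2 : ((l * n + r : ℕ) : ℝ) ≤ 2 * K * (m * n) := by
    have : l * n + r ≤ 2 * K * (m * n) := by
      rw [mul_assoc, ← mul_assoc K, ← hl]; omega
    exact_mod_cast this
  have hs : (y : ℝ) ^ (-c0) = exp (-(c0 * log y)) := by
    rw [rpow_def_of_pos hy0]; congr 1; ring
  rw [hs] at hEP ⊢
  have hK0 : (0 : ℝ) < K := by exact_mod_cast hK
  have key := hWA b y l m n h C (c0 * log y) hb (by omega) (by positivity)
    (le_of_mul_le_mul_left (by linarith) (show 0 < 2 * (K : ℝ) by positivity))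
    hEP Ω P (fun ω => W ω / b ^ r) hW.div
  have e1 : P.H W ≤ (P.H fun ω => W ω / b ^ r) + ε * (l * n + r : ℕ) := by
    rw [H_cut P W (b ^ r)]
    refine add_le_add_right ((P.Hc_le_H _ _).trans ((H_le_of_lt P (N := b ^ r) fun ω _ =>
      Nat.mod_lt _ (by positivity)).trans ?_)) _
    rw [Nat.cast_pow, log_pow]
    have h3 : (r : ℝ) ≤ y := by exact_mod_cast (show r ≤ y by omega)
    have h4 := mul_le_mul_of_nonneg_right h3 (log_natCast_nonneg b)
    have h5 := mul_le_mul_of_nonneg_left l2 hy0.le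
    have h6 := mul_le_mul_of_nonneg_left hH1 hε.le
    linarith
  have e2 : P.H W ≤ (h + ε) * (l * n + r : ℕ) := hW.H_le.trans (hn0 _ (by omega))
  have e3 : h * (l * n : ℕ) ≤ h * (l * n + r : ℕ) :=
    mul_le_mul_of_nonneg_left (by exact_mod_cast Nat.le_add_right _ _) hy.pos.le
  have hmn : (0 : ℝ) < m * n := by exact_mod_cast Nat.mul_pos hm hn
  have hQ : (0 : ℝ) ≤ (Qy y).card := Nat.cast_nonneg _
  refine (arith (D := (h + ε) * (l * n + r : ℕ) - P.H W) hmn (Nat.cast_nonneg _) hQ hC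
    (by linarith) h2 (le_trans ?_ (key.trans ?_))).trans ?_
  · refine mul_le_mul_of_nonneg_left (sum_le_sum fun q _ => P.pr_mono fun ω _ hh => hh.trans ?_)
      (by positivity)
    exact_mod_cast sv_sub b q (l * n) r (W ω)
  · refine mul_le_mul_of_nonneg_left (add_le_add_right (mul_le_mul_of_nonneg_left ?_ hC) _) hQ
    linarith
  · refine mul_le_mul_of_nonneg_left ?_ hQ
    have := mul_le_mul_of_nonneg_right hε' (Nat.cast_nonneg (α := ℝ) (l * n + r))
    linarith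

end Pool.Agent.P.MP_7b3100_nt.DZ
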